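import Pool.Agent.W216.RT.AVH
import Pool.Agent.W372.RK2.CNT4

/-!
# The average of a multiplicative function close to one over the integers with given symbols
-/

set_option autoImplicit false

namespace Pool.Agent.H82.FT

open Finset

lemma card_mod (X M r : ℕ) (hM : 0 < M) :
    (((Icc 1 X).filter (fun w => w ≡ r [MOD M])).card : ℝ) ≤ (X : ℝ) / M + 1 := by
  have h0 : Icc 1 X = Ioc 0 X := by
    ext v
    simp only [mem_Icc, mem_Ioc]
    omega
  rw [h0]
  have h1 := Nat.Ioc_filter_modEq_card 0 X hM r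
  have hMq : (0 : ℚ) < M := by exact_mod_cast hM
  have h2 : (((Ioc 0 X).filter (fun w => w ≡ r [MOD M])).card : ℚ) ≤ (X : ℚ) / M + 1 := by
    have h3 : (((Ioc 0 X).filter (fun w => w ≡ r [MOD M])).card : ℤ) =
      max (⌊((X : ℚ) - r) / M⌋ - ⌊((0 : ℕ) - (r : ℚ)) / M⌋) 0 := h1
    have h4 : (((Ioc 0 X).filter (fun w => w ≡ r [MOD M])).card : ℚ) =
      ((max (⌊((X : ℚ) - r) / M⌋ - ⌊((0 : ℕ) - (r : ℚ)) / M⌋) 0 : ℤ) : ℚ) := by
      rw [← h3]
      norm_cast
    rw [h4]
    push_cast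
    refine max_le ?_ (by positivity)
    have a1 := Int.floor_le (((X : ℚ) - r) / M)
    have a2 := Int.lt_floor_add_one (((0 : ℚ) - (r : ℚ)) / M)
    have a3 : ((X : ℚ) - r) / M - ((0 : ℚ) - (r : ℚ)) / M = X / M := by
      rw [← sub_div]
      congr 1
      ring
    linarith
  have h5 := (Rat.cast_le (K := ℝ)).2 h2
  push_cast at h5
  exact h5

lemma card_res {p : ℕ} (hp : p.Prime) (hp2 : p ≠ 2) {a σ : ℤ} (ha : ¬ (p : ℤ) ∣ a)
    (hσ : σ = 1 ∨ σ = -1) :
    (((range p).filter (fun x : ℕ => jacobiSym (a * x) p = σ)).card : ℝ) ≤ (p : ℝ) / 2 := by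
  have hja : jacobiSym a p = 1 ∨ jacobiSym a p = -1 := by
    apply jacobiSym.eq_one_or_neg_one
    rw [Int.gcd_comm]
    have h3 : ¬ p ∣ a.natAbs := by
      rwa [← Int.natCast_dvd]
    exact hp.coprime_iff_not_dvd.mpr h3
  obtain ⟨e, he, hh⟩ : ∃ e : ℤ, (e = 1 ∨ e = -1) ∧ ∀ x : ℕ, jacobiSym (a * x) p = σ →
      jacobiSym x p = e := by
    refine ⟨jacobiSym a p * σ, ?_, fun x hx => ?_⟩
    · rcases hja with h | h <;> rcases hσ with h' | h' <;> rw [h, h'] <;> norm_num
    · rw [jacobiSym.mul_left] at hx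
      have h1 : jacobiSym a p * jacobiSym a p = 1 := by
        rcases hja with h | h <;> rw [h] <;> norm_num
      linear_combination (-jacobiSym (x : ℤ) p) * h1 + jacobiSym a p * hx
  have h1 := Pool.Agent.W372.RK2.card_W hp hp2 e he
  have h2 : ((range p).filter (fun x : ℕ => jacobiSym (a * x) p = σ)).card ≤
      ((range p).filter (fun x : ℕ => jacobiSym x p = e)).card := by
    refine card_le_card fun x hx => ?_
    rw [mem_filter] at hx ⊢
    exact ⟨hx.1, hh x hx.2⟩
  have h3 : 2 * ((range p).filter (fun x : ℕ => jacobiSym (a * x) p = σ)).card ≤ p := by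
    have := hp.one_lt
    omega
  have h4 : (2 : ℝ) * ((range p).filter (fun x : ℕ => jacobiSym (a * x) p = σ)).card ≤ p := by
    exact_mod_cast h3
  linarith

open Classical in
/-- the number of integers of a residue class with given symbols -/
lemma card_sym (P : Finset ℕ) : ∀ (_ : ∀ p ∈ P, p.Prime ∧ p ≠ 2) (a σ : ℕ → ℤ)
    (_ : ∀ p ∈ P, ¬ (p : ℤ) ∣ a p ∧ (σ p = 1 ∨ σ p = -1)) (X M r : ℕ), 0 < M →
    (∀ p ∈ P, M.Coprime p) →
    (((Icc 1 X).filter (fun w : ℕ => w ≡ r [MOD M] ∧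
      ∀ p ∈ P, jacobiSym (a p * w) p = σ p)).card : ℝ) ≤
      ((X : ℝ) / (M * (∏ p ∈ P, (p : ℝ))) + 1) * ∏ p ∈ P, ((p : ℝ) / 2) := by
  induction P using Finset.induction_on with
  | empty =>
    intro _ a σ _ X M r hM _
    have := card_mod X M r hM
    simpa using this
  | insert q P hq ih =>
    intro hP a σ ha X M r hM hc
    obtain ⟨hqp, hq2⟩ := hP q (mem_insert_self _ _)
    obtain ⟨haq, hσq⟩ := ha q (mem_insert_self _ _)
    have hcq := hc q (mem_insert_self _ _)
    have hsub : ((Icc 1 X).filter (fun w : ℕ => w ≡ r [MOD M] ∧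
        ∀ p ∈ insert q P, jacobiSym (a p * w) p = σ p)) ⊆
        ((range q).filter (fun x : ℕ => jacobiSym (a q * x) q = σ q)).biUnion (fun ρ =>
          (Icc 1 X).filter (fun w : ℕ => w ≡ (Nat.chineseRemainder hcq r ρ : ℕ) [MOD (M * q)] ∧
            ∀ p ∈ P, jacobiSym (a p * w) p = σ p)) := by
      intro w hw
      rw [mem_filter] at hw
      obtain ⟨hw1, hw2, hw3⟩ := hw
      rw [mem_biUnion]
      refine ⟨w % q, ?_, ?_⟩
      · rw [mem_filter, mem_range]
        refine ⟨Nat.mod_lt _ hqp.pos, ?_⟩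
        rw [← hw3 q (mem_insert_self _ _)]
        apply jacobiSym.mod_left'
        rw [Int.natCast_mod]
        exact (Int.ModEq.mul_left _ (Int.mod_modEq _ _))
      · rw [mem_filter]
        refine ⟨hw1, ?_, fun p hp => hw3 p (mem_insert_of_mem hp)⟩
        have h1 := (Nat.chineseRemainder hcq r (w % q)).2
        rw [← Nat.modEq_and_modEq_iff_modEq_mul hcq]
        exact ⟨hw2.trans h1.1.symm, ((Nat.mod_modEq w q).symm).trans h1.2.symm⟩
    have h1 : (((Icc 1 X).filter (fun w : ℕ => w ≡ r [MOD M] ∧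
        ∀ p ∈ insert q P, jacobiSym (a p * w) p = σ p)).card : ℝ) ≤
        ∑ ρ ∈ ((range q).filter (fun x : ℕ => jacobiSym (a q * x) q = σ q)),
          (((X : ℝ) / ((M * q : ℕ) * (∏ p ∈ P, (p : ℝ))) + 1) * ∏ p ∈ P, ((p : ℝ) / 2)) := by
      refine le_trans (Nat.cast_le.2 ((card_le_card hsub).trans card_biUnion_le)) ?_
      rw [Nat.cast_sum]
      refine sum_le_sum fun ρ _ => ?_
      refine ih (fun p hp => hP p (mem_insert_of_mem hp)) a σ
        (fun p hp => ha p (mem_insert_of_mem hp)) X (M * q) _ (Nat.mul_pos hM hqp.pos) ?_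
      intro p hp
      refine Nat.Coprime.mul_left (hc p (mem_insert_of_mem hp)) ?_
      rw [Nat.coprime_primes hqp (hP p (mem_insert_of_mem hp)).1]
      rintro rfl
      exact hq hp
    refine h1.trans ?_
    rw [sum_const, nsmul_eq_mul, prod_insert hq, prod_insert hq]
    have h2 := card_res hqp hq2 haq hσq
    have h3 : (0 : ℝ) ≤ ∏ p ∈ P, ((p : ℝ) / 2) := prod_nonneg fun _ _ => by positivity
    have h4 : (0 : ℝ) ≤ (X : ℝ) / ((M * q : ℕ) * (∏ p ∈ P, (p : ℝ))) + 1 := by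
      have : (0 : ℝ) ≤ ∏ p ∈ P, (p : ℝ) := prod_nonneg fun _ _ => by positivity
      positivity
    calc ((((range q).filter (fun x : ℕ => jacobiSym (a q * x) q = σ q)).card : ℝ)) *
          (((X : ℝ) / ((M * q : ℕ) * (∏ p ∈ P, (p : ℝ))) + 1) * ∏ p ∈ P, ((p : ℝ) / 2))
        ≤ ((q : ℝ) / 2) * (((X : ℝ) / ((M * q : ℕ) * (∏ p ∈ P, (p : ℝ))) + 1) *
          ∏ p ∈ P, ((p : ℝ) / 2)) := mul_le_mul_of_nonneg_right h2 (mul_nonneg h4 h3)
      _ = _ := by
          push_cast
          rw [mul_assoc (M : ℝ)]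
          ring

/-- `∏_{p ∣ w, p > z} p / (p - 3)` -/
noncomputable def hf (z w : ℕ) : ℝ :=
  ∏ p ∈ w.primeFactors.filter (fun p => z < p), (p : ℝ) / ((p : ℝ) - (3 : ℕ))

open Classical in
/-- **The average over the integers with given symbols.** -/
theorem avr (z : ℕ) (hz : 8 ≤ z) : ∃ C : ℝ, 0 ≤ C ∧ ∀ (X : ℕ) (P : Finset ℕ) (a σ : ℕ → ℤ),
    (∀ p ∈ P, p.Prime ∧ z < p) → (∏ p ∈ P, p) ^ 2 ≤ X →
    (∀ p ∈ P, ¬ (p : ℤ) ∣ a p ∧ (σ p = 1 ∨ σ p = -1)) →
    ∑ w ∈ (Icc 1 X).filter (fun w : ℕ => ∀ p ∈ P, jacobiSym (a p * w) p = σ p), hf z w ≤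
      C * X * (1 / 2) ^ P.card := by
  have hsum : Summable (fun n : ℕ => 1 / (n : ℝ) ^ (3 / 2 : ℝ)) :=
    Real.summable_one_div_nat_rpow.2 (by norm_num)
  obtain ⟨S, hS⟩ : ∃ S : ℝ, S = ∑' n : ℕ, 1 / (n : ℝ) ^ (3 / 2 : ℝ) := ⟨_, rfl⟩
  refine ⟨2 * Real.exp (6 * S), by positivity, ?_⟩
  intro X P a σ hP hPX ha
  set Pr : Finset ℕ := (Icc 1 X).filter (fun p => p.Prime ∧ z < p) with hPr
  set g : ℕ → ℝ := fun p => ((3 : ℕ) : ℝ) / ((p : ℝ) - (3 : ℕ)) with hg
  have hpc : ∀ p ∈ Pr, (p : ℝ) / 2 ≤ (p : ℝ) - (3 : ℕ) ∧ 0 < (p : ℝ) := by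
    intro p hp
    rw [hPr, mem_filter] at hp
    have h1 : 8 < p := lt_of_le_of_lt hz hp.2.2
    have h2 : (8 : ℝ) < p := by exact_mod_cast h1
    push_cast
    exact ⟨by linarith, by linarith⟩
  have hg0 : ∀ p ∈ Pr, 0 ≤ g p := by
    intro p hp
    have := hpc p hp
    exact div_nonneg (Nat.cast_nonneg _) ((half_pos this.2).le.trans this.1)
  obtain ⟨Q, hQ⟩ : ∃ Q : ℝ, Q = (1 / 2 : ℝ) ^ P.card := ⟨_, rfl⟩
  have hQ0 : 0 ≤ Q := by rw [hQ]; positivity
  have hP0 : 0 < ∏ p ∈ P, p := prod_pos fun p hp => (hP p hp).1.pos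
  -- expansion
  have hexp : ∀ v ∈ (Icc 1 X).filter (fun w : ℕ => ∀ p ∈ P, jacobiSym (a p * w) p = σ p),
      hf z v = ∑ T ∈ Pr.powerset,
        if T ⊆ v.primeFactors.filter (fun p => z < p) then ∏ p ∈ T, g p else 0 := by
    intro v hv
    rw [mem_filter, mem_Icc] at hv
    have hsub : v.primeFactors.filter (fun p => z < p) ⊆ Pr := by
      intro p hp
      rw [mem_filter, Nat.mem_primeFactors] at hp
      rw [hPr, mem_filter, mem_Icc]
      have := Nat.le_of_dvd (by omega) hp.1.2.1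
      exact ⟨⟨hp.1.1.one_le, by omega⟩, hp.1.1, hp.2⟩
    have h1 : hf z v = ∏ p ∈ v.primeFactors.filter (fun p => z < p), (1 + g p) := by
      apply prod_congr rfl
      intro p hp
      have h2 := hpc p (hsub hp)
      have h3 : (p : ℝ) - (3 : ℕ) ≠ 0 := by
        exact ((half_pos h2.2).trans_le h2.1).ne'
      simp only [hg]
      field_simp
      ring
    rw [h1, prod_one_add, ← sum_filter]
    apply sum_congr _ (fun _ _ => rfl)
    ext T
    simp only [mem_powerset, mem_filter]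
    exact ⟨fun h => ⟨h.trans hsub, h⟩, fun h => h.2⟩
  rw [sum_congr rfl hexp, sum_comm]
  -- each subset
  have hT : ∀ T ∈ Pr.powerset, (∑ v ∈ (Icc 1 X).filter
      (fun w : ℕ => ∀ p ∈ P, jacobiSym (a p * w) p = σ p),
      if T ⊆ v.primeFactors.filter (fun p => z < p) then ∏ p ∈ T, g p else 0)
      ≤ (2 * X * Q) * ∏ p ∈ T, (g p / Real.sqrt p) := by
    intro T hT
    rw [mem_powerset] at hT
    rw [← sum_filter, sum_const, nsmul_eq_mul]
    have hG0 : 0 ≤ ∏ p ∈ T, g p := prod_nonneg fun p hp => hg0 p (hT hp)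
    have hTp : 0 < ∏ p ∈ T, p := prod_pos fun p hp => (mem_filter.1 (hT hp)).2.1.pos
    have hTr : (0 : ℝ) < ((∏ p ∈ T, p : ℕ) : ℝ) := by exact_mod_cast hTp
    have hsq : ∏ p ∈ T, (g p / Real.sqrt p) = (∏ p ∈ T, g p) /
        Real.sqrt ((∏ p ∈ T, p : ℕ) : ℝ) := by
      have e : ∏ p ∈ T, (g p / Real.sqrt (p : ℝ)) = (∏ p ∈ T, g p) /
        ∏ p ∈ T, Real.sqrt (p : ℝ) := prod_div_distrib g (fun p : ℕ => Real.sqrt (p : ℝ))
      rw [e]
      push_cast
      congr 1
      clear e hTr hTp hG0 hT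
      induction T using Finset.induction_on with
      | empty => simp
      | insert x T hx ih =>
        rw [prod_insert hx, prod_insert hx, Real.sqrt_mul (Nat.cast_nonneg _), ih]
    rw [hsq]
    have hcard : (((((Icc 1 X).filter
        (fun w : ℕ => ∀ p ∈ P, jacobiSym (a p * w) p = σ p)).filter
        (fun v => T ⊆ v.primeFactors.filter (fun p => z < p))).card : ℝ)) ≤
        2 * X * Q / Real.sqrt ((∏ p ∈ T, p : ℕ) : ℝ) := by
      rcases (((Icc 1 X).filter
        (fun w : ℕ => ∀ p ∈ P, jacobiSym (a p * w) p = σ p)).filter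
        (fun v => T ⊆ v.primeFactors.filter (fun p => z < p))).eq_empty_or_nonempty with he | ⟨v0, hv0⟩
      · rw [he, card_empty]
        push_cast
        positivity
      have hdv : ∀ v, T ⊆ v.primeFactors.filter (fun p => z < p) → ∏ p ∈ T, p ∣ v := by
        intro v hv
        apply prod_primes_dvd
        · intro p hp
          exact ((mem_filter.1 (hT hp)).2.1).prime
        · intro p hp
          have := hv hp
          rw [mem_filter, Nat.mem_primeFactors] at this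
          exact this.1.2.1
      rw [mem_filter, mem_filter, mem_Icc] at hv0
      have hTX : ∏ p ∈ T, p ≤ X := by
        have := Nat.le_of_dvd (by omega) (hdv v0 hv0.2)
        omega
      -- `T` and `P` are disjoint
      have hTP : ∀ p ∈ P, (∏ p ∈ T, p).Coprime p := by
        intro p hp
        have hpp := (hP p hp).1
        rw [Nat.coprime_comm, hpp.coprime_iff_not_dvd]
        intro hd
        have h1 : p ∣ v0 := hd.trans (hdv v0 hv0.2)
        have h2 := hv0.1.2 p hp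
        have h3 : jacobiSym (a p * v0) p = 0 := by
          rw [jacobiSym.mul_left]
          have : jacobiSym (v0 : ℤ) p = 0 := by
            have : NeZero p := ⟨hpp.ne_zero⟩
            rw [jacobiSym.eq_zero_iff_not_coprime]
            rw [Int.gcd_natCast_natCast]
            intro h
            have h4 := Nat.dvd_gcd h1 (dvd_refl p)
            rw [h] at h4
            exact hpp.one_lt.ne' (Nat.dvd_one.1 h4)
          rw [this, mul_zero]
        rw [h3] at h2
        rcases (ha p hp).2 with h | h <;> rw [h] at h2 <;> norm_num at h2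
      have h1 := card_sym P (fun p hp => ⟨(hP p hp).1, by have := (hP p hp).2; omega⟩) a σ ha X
        (∏ p ∈ T, p) 0 hTp hTP
      have h2 : ((((Icc 1 X).filter
        (fun w : ℕ => ∀ p ∈ P, jacobiSym (a p * w) p = σ p)).filter
        (fun v => T ⊆ v.primeFactors.filter (fun p => z < p))).card : ℝ) ≤
        (((Icc 1 X).filter (fun w : ℕ => w ≡ 0 [MOD (∏ p ∈ T, p)] ∧
          ∀ p ∈ P, jacobiSym (a p * w) p = σ p)).card : ℝ) := by
        refine Nat.cast_le.2 (card_le_card fun v hv => ?_)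
        rw [mem_filter, mem_filter] at hv
        rw [mem_filter]
        exact ⟨hv.1.1, (Nat.modEq_zero_iff_dvd).2 (hdv v hv.2), hv.1.2⟩
      refine h2.trans (h1.trans ?_)
      have hPr0 : (0 : ℝ) < ∏ p ∈ P, (p : ℝ) := by
        have := hP0
        have h : (0 : ℝ) < ((∏ p ∈ P, p : ℕ) : ℝ) := by exact_mod_cast this
        push_cast at h
        exact h
      have e1 : ∏ p ∈ P, ((p : ℝ) / 2) = (∏ p ∈ P, (p : ℝ)) * Q := by
        rw [hQ, ← prod_const, ← prod_mul_distrib]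
        exact prod_congr rfl fun p _ => by ring
      rw [e1]
      obtain ⟨t, ht⟩ : ∃ t : ℝ, t = ((∏ p ∈ T, p : ℕ) : ℝ) := ⟨_, rfl⟩
      obtain ⟨q, hq⟩ : ∃ q : ℝ, q = ∏ p ∈ P, (p : ℝ) := ⟨_, rfl⟩
      rw [← ht, ← hq]
      rw [← ht] at hTr
      rw [← hq] at hPr0
      have hX0 : (0 : ℝ) ≤ X := Nat.cast_nonneg X
      have ht1 : 1 ≤ t := by rw [ht]; exact_mod_cast hTp
      have htX : t ≤ X := by rw [ht]; exact_mod_cast hTX
      have hqX : q ^ 2 ≤ X := by
        have : (((∏ p ∈ P, p) ^ 2 : ℕ) : ℝ) ≤ X := by exact_mod_cast hPX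
        push_cast at this
        rw [hq]
        exact this
      have hst0 : 0 < Real.sqrt t := Real.sqrt_pos.2 hTr
      have hss : Real.sqrt t * Real.sqrt t = t := Real.mul_self_sqrt hTr.le
      have hst1 : 1 ≤ Real.sqrt t := by
        rw [show (1 : ℝ) = Real.sqrt 1 by rw [Real.sqrt_one]]
        exact Real.sqrt_le_sqrt ht1
      have b1 : (X : ℝ) / t ≤ X / Real.sqrt t := by
        apply div_le_div_of_nonneg_left hX0 hst0
        nlinarith
      have b2 : q ≤ X / Real.sqrt t := by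
        rw [le_div_iff₀ hst0]
        have h5 : q ≤ Real.sqrt X := by
          apply Real.le_sqrt_of_sq_le
          exact hqX
        have h6 : Real.sqrt t ≤ Real.sqrt X := Real.sqrt_le_sqrt htX
        calc q * Real.sqrt t ≤ Real.sqrt X * Real.sqrt X :=
              mul_le_mul h5 h6 hst0.le (Real.sqrt_nonneg _)
          _ = X := Real.mul_self_sqrt hX0
      have e2 : ((X : ℝ) / (t * q) + 1) * (q * Q) = (X / t + q) * Q := by
        field_simp
      rw [e2]
      have e3 : 2 * (X : ℝ) * Q / Real.sqrt t = (X / Real.sqrt t + X / Real.sqrt t) * Q := by ring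
      rw [e3]
      exact mul_le_mul_of_nonneg_right (add_le_add b1 b2) hQ0
    calc (((((Icc 1 X).filter
        (fun w : ℕ => ∀ p ∈ P, jacobiSym (a p * w) p = σ p)).filter
        (fun v => T ⊆ v.primeFactors.filter (fun p => z < p))).card : ℝ)) * ∏ p ∈ T, g p
        ≤ (2 * X * Q / Real.sqrt ((∏ p ∈ T, p : ℕ) : ℝ)) * ∏ p ∈ T, g p :=
          mul_le_mul_of_nonneg_right hcard hG0
      _ = _ := by ring
  refine (sum_le_sum hT).trans ?_
  rw [← mul_sum, ← prod_one_add]
  have hfac : ∀ p ∈ Pr, 1 + g p / Real.sqrt p ≤ Real.exp (6 * (1 / (p : ℝ) ^ (3 / 2 : ℝ))) := by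
    intro p hp
    have h2 := hpc p hp
    have hsp : 0 < Real.sqrt p := Real.sqrt_pos.2 h2.2
    have h3 : g p / Real.sqrt p ≤ 6 * (1 / (p : ℝ) ^ (3 / 2 : ℝ)) := by
      have h4 : g p ≤ 6 / p := by
        simp only [hg]
        have h5 : ((3 : ℕ) : ℝ) / ((p : ℝ) - (3 : ℕ)) ≤ (3 : ℕ) / ((p : ℝ) / 2) := by
          apply div_le_div_of_nonneg_left (Nat.cast_nonneg _) (by linarith [h2.2]) h2.1
        refine h5.trans (le_of_eq ?_)
        have := h2.2.ne'
        push_cast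
        field_simp
        norm_num
      have h6 : (p : ℝ) ^ (3 / 2 : ℝ) = p * Real.sqrt p := by
        rw [show (3 / 2 : ℝ) = 1 + 1 / 2 by norm_num, Real.rpow_add h2.2, Real.rpow_one,
          Real.sqrt_eq_rpow]
      rw [h6]
      calc g p / Real.sqrt p ≤ 6 / p / Real.sqrt p := div_le_div_of_nonneg_right h4 hsp.le
        _ = _ := by rw [div_div]; ring
    have h4 := Real.add_one_le_exp (6 * (1 / (p : ℝ) ^ (3 / 2 : ℝ)))
    linarith
  have hprod : ∏ p ∈ Pr, (1 + g p / Real.sqrt p) ≤ Real.exp (6 * S) := by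
    calc ∏ p ∈ Pr, (1 + g p / Real.sqrt p) ≤
          ∏ p ∈ Pr, Real.exp (6 * (1 / (p : ℝ) ^ (3 / 2 : ℝ))) := by
          apply prod_le_prod
          · intro p hp
            have := hg0 p hp
            have := Real.sqrt_nonneg (p : ℝ)
            positivity
          · exact hfac
      _ = Real.exp (∑ p ∈ Pr, 6 * (1 / (p : ℝ) ^ (3 / 2 : ℝ))) := (Real.exp_sum _ _).symm
      _ ≤ Real.exp (6 * S) := by
          apply Real.exp_le_exp.2
          rw [← mul_sum, hS]
          apply mul_le_mul_of_nonneg_left _ (by norm_num)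
          exact hsum.sum_le_tsum Pr (fun n _ => by positivity)
  calc 2 * X * Q * ∏ p ∈ Pr, (1 + g p / Real.sqrt p) ≤ 2 * X * Q * Real.exp (6 * S) :=
        mul_le_mul_of_nonneg_left hprod (by positivity)
    _ = 2 * Real.exp (6 * S) * X * (1 / 2) ^ P.card := by rw [hQ]; ring

end Pool.Agent.H82.FT
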