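import Pool.Agent.H82.FT.Pt
import Pool.Agent.H82.FT.Avr
import Pool.Agent.H82.RO.Rk
import Pool.Agent.W29.RT.CNT2
import Pool.Agent.W340.RT.SVR2

/-!
# Counting the points with given small prime factors of the forms
-/

set_option autoImplicit false

namespace Pool.Agent.H82.FT

open Finset Pool.Agent.W262.RK Pool.Agent.W307.RT
open Pool.Agent.W372.RK2 (sq_pow_dvd mj mj_primes prod_gw)
open Pool.Agent.W29.RT (c0 mj_eq G2)

lemma memT {z y : ℕ} {d : Fin 3 → ℕ} : d ∈ Tup (Fin 3) z y ↔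
    (∀ j, d j ∈ (PP z y).divisors) ∧ ∀ i j, i ≠ j → (d i).Coprime (d j) :=
  Pool.Agent.W372.RK2.mem_Tup'

/-- the facts about the values -/
structure G3 (z : ℕ) (s v u : Fin 3 → ℕ) (F : Fin 3 → ℤ) : Prop where
  fs : ∀ p : ℕ, p.Prime → ∀ j, p ∣ s j → (p : ℤ) ∣ F j ∧ ¬ (p : ℤ) ^ 2 ∣ F j
  fv : ∀ p : ℕ, p.Prime → ∀ j, p ∣ v j → (p : ℤ) ^ 2 ∣ F j
  fu : ∀ j, (u j : ℤ) ∣ F j
  un : ∀ p : ℕ, p.Prime → z < p → ∀ j l, (p : ℤ) ∣ F j → (p : ℤ) ∣ F l → j = l

variable {z y Y : ℕ} {s v u : Fin 3 → ℕ} {α : Fin 3 → ℤ}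

/-- two counted `t` are congruent -/
lemma cong3 (hα : ∀ p : ℕ, p.Prime → z < p → ∀ j, ¬ (p : ℤ) ∣ α j) (hzy : z < y)
    (hs : s ∈ Tup (Fin 3) z y) (hv : v ∈ Tup (Fin 3) z y) (hu : u ∈ Tup (Fin 3) y Y) {t t' : ℤ}
    {F F' : Fin 3 → ℤ}
    (g : G3 z s v u F) (g' : G3 z s v u F') (hf : ∀ j, F j - F' j = α j * (t - t')) :
    ((∏ j, mj c0 s v u j : ℕ) : ℤ) ∣ t - t' := by
  have hs' := (memT.1 hs).1
  have hv' := (memT.1 hv).1
  have hu' := (memT.1 hu).1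
  have fmj : ∀ (p : ℕ), p.Prime → ∀ j, p ∣ mj c0 s v u j → z < p ∧ (p : ℤ) ∣ F j := by
    intro p hp j h
    rw [mj_eq] at h
    rcases hp.dvd_mul.1 h with h | h
    · rcases hp.dvd_mul.1 h with h | h
      · exact ⟨(dv_prime (hs' j) hp h).1, (g.fs p hp j h).1⟩
      · have h' := hp.dvd_of_dvd_pow h
        exact ⟨(dv_prime (hv' j) hp h').1, (dvd_pow_self (p : ℤ) two_ne_zero).trans (g.fv p hp j h')⟩
    · have h' := (dv_prime (hu' j) hp h).1
      exact ⟨hzy.trans h', (Int.natCast_dvd_natCast.2 h).trans (g.fu j)⟩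
  rw [Nat.cast_prod]
  apply Finset.prod_dvd_of_coprime
  · intro j _ l _ hjl
    rw [Function.onFun, Nat.isCoprime_iff_coprime]
    apply Nat.coprime_of_dvd
    intro p hp hpj hpl
    have h1 := fmj p hp j hpj
    have h2 := fmj p hp l hpl
    exact hjl (g.un p hp h1.1 j l h1.2 h2.2)
  intro j _
  have hdiv : ∀ d : ℕ, (∀ p : ℕ, p.Prime → p ∣ d → z < p) →
      (d : ℤ) ∣ F j - F' j → (d : ℤ) ∣ t - t' := by
    intro d hd h
    rw [hf] at h
    exact (Pool.Agent.W29.RT.al_coprime hα j hd).dvd_of_dvd_mul_left h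
  have hsz : ∀ p : ℕ, p.Prime → p ∣ s j → z < p := fun p hp h => (dv_prime (hs' j) hp h).1
  have hvz : ∀ p : ℕ, p.Prime → p ∣ v j → z < p := fun p hp h => (dv_prime (hv' j) hp h).1
  have huz : ∀ p : ℕ, p.Prime → p ∣ u j → z < p := fun p hp h =>
    hzy.trans (dv_prime (hu' j) hp h).1
  have h1 : ((s j : ℕ) : ℤ) ∣ F j - F' j := by
    have h := sq_pow_dvd (dv_squarefree (hs' j)) 1 (F j - F' j)
      (fun p hp hpd => by
        rw [pow_one]
        exact dvd_sub (g.fs p hp j hpd).1 (g'.fs p hp j hpd).1)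
    rwa [pow_one] at h
  have h2 : ((v j ^ 2 : ℕ) : ℤ) ∣ F j - F' j := by
    have h := sq_pow_dvd (dv_squarefree (hv' j)) 2 (F j - F' j)
      (fun p hp hpd => dvd_sub (g.fv p hp j hpd) (g'.fv p hp j hpd))
    exact_mod_cast h
  have h4 : ((u j : ℕ) : ℤ) ∣ F j - F' j := dvd_sub (g.fu j) (g'.fu j)
  have h5 : ((s j : ℕ) : ℤ) ∣ t - t' := hdiv _ hsz h1
  have h6 : ((v j ^ 2 : ℕ) : ℤ) ∣ t - t' :=
    hdiv _ (fun p hp h => hvz p hp (hp.dvd_of_dvd_pow h)) h2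
  have h7 : ((u j : ℕ) : ℤ) ∣ t - t' := hdiv _ huz h4
  have hcop1 : IsCoprime ((s j : ℕ) : ℤ) ((v j ^ 2 : ℕ) : ℤ) := by
    rw [Nat.isCoprime_iff_coprime]
    apply Nat.coprime_of_dvd
    intro p hp hps hpv
    exact (g.fs p hp j hps).2 (g.fv p hp j (hp.dvd_of_dvd_pow hpv))
  have hcop2 : IsCoprime ((s j * v j ^ 2 : ℕ) : ℤ) ((u j : ℕ) : ℤ) := by
    rw [Nat.isCoprime_iff_coprime]
    apply Nat.coprime_of_dvd
    intro p hp hps hpu
    have h8 : y < p := (dv_prime (hu' j) hp hpu).1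
    have h9 : p ≤ y := by
      rcases hp.dvd_mul.1 hps with h | h
      · exact (dv_prime (hs' j) hp h).2
      · exact (dv_prime (hv' j) hp (hp.dvd_of_dvd_pow h)).2
    omega
  rw [mj_eq, Nat.cast_mul]
  refine hcop2.mul_dvd ?_ h7
  rw [Nat.cast_mul]
  exact hcop1.mul_dvd h5 h6

lemma prod_mul_le (Q : ℕ → Prop) [DecidablePred Q] (φ : ℕ → ℝ) (hφ : ∀ p, Q p → 1 ≤ φ p)
    {n m : ℕ} (hn : n ≠ 0) (hm : m ≠ 0) : ∏ p ∈ (n * m).primeFactors.filter Q, φ p ≤
      (∏ p ∈ n.primeFactors.filter Q, φ p) * ∏ p ∈ m.primeFactors.filter Q, φ p := by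
  have h0 : ∀ S : Finset ℕ, 1 ≤ ∏ p ∈ S.filter Q, φ p := fun S => by
    calc (1 : ℝ) = ∏ _p ∈ S.filter Q, (1 : ℝ) := by simp
      _ ≤ _ := prod_le_prod (fun _ _ => zero_le_one) fun p hp => hφ p (mem_filter.1 hp).2
  have e1 : (n * m).primeFactors.filter Q =
      n.primeFactors.filter Q ∪ (m.primeFactors.filter Q \ n.primeFactors.filter Q) := by
    rw [union_sdiff_self_eq_union, Nat.primeFactors_mul hn hm, filter_union]
  rw [e1, prod_union disjoint_sdiff]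
  refine mul_le_mul_of_nonneg_left ?_ (zero_le_one.trans (h0 _))
  have e2 : m.primeFactors.filter Q \ n.primeFactors.filter Q ⊆ m.primeFactors.filter Q :=
    sdiff_subset
  rw [← prod_sdiff e2]
  refine le_mul_of_one_le_left (prod_nonneg fun p hp => ?_) ?_
  · exact zero_le_one.trans (hφ p (mem_filter.1 (e2 hp)).2)
  · calc (1 : ℝ) = ∏ _p ∈ m.primeFactors.filter Q \ (m.primeFactors.filter Q \
          n.primeFactors.filter Q), (1 : ℝ) := by simp
      _ ≤ _ := prod_le_prod (fun _ _ => zero_le_one) fun p hp =>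
          hφ p (mem_filter.1 (mem_sdiff.1 hp).1).2

lemma hf_one_le {z : ℕ} (hz : 8 ≤ z) {p : ℕ} (hp : z < p) :
    (1 : ℝ) ≤ (p : ℝ) / ((p : ℝ) - (3 : ℕ)) := by
  have h1 : (8 : ℝ) < p := by exact_mod_cast lt_of_le_of_lt hz hp
  push_cast
  rw [le_div_iff₀ (by linarith)]
  linarith

lemma hf_ge {z : ℕ} (hz : 8 ≤ z) (n : ℕ) : 1 ≤ hf z n := by
  unfold hf
  calc (1 : ℝ) = ∏ _p ∈ n.primeFactors.filter (fun p => z < p), (1 : ℝ) := by simp
    _ ≤ _ := prod_le_prod (fun _ _ => zero_le_one) fun p hp => hf_one_le hz (mem_filter.1 hp).2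

/-- the product over the small primes -/
noncomputable def Gm (z y m : ℕ) : ℝ :=
  ∏ p ∈ m.primeFactors.filter (fun p => p ∈ PS z y), (p : ℝ) / ((p : ℝ) - (3 : ℕ))

lemma Gm_le_hf {z y : ℕ} (hz : 8 ≤ z) (n : ℕ) : Gm z y n ≤ hf z n := by
  unfold Gm hf
  have e2 : n.primeFactors.filter (fun p => p ∈ PS z y) ⊆
      n.primeFactors.filter (fun p => z < p) := by
    intro p hp
    rw [mem_filter] at hp ⊢
    exact ⟨hp.1, (mem_PS.1 hp.2).1.1⟩
  rw [← prod_sdiff e2]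
  refine le_mul_of_one_le_left (prod_nonneg fun p hp => ?_) ?_
  · exact zero_le_one.trans (hf_one_le hz (mem_filter.1 (e2 hp)).2)
  · calc (1 : ℝ) = ∏ _p ∈ n.primeFactors.filter (fun p => z < p) \
          n.primeFactors.filter (fun p => p ∈ PS z y), (1 : ℝ) := by simp
      _ ≤ _ := prod_le_prod (fun _ _ => zero_le_one) fun p hp =>
          hf_one_le hz (mem_filter.1 (mem_sdiff.1 hp).1).2

lemma Gm_nonneg {z y : ℕ} (hz : 8 ≤ z) (n : ℕ) : 0 ≤ Gm z y n :=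
  prod_nonneg fun p hp => zero_le_one.trans (hf_one_le hz (mem_PS.1 (mem_filter.1 hp).2).1.1)

/-- the modulus -/
lemma mj_facts (hs : s ∈ Tup (Fin 3) z y) (hv : v ∈ Tup (Fin 3) z y) (hu : u ∈ Tup (Fin 3) y Y)
    {X : ℕ} (h8 : (∏ j, s j * v j * u j) ^ 8 ≤ X) :
    1 ≤ ∏ j, mj c0 s v u j ∧ (∏ j, mj c0 s v u j) ^ 4 ≤ X ∧ (∏ j, s j) ^ 2 ≤ X := by
  have hs' := (memT.1 hs).1
  have hv' := (memT.1 hv).1
  have hu' := (memT.1 hu).1
  have hmj1 : ∀ j, 1 ≤ mj c0 s v u j := by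
    intro j
    rw [mj_eq]
    have h1 := dv_pos (hs' j)
    have h2 := dv_pos (hv' j)
    have h3 := dv_pos (hu' j)
    exact Nat.succ_le_of_lt (by positivity)
  refine ⟨Nat.succ_le_of_lt (prod_pos fun j _ => hmj1 j), ?_, ?_⟩
  · refine le_trans ?_ h8
    have h1 : ∏ j, mj c0 s v u j ≤ (∏ j, s j * v j * u j) ^ 2 := by
      rw [← prod_pow]
      apply prod_le_prod'
      intro j _
      rw [mj_eq]
      have h1 := dv_pos (hs' j)
      have h3 := dv_pos (hu' j)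
      calc s j * v j ^ 2 * u j ≤ (s j * s j) * v j ^ 2 * (u j * u j) := by
            apply Nat.mul_le_mul
            · apply Nat.mul_le_mul_right
              nlinarith
            · nlinarith
        _ = (s j * v j * u j) ^ 2 := by ring
    calc (∏ j, mj c0 s v u j) ^ 4 ≤ ((∏ j, s j * v j * u j) ^ 2) ^ 4 := Nat.pow_le_pow_left h1 4
      _ = (∏ j, s j * v j * u j) ^ 8 := by rw [← pow_mul]
  · refine le_trans ?_ h8
    have h1 : ∏ j, s j ≤ ∏ j, s j * v j * u j := by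
      apply prod_le_prod'
      intro j _
      have h1 := dv_pos (hs' j)
      have h2 := dv_pos (hv' j)
      have h3 := dv_pos (hu' j)
      calc s j = s j * 1 * 1 := by ring
        _ ≤ s j * v j * u j := Nat.mul_le_mul (Nat.mul_le_mul_left _ h2) h3
    have h4 : 1 ≤ ∏ j, s j * v j * u j := Nat.succ_le_of_lt (prod_pos fun j _ => by
      have h1 := dv_pos (hs' j)
      have h2 := dv_pos (hv' j)
      have h3 := dv_pos (hu' j)
      positivity)
    exact (Nat.pow_le_pow_left h1 2).trans (Nat.pow_le_pow_right h4 (by norm_num))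

/-- **The count for a fixed twist and a fixed second variable.** -/
theorem cnt_fix (z : ℕ) (hz : 8 ≤ z) : ∃ (C : ℝ) (K y0 : ℕ), 0 ≤ C ∧ 1 ≤ K ∧
    ∀ B y Y : ℕ, y0 ≤ y → z < y → y ^ K ≤ B → ∀ s ∈ Tup (Fin 3) z y, ∀ v ∈ Tup (Fin 3) z y,
    ∀ u ∈ Tup (Fin 3) y Y, (∏ j, s j * v j * u j) ^ 8 ≤ B → ∀ g w : ℕ, 0 < g → 0 < w →
    ∀ A : Finset ℕ, A ⊆ Icc 1 B → (∀ t ∈ A, t.Coprime w ∧ ∃ f,
      Fr z g (fv α3 β3 (t : ℤ) (w : ℤ)) f ∧ S1 z y f = s ∧ S2 z y f = v ∧ ∀ j, (u j : ℤ) ∣ f j) →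
    (A.card : ℝ) ≤ C * ((B : ℝ) / (∏ j, mj c0 s v u j : ℕ)) *
      (Gm z y (∏ j, mj c0 s v u j) * (hf z w * hf z g)) / (Real.log y) ^ 3 := by
  obtain ⟨C, K, y0, hC, hK, hSV⟩ := Pool.Agent.W340.RT.SVR2.svr2 (Fin 3) z (by simpa using hz)
  refine ⟨C, K, y0, hC, hK, ?_⟩
  intro B y Y hy0 hzy hB s hs v hv u hu h8 g w hg hw A hA hAf
  have hBg := bg3 hz
  obtain ⟨hm1, hm4, -⟩ := mj_facts hs hv hu h8
  obtain ⟨m, hm⟩ : ∃ m, m = ∏ j, mj c0 s v u j := ⟨_, rfl⟩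
  rw [← hm] at hm1 hm4 ⊢
  have hlog : 0 ≤ (Real.log y) ^ 3 := pow_nonneg (Real.log_natCast_nonneg y) _
  have hφ : ∀ p, p ∈ PS z y → (1 : ℝ) ≤ (p : ℝ) / ((p : ℝ) - (3 : ℕ)) := fun p hp =>
    hf_one_le hz (mem_PS.1 hp).1.1
  have hprod : Gm z y (m * (w * g)) ≤ Gm z y m * (hf z w * hf z g) := by
    refine (prod_mul_le (fun p => p ∈ PS z y) _ hφ (by omega)
      (mul_ne_zero hw.ne' hg.ne')).trans ?_
    refine mul_le_mul_of_nonneg_left ?_ (Gm_nonneg hz m)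
    refine (prod_mul_le (fun p => p ∈ PS z y) _ hφ hw.ne' hg.ne').trans ?_
    exact mul_le_mul (Gm_le_hf hz w) (Gm_le_hf hz g) (Gm_nonneg hz g)
      (zero_le_one.trans (hf_ge hz w))
  have hcond : ∀ p ∈ PS z y, ¬ p ∣ m * (w * g) → (∀ j, ¬ (p : ℤ) ∣ α3 j) ∧
      ∀ j l, j ≠ l → ¬ (p : ℤ) ∣ Res α3 (fun j => β3 j * (w : ℤ)) j l := by
    intro p hp hpm
    have hpp := (mem_PS.1 hp).2
    have hzp := (mem_PS.1 hp).1.1
    refine ⟨(hBg.2 p hpp hzp).1, fun j l hjl hd => ?_⟩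
    have h1 : Res α3 (fun j => β3 j * (w : ℤ)) j l = Res α3 β3 j l * (w : ℤ) := by
      unfold Res
      ring
    rw [h1] at hd
    have hpI : Prime (p : ℤ) := Nat.prime_iff_prime_int.1 hpp
    rcases hpI.dvd_or_dvd hd with h | h
    · exact (hBg.2 p hpp hzp).2 j l hjl h
    · exact hpm (((Int.natCast_dvd_natCast.1 h).mul_right _).mul_left _)
  have hbd : ∀ r : ℕ, (((Icc 1 B).filter (fun t : ℕ => t ≡ r [MOD m] ∧
      ∀ p ∈ PS z y, ¬ p ∣ m * (w * g) →
      ∀ j, ¬ (p : ℤ) ∣ ff α3 (fun j => β3 j * (w : ℤ)) t j)).card : ℝ) ≤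
      C * ((B : ℝ) / m) * (Gm z y m * (hf z w * hf z g)) / (Real.log y) ^ 3 := by
    intro r
    have h := hSV B y hy0 hzy hB α3 (fun j => β3 j * (w : ℤ)) m (m * (w * g)) r hm1
      (dvd_mul_right _ _) (mul_ne_zero (by omega) (mul_ne_zero hw.ne' hg.ne')) hm4 hcond
    rw [Fintype.card_fin] at h
    refine (le_of_eq (by congr)).trans (h.trans ?_)
    apply div_le_div_of_nonneg_right _ hlog
    apply mul_le_mul_of_nonneg_left hprod
    positivity
  rcases A.eq_empty_or_nonempty with he | ⟨r, hr⟩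
  · rw [he, card_empty, Nat.cast_zero]
    exact le_trans (Nat.cast_nonneg _) (hbd 0)
  have hg3 : ∀ t ∈ A, G3 z s v u (fv α3 β3 (t : ℤ) (w : ℤ)) ∧
      ∀ p ∈ PS z y, ¬ p ∣ g → ∀ j, (p : ℤ) ∣ fv α3 β3 (t : ℤ) (w : ℤ) j → p ∣ m := by
    intro t ht
    obtain ⟨htw, f, hf, hfs, hfv, hfu⟩ := hAf t ht
    have hpg : ∀ p : ℕ, p.Prime → ∀ j, (p : ℤ) ∣ f j → ¬ p ∣ g := fun p hp j h h' =>
      hf.nd j p hp h' h
    refine ⟨⟨?_, ?_, ?_, ?_⟩, ?_⟩
    · intro p hp j hj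
      rw [← hfs] at hj
      have h1 := (Pool.Agent.W29.RT.dvd_S1 hp).1 hj
      have h2 := hpg p hp j h1.2.1
      refine ⟨by simpa using (hf.iff j p hp h2 1).1 (by simpa using h1.2.1), fun h => ?_⟩
      exact h1.2.2 ((hf.iff j p hp h2 2).2 h)
    · intro p hp j hj
      rw [← hfv] at hj
      have h1 := (Pool.Agent.W29.RT.dvd_S2 hp).1 hj
      have h2 := hpg p hp j ((dvd_pow_self (p : ℤ) two_ne_zero).trans h1.2)
      exact (hf.iff j p hp h2 2).1 h1.2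
    · intro j
      refine Int.natCast_dvd.2 ?_
      have hsq := dv_squarefree ((memT.1 hu).1 j)
      rw [← Nat.prod_primeFactors_of_squarefree hsq]
      refine prod_primes_dvd _ (fun p hp => (Nat.prime_of_mem_primeFactors hp).prime) ?_
      intro p hp
      have hpp := Nat.prime_of_mem_primeFactors hp
      have h1 : (p : ℤ) ∣ f j :=
        (Int.natCast_dvd_natCast.2 (Nat.dvd_of_mem_primeFactors hp)).trans (hfu j)
      have h2 := hpg p hpp j h1
      have h3 : (p : ℤ) ∣ fv α3 β3 (t : ℤ) (w : ℤ) j := by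
        simpa using (hf.iff j p hpp h2 1).1 (by simpa using h1)
      exact Int.natCast_dvd.1 h3
    · intro p hp hzp j l hj hl
      by_contra hne
      exact Pool.Agent.W571.RT.fv_not_dvd hBg hp hzp (Nat.isCoprime_iff_coprime.2 htw) hne hj hl
    · intro p hpP hpgn j hj
      have hp := (mem_PS.1 hpP).2
      have h1 : (p : ℤ) ∣ f j := by
        simpa using (hf.iff j p hp hpgn 1).2 (by simpa using hj)
      rw [hm]
      refine Dvd.dvd.trans ?_ (dvd_prod_of_mem _ (mem_univ j))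
      rw [mj_eq]
      by_cases h2 : (p : ℤ) ^ 2 ∣ f j
      · have h3 : p ∣ v j := by
          rw [← hfv]
          exact (Pool.Agent.W29.RT.dvd_S2 hp).2 ⟨hpP, h2⟩
        exact (((h3.pow two_ne_zero).mul_left _).mul_right _)
      · have h3 : p ∣ s j := by
          rw [← hfs]
          exact (Pool.Agent.W29.RT.dvd_S1 hp).2 ⟨hpP, h1, h2⟩
        exact ((h3.mul_right _).mul_right _)
  refine le_trans ?_ (hbd r)
  rw [Nat.cast_le]
  refine card_le_card fun t ht => ?_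
  rw [mem_filter]
  refine ⟨hA ht, ?_, ?_⟩
  · have h1 := cong3 (α := α3) (fun p hp hz => (hBg.2 p hp hz).1) hzy hs hv hu (hg3 t ht).1
      (hg3 r hr).1 (t := (t : ℤ)) (t' := (r : ℤ)) (fun j => by unfold fv; ring)
    rw [← hm] at h1
    exact ((Nat.modEq_iff_dvd.2 h1)).symm
  · intro p hpP hpm j hpf
    have hff : ff α3 (fun j => β3 j * (w : ℤ)) (t : ℤ) j = fv α3 β3 (t : ℤ) (w : ℤ) j := by
      unfold ff fv
      ring
    rw [hff] at hpf
    apply hpm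
    apply Dvd.dvd.mul_right
    exact (hg3 t ht).2 p hpP (fun h => hpm ((h.mul_left _).mul_left _)) j hpf

/-- the quotient -/
lemma Gm_div (hs : s ∈ Tup (Fin 3) z y) (hv : v ∈ Tup (Fin 3) z y)
    (hu : u ∈ Tup (Fin 3) y Y) {f : Fin 3 → ℤ} (g : G2 z y s v u f) :
    Gm z y (∏ j, mj c0 s v u j) / (∏ j, mj c0 s v u j : ℕ) =
      (∏ j, gw 1 3 (s j)) * (∏ j, gw 1 3 (v j) / v j) * (∏ j, 1 / (u j : ℝ)) := by
  have hs' := (memT.1 hs).1
  have hv' := (memT.1 hv).1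
  have hu' := (memT.1 hu).1
  have h1 := Pool.Agent.W29.RT.prod_pr hs hv hu g
  rw [Fintype.card_fin] at h1
  unfold Gm
  rw [h1, Nat.cast_prod, ← prod_div_distrib, ← prod_mul_distrib, ← prod_mul_distrib]
  refine prod_congr rfl fun j _ => ?_
  have h1 : (s j : ℝ) ≠ 0 := Nat.cast_ne_zero.2 (dv_ne_zero (hs' j))
  have h2 : (v j : ℝ) ≠ 0 := Nat.cast_ne_zero.2 (dv_ne_zero (hv' j))
  have h3 : (u j : ℝ) ≠ 0 := Nat.cast_ne_zero.2 (dv_ne_zero (hu' j))
  rw [mj_eq]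
  rw [Nat.cast_mul, Nat.cast_mul, Nat.cast_pow]
  field_simp

/-- **The average of the local counts over the second variable.** -/
theorem avg_NL (z : ℕ) (hz : 8 ≤ z) : ∃ C : ℝ, 0 ≤ C ∧ ∀ (y B m : ℕ), ∀ s ∈ Tup (Fin 3) z y,
    m = ∏ j, s j → m ^ 2 ≤ B → ∀ (ε : ℤ), (ε = 1 ∨ ε = -1) → ∀ g : ℕ,
    (∀ p ∈ m.primeFactors, ¬ p ∣ g) →
    ∑ b ∈ (Icc 1 B).filter (fun b : ℕ => ∀ p ∈ m.primeFactors, ¬ p ∣ b),
      (NL m (LLe s (Es ε g b s)) : ℝ) * hf z b ≤ C * B * GG s := by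
  obtain ⟨C, hC, havr⟩ := avr z hz
  refine ⟨C, hC, ?_⟩
  intro y B m s hs hm hsB ε hε g hg
  have hmd : m ∣ PP z y := by rw [hm]; exact Tup_prod_dvd hs
  have hm0 : m ≠ 0 := ne_zero_of_dvd_ne_zero (PP_ne_zero z y) hmd
  have hPS : ∀ p ∈ m.primeFactors, p ∈ PS z y := fun p hp =>
    (prime_dvd_PP (Nat.prime_of_mem_primeFactors hp)).1 ((Nat.dvd_of_mem_primeFactors hp).trans hmd)
  have hex : ∀ p : ℕ, ∃ j : Fin 3, p ∈ m.primeFactors → p ∣ s j := by
    intro p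
    by_cases hp : p ∈ m.primeFactors
    · have h1 := Nat.dvd_of_mem_primeFactors hp
      rw [hm] at h1
      obtain ⟨j, -, hj⟩ := ((Nat.prime_of_mem_primeFactors hp).prime.dvd_finsetProd_iff _).1 h1
      exact ⟨j, fun _ => hj⟩
    · exact ⟨0, fun h => absurd h hp⟩
  choose jj hjj using hex
  have huniq : ∀ p ∈ m.primeFactors, ∀ j, p ∣ s j → j = jj p := by
    intro p hp j hj
    by_contra hne
    have h1 := (memT.1 hs).2 j (jj p) hne
    have h2 := Nat.dvd_gcd hj (hjj p hp)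
    rw [h1] at h2
    exact (Nat.prime_of_mem_primeFactors hp).one_lt.ne' (Nat.dvd_one.1 h2)
  have hmaps : ∀ b ∈ (Icc 1 B).filter (fun b => ∀ p ∈ m.primeFactors, ¬ p ∣ b),
      Es ε g b s ∈ m.primeFactors.powerset := by
    intro b _
    rw [mem_powerset]
    unfold Es
    rw [← hm]
    exact filter_subset _ _
  rw [← sum_fiberwise_of_maps_to hmaps]
  have hfib : ∀ E ∈ m.primeFactors.powerset,
      ∑ b ∈ ((Icc 1 B).filter (fun b => ∀ p ∈ m.primeFactors, ¬ p ∣ b)).filter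
        (fun b => Es ε g b s = E), (NL m (LLe s (Es ε g b s)) : ℝ) * hf z b ≤
      (NL m (LLe s E) : ℝ) * (C * B * (1 / 2) ^ m.primeFactors.card) := by
    intro E hE
    have h1 : ∑ b ∈ ((Icc 1 B).filter (fun b => ∀ p ∈ m.primeFactors, ¬ p ∣ b)).filter
        (fun b => Es ε g b s = E), (NL m (LLe s (Es ε g b s)) : ℝ) * hf z b =
        (NL m (LLe s E) : ℝ) * ∑ b ∈ ((Icc 1 B).filter (fun b => ∀ p ∈ m.primeFactors,
          ¬ p ∣ b)).filter (fun b => Es ε g b s = E), hf z b := by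
      rw [mul_sum]
      refine sum_congr rfl fun b hb => ?_
      rw [(mem_filter.1 hb).2]
    rw [h1]
    refine mul_le_mul_of_nonneg_left ?_ (Nat.cast_nonneg _)
    have hkn : ∀ p ∈ m.primeFactors, ¬ (p : ℤ) ∣ ε * g * c3 (jj p) := by
      intro p hp h
      have hpp := Nat.prime_of_mem_primeFactors hp
      have hpi : Prime (p : ℤ) := Nat.prime_iff_prime_int.1 hpp
      have hzp := (mem_PS.1 (hPS p hp)).1.1
      rcases hpi.dvd_or_dvd h with h | h
      · rcases hpi.dvd_or_dvd h with h | h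
        · rcases hε with h' | h' <;> rw [h'] at h
          · exact hpi.not_isUnit (isUnit_of_dvd_one h)
          · exact hpi.not_isUnit (isUnit_of_dvd_one (by simpa using h))
        · exact hg p hp (by exact_mod_cast h)
      · have h2 : ∀ j, (c3 j).natAbs ≠ 0 ∧ (c3 j).natAbs ≤ 2 := by decide
        have h3 := Nat.le_of_dvd (Nat.pos_of_ne_zero (h2 (jj p)).1) (Int.natCast_dvd.1 h)
        have := (h2 (jj p)).2
        omega
    refine le_trans ?_ (havr B m.primeFactors (fun p => ε * g * c3 (jj p))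
      (fun p => if p ∈ E then -1 else 1) ?_ ?_ ?_)
    · refine sum_le_sum_of_subset_of_nonneg ?_ fun b _ _ => zero_le_one.trans (hf_ge hz b)
      intro b hb
      rw [mem_filter, mem_filter] at hb
      obtain ⟨⟨hb1, hb2⟩, hb3⟩ := hb
      rw [mem_filter]
      refine ⟨hb1, fun p hp => ?_⟩
      have hpp := Nat.prime_of_mem_primeFactors hp
      have hpi : Prime (p : ℤ) := Nat.prime_iff_prime_int.1 hpp
      have hke : kap ε g b (jj p) = ε * g * c3 (jj p) * b := by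
        unfold kap
        ring
      have hnd : ¬ (p : ℤ) ∣ ε * g * c3 (jj p) * b := fun h =>
        (hpi.dvd_or_dvd h).elim (hkn p hp) fun h' => hb2 p hp (by exact_mod_cast h')
      have hpm : jacobiSym (ε * g * c3 (jj p) * b) p = 1 ∨
          jacobiSym (ε * g * c3 (jj p) * b) p = -1 := by
        apply jacobiSym.eq_one_or_neg_one
        rw [Int.gcd_comm]
        have h3 : ¬ p ∣ (ε * g * c3 (jj p) * b).natAbs := by
          rwa [← Int.natCast_dvd]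
        exact hpp.coprime_iff_not_dvd.mpr h3
      have hiff : p ∈ E ↔ jacobiSym (ε * g * c3 (jj p) * b) p = -1 := by
        rw [← hb3]
        unfold Es
        rw [← hm, mem_filter]
        constructor
        · rintro ⟨-, j, hj, hj2⟩
          rw [huniq p hp j hj, hke] at hj2
          unfold sg0 at hj2
          exact of_decide_eq_true hj2
        · intro h
          refine ⟨hp, jj p, hjj p hp, ?_⟩
          rw [hke]
          unfold sg0
          exact decide_eq_true h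
      by_cases hpE : p ∈ E
      · simp only [hpE, if_true]
        exact hiff.1 hpE
      · simp only [hpE, if_false]
        exact hpm.resolve_right fun h => hpE (hiff.2 h)
    · intro p hp
      exact ⟨Nat.prime_of_mem_primeFactors hp, (mem_PS.1 (hPS p hp)).1.1⟩
    · refine le_trans (Nat.pow_le_pow_left ?_ 2) hsB
      exact Nat.le_of_dvd (Nat.pos_of_ne_zero hm0) (Nat.prod_primeFactors_dvd m)
    · intro p hp
      refine ⟨hkn p hp, ?_⟩
      by_cases hpE : p ∈ E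
      · right; simp only [hpE, if_true]
      · left; simp only [hpE, if_false]
  refine (sum_le_sum hfib).trans (le_of_eq ?_)
  rw [← sum_mul]
  unfold GG
  rw [← hm]
  ring

lemma hf_le {z : ℕ} (hz : 8 ≤ z) (n : ℕ) : hf z n ≤ 4 ^ n.primeFactors.card := by
  unfold hf
  calc ∏ p ∈ n.primeFactors.filter (fun p => z < p), (p : ℝ) / ((p : ℝ) - (3 : ℕ))
      ≤ ∏ _p ∈ n.primeFactors.filter (fun p => z < p), (4 : ℝ) := by
        refine prod_le_prod (fun p hp => zero_le_one.trans (hf_one_le hz (mem_filter.1 hp).2)) ?_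
        intro p hp
        have h1 : (8 : ℝ) < p := by exact_mod_cast lt_of_le_of_lt hz (mem_filter.1 hp).2
        push_cast
        rw [div_le_iff₀ (by linarith)]
        linarith
    _ = 4 ^ (n.primeFactors.filter (fun p => z < p)).card := by rw [prod_const]
    _ ≤ 4 ^ n.primeFactors.card := pow_le_pow_right₀ (by norm_num) (card_filter_le _ _)

/-- the power of four of the number of the prime factors -/
lemma four_pow_nat (ε : ℝ) (hε : 0 < ε) : ∃ C : ℝ, 0 < C ∧ ∀ n : ℕ, 0 < n →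
    (4 : ℝ) ^ n.primeFactors.card ≤ C * (n : ℝ) ^ ε := by
  obtain ⟨C, hC, h⟩ := Pool.Agent.H82.RO.four_pow_le ε hε
  refine ⟨C, hC, fun n hn => ?_⟩
  refine (h n.primeFactors fun p hp => Nat.prime_of_mem_primeFactors hp).trans ?_
  refine mul_le_mul_of_nonneg_left ?_ hC.le
  have hn0 : (0 : ℝ) < n := by exact_mod_cast hn
  rw [Real.rpow_def_of_pos hn0, Real.exp_le_exp, mul_comm]
  refine mul_le_mul_of_nonneg_right ?_ hε.le
  rw [← Real.log_prod (fun p hp => by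
    exact_mod_cast (Nat.prime_of_mem_primeFactors hp).ne_zero)]
  apply Real.log_le_log
  · exact prod_pos fun p hp => by exact_mod_cast (Nat.prime_of_mem_primeFactors hp).pos
  · have h1 : ∏ p ∈ n.primeFactors, p ≤ n := Nat.le_of_dvd hn (Nat.prod_primeFactors_dvd n)
    have h2 : ((∏ p ∈ n.primeFactors, p : ℕ) : ℝ) ≤ n := by exact_mod_cast h1
    push_cast at h2
    exact h2

/-- the sum over the twists -/
theorem sum_g (z : ℕ) (hz : 8 ≤ z) : ∃ C : ℝ, 0 ≤ C ∧ ∀ X : ℕ,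
    ∑ g ∈ Icc 1 X, (4 : ℝ) ^ g.primeFactors.card * hf z g / (g : ℝ) ^ 2 ≤ C := by
  obtain ⟨C, hC, h⟩ := four_pow_nat (1 / 4) (by norm_num)
  have hsum : Summable (fun n : ℕ => 1 / (n : ℝ) ^ (3 / 2 : ℝ)) :=
    Real.summable_one_div_nat_rpow.2 (by norm_num)
  refine ⟨C ^ 2 * ∑' n : ℕ, 1 / (n : ℝ) ^ (3 / 2 : ℝ), ?_, fun X => ?_⟩
  · exact mul_nonneg (by positivity) (tsum_nonneg fun n => by positivity)
  have h1 : ∀ g ∈ Icc 1 X, (4 : ℝ) ^ g.primeFactors.card * hf z g / (g : ℝ) ^ 2 ≤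
      C ^ 2 * (1 / (g : ℝ) ^ (3 / 2 : ℝ)) := by
    intro g hg
    have hg1 := (mem_Icc.1 hg).1
    have hg0 : (0 : ℝ) < g := by exact_mod_cast hg1
    have h2 := h g (by omega)
    have h3 : (4 : ℝ) ^ g.primeFactors.card * hf z g ≤ C ^ 2 * (g : ℝ) ^ (1 / 2 : ℝ) := by
      calc (4 : ℝ) ^ g.primeFactors.card * hf z g
          ≤ 4 ^ g.primeFactors.card * 4 ^ g.primeFactors.card :=
            mul_le_mul_of_nonneg_left (hf_le hz g) (by positivity)
        _ ≤ (C * (g : ℝ) ^ (1 / 4 : ℝ)) * (C * (g : ℝ) ^ (1 / 4 : ℝ)) :=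
            mul_le_mul h2 h2 (by positivity) (by positivity)
        _ = C ^ 2 * ((g : ℝ) ^ (1 / 4 : ℝ) * (g : ℝ) ^ (1 / 4 : ℝ)) := by ring
        _ = _ := by
            rw [← Real.rpow_add hg0]
            norm_num
    rw [div_le_iff₀ (by positivity)]
    refine h3.trans (le_of_eq ?_)
    have e : (g : ℝ) ^ 2 = (g : ℝ) ^ (3 / 2 : ℝ) * (g : ℝ) ^ (1 / 2 : ℝ) := by
      rw [← Real.rpow_natCast, ← Real.rpow_add hg0]
      norm_num
    rw [e]
    have : (g : ℝ) ^ (3 / 2 : ℝ) ≠ 0 := (Real.rpow_pos_of_pos hg0 _).ne'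
    field_simp
  refine (sum_le_sum h1).trans ?_
  rw [← mul_sum]
  exact mul_le_mul_of_nonneg_left (hsum.sum_le_tsum _ (fun n _ => by positivity)) (by positivity)

end Pool.Agent.H82.FT
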