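import Pool.Agent.W762.RK2.EXP4b
import Pool.Agent.W262.RK.MA

/-!
# The local conditions of the three forms with averaged signs, and their expansion into symbols
-/

set_option autoImplicit false

namespace Pool.Agent.H82.FT

open Finset Pool.Agent.W262.RK Pool.Agent.W108.RK Pool.Agent.W762.RK2

/-- the local condition at a prime that divides the form `j`, with the sign `e` -/
def LE (j : Fin 3) (e v w h g : Bool) : Prop :=
  if j = 0 then v = w ∧ xor h g = (v && e)
  else if j = 1 then w = false ∧ g = (v && e)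
  else v = false ∧ h = (w && e)

instance (j : Fin 3) (e v w h g : Bool) : Decidable (LE j e v w h g) := by
  unfold LE
  infer_instance

/-- the local conditions for the tuple `s`; `E` is the set of the primes with a negative sign -/
def LLe (s : Fin 3 → ℕ) (E : Finset ℕ) (p : ℕ) (v w h g : Bool) : Prop :=
  ∀ j, p ∣ s j → LE j (decide (p ∈ E)) v w h g

/-- the average over the signs -/
noncomputable def GG (s : Fin 3 → ℕ) : ℝ :=
  (1 / 2) ^ (∏ j, s j).primeFactors.card *
    ∑ E ∈ (∏ j, s j).primeFactors.powerset, (NL (∏ j, s j) (LLe s E) : ℝ)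

/-- the direction of an index: type `0` is chosen -/
def vv (i : Fin 3 × Fin 3) : Bool × Bool := if i.2 = 0 then ec i.1.castSucc else (false, false)

/-- the character of an index: type `2` has a symbol -/
def xx (i : Fin 3 × Fin 3) : Bool × Bool :=
  if i.2 = 2 then (ec i.1.castSucc).swap else (false, false)

/-- the symbols that occur -/
def L9 (i i' : Fin 3 × Fin 3) : Bool :=
  xor ((xx i').1 && (vv i).1) ((xx i').2 && (vv i).2)

lemma loc_id3 (j : Fin 3) (v : Bool × Bool) (h g : Bool) :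
    (ind (LE j true v.1 v.2 h g) + ind (LE j false v.1 v.2 h g)) / 2 =
      ∑ t : Fin 3, if vv (j, t) = v then
        1 / 2 * ((if (xx (j, t)).1 = true then sg h else 1) *
          (if (xx (j, t)).2 = true then sg g else 1)) else 0 := by
  obtain ⟨v1, v2⟩ := v
  rw [Fin.sum_univ_three]
  fin_cases j <;> cases v1 <;> cases v2 <;> cases h <;> cases g <;>
    simp [vv, xx, ec, LE, ind, sg] <;> norm_num

section average

variable {z y : ℕ}

/-- the local indicator -/
noncomputable def Ie (s : Fin 3 → ℕ) (d : ℕ × ℕ) (e : Bool) (p : ℕ) : ℝ :=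
  ind (∀ j, p ∣ s j → LE j e (dv p d.1) (dv p d.2) (sgn p d.1) (sgn p d.2))

lemma GG_eq (s : Fin 3 → ℕ) :
    GG s = ∑ d ∈ (∏ j, s j).divisors ×ˢ (∏ j, s j).divisors,
      ∏ p ∈ (∏ j, s j).primeFactors, (Ie s d true p + Ie s d false p) / 2 := by
  classical
  have h1 : ∀ E : Finset ℕ, (NL (∏ j, s j) (LLe s E) : ℝ) =
      ∑ d ∈ (∏ j, s j).divisors ×ˢ (∏ j, s j).divisors,
        ∏ p ∈ (∏ j, s j).primeFactors, Ie s d (decide (p ∈ E)) p := by
    intro E
    unfold NL
    rw [Finset.card_filter]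
    push_cast
    refine Finset.sum_congr rfl fun d _ => ?_
    unfold Ie
    rw [prod_ind]
    unfold ind LLe
    congr
  unfold GG
  rw [Finset.sum_congr rfl fun E _ => h1 E, Finset.sum_comm, Finset.mul_sum]
  refine Finset.sum_congr rfl fun d _ => ?_
  exact avg (∏ j, s j).primeFactors (∏ j, s j).primeFactors (Finset.Subset.refl _) (Ie s d)
    (fun p h1 h2 => absurd h1 h2)

end average

section final

variable {z y : ℕ}

/-- the local term -/
noncomputable def Tm (c : ℕ) (ξ : Pr z y → Option (Fin 3 × (Bool × Bool))) (p : Pr z y) : ℝ :=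
  (ξ p).elim 1 fun a => 1 / ((p : ℝ) - c) * ((ind (LE a.1 true a.2.1 a.2.2
    (sgn p (D1 ξ)) (sgn p (D2 ξ))) + ind (LE a.1 false a.2.1 a.2.2
    (sgn p (D1 ξ)) (sgn p (D2 ξ)))) / 2)

lemma lhs_eq (c : ℕ) :
    ∑ s ∈ Tup (Fin 3) z y, GG s * ∏ j, gw 1 c (s j) =
      ∑ ξ : Pr z y → Option (Fin 3 × (Bool × Bool)), ∏ p, Tm c ξ p := by
  have h1 : ∀ s ∈ Tup (Fin 3) z y, GG s * ∏ j, gw 1 c (s j) =
      ∑ d ∈ (∏ j, s j).divisors ×ˢ (∏ j, s j).divisors,
        (∏ p ∈ (∏ j, s j).primeFactors, (Ie s d true p + Ie s d false p) / 2) *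
          ∏ j, gw 1 c (s j) := by
    intro s hs
    rw [GG_eq, Finset.sum_mul]
  rw [Finset.sum_congr rfl h1, sum_big fun s d =>
    (∏ p ∈ (∏ j, s j).primeFactors, (Ie s d true p + Ie s d false p) / 2) *
          ∏ j, gw 1 c (s j)]
  refine Finset.sum_congr rfl fun ξ _ => ?_
  have h2 : ∏ j, gw 1 c (SS ξ j) = ∏ p : Pr z y, ((ξ p).map Prod.fst).elim 1
      fun _ => 1 / ((p : ℝ) - c) := prod_gw (fun _ => 1) c _
  have h3 : ∏ j, SS ξ j = nb fun p => ((ξ p).map Prod.fst).isSome := prod_Dl _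
  rw [h2, h3, prod_pf _ fun p => (Ie (SS ξ) (D1 ξ, D2 ξ) true p +
    Ie (SS ξ) (D1 ξ, D2 ξ) false p) / 2, ← Finset.prod_mul_distrib]
  refine Finset.prod_congr rfl fun p _ => ?_
  unfold Tm
  cases hx : ξ p with
  | none => simp
  | some a =>
    have h4 : ∀ neg, Ie (SS ξ) (D1 ξ, D2 ξ) neg p =
        ind (LE a.1 neg a.2.1 a.2.2 (sgn p (D1 ξ)) (sgn p (D2 ξ))) := by
      intro neg
      unfold Ie
      have e1 : dv p (D1 ξ : ℤ) = a.2.1 := by
        have : b1 (ξ p) = a.2.1 := by rw [hx]; rfl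
        rw [← this]
        unfold dv
        rw [Bool.eq_iff_iff, decide_eq_true_iff, Int.natCast_dvd_natCast]
        exact dvd_nb _ p
      have e2 : dv p (D2 ξ : ℤ) = a.2.2 := by
        have : b2 (ξ p) = a.2.2 := by rw [hx]; rfl
        rw [← this]
        unfold dv
        rw [Bool.eq_iff_iff, decide_eq_true_iff, Int.natCast_dvd_natCast]
        exact dvd_nb _ p
      have e3 : ∀ j, (p : ℕ) ∣ SS ξ j ↔ j = a.1 := by
        intro j
        unfold SS Dl
        rw [dvd_nb, decide_eq_true_iff]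
        show (ξ p).map Prod.fst = some j ↔ j = a.1
        rw [hx]
        simp [eq_comm]
      congr 1
      simp only [e1, e2, e3, forall_eq]
    simp only [h4]
    simp only [Option.map_some, Option.isSome_some, if_true, Option.elim]
    ring

/-- forget the character -/
def fg (x : Option (Fin 3 × Fin 3)) : Option (Fin 3 × (Bool × Bool)) :=
  x.map fun i => (i.1, vv i)

/-- the local factor -/
noncomputable def Gf (c : ℕ) (ξ : Pr z y → Option (Fin 3 × (Bool × Bool))) (p : Pr z y)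
    (x : Option (Fin 3 × Fin 3)) : ℝ :=
  x.elim 1 fun i => 1 / ((p : ℝ) - c) * (1 / 2 *
    ((if (xx i).1 = true then sg (sgn p (D1 ξ)) else 1) *
      (if (xx i).2 = true then sg (sgn p (D2 ξ)) else 1)))

lemma sum_Gf (c : ℕ) (ξ : Pr z y → Option (Fin 3 × (Bool × Bool))) (p : Pr z y) :
    ∑ x ∈ univ.filter (fun x : Option (Fin 3 × Fin 3) => fg x = ξ p), Gf c ξ p x =
      Tm c ξ p := by
  rw [Finset.sum_filter, Fintype.sum_option]
  unfold Tm
  cases hx : ξ p with
  | none => simp [fg, Gf]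
  | some a =>
    obtain ⟨j, v⟩ := a
    have h0 : (if fg (none : Option (Fin 3 × Fin 3)) = some (j, v) then Gf c ξ p none else 0) =
        0 := by
      rw [if_neg]
      simp [fg]
    rw [h0, zero_add]
    have h1 : ∀ i : Fin 3 × Fin 3, (if fg (some i) = some (j, v) then Gf c ξ p (some i) else 0) =
        if i.1 = j ∧ vv i = v then 1 / ((p : ℝ) - c) * (1 / 2 *
            ((if (xx i).1 = true then sg (sgn p (D1 ξ)) else 1) *
            (if (xx i).2 = true then sg (sgn p (D2 ξ)) else 1))) else 0 := by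
      intro i
      refine if_congr ?_ rfl rfl
      simp only [fg, Option.map_some, Option.some.injEq, Prod.mk.injEq]
    refine (Finset.sum_congr rfl fun i _ => h1 i).trans ?_
    rw [Fintype.sum_prod_type, Finset.sum_eq_single j]
    · show _ = 1 / ((p : ℝ) - c) * _
      rw [loc_id3 j v, Finset.mul_sum]
      refine Finset.sum_congr rfl fun x _ => ?_
      simp only [true_and, mul_ite, mul_zero]
    · intro j' _ hj'
      refine Finset.sum_eq_zero fun x _ => ?_
      simp [hj']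
    · intro h
      exact absurd (Finset.mem_univ _) h

lemma orth : ∀ i : Fin 3 × Fin 3, xor ((xx i).1 && (vv i).1) ((xx i).2 && (vv i).2) = false := by
  decide

lemma rhs_term (c : ℕ) (ξ : Pr z y → Option (Fin 3 × (Bool × Bool)))
    (l : Pr z y → Option (Fin 3 × Fin 3)) (h : ∀ p, fg (l p) = ξ p) :
    (∏ i, gw (1 / 2) c (Dl l i)) * Pool.Agent.W262.RK.Sym L9 (fun _ => 1) (Dl l) =
      ∏ p, Gf c ξ p (l p) := by
  rw [prod_gw (fun _ => 1 / 2), Sym_Dl, ← Finset.prod_mul_distrib, ← Finset.prod_mul_distrib]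
  refine Finset.prod_congr rfl fun p _ => ?_
  cases hl : l p with
  | none =>
    have h0 : ∀ q, lk L9 (l q) none = false := by
      intro q
      cases l q <;> rfl
    simp [h0, Gf]
  | some i =>
    have hAl := orth i
    have h1 : ∀ q, lk L9 (l q) (some i) =
        xor ((xx i).1 && b1 (ξ q)) ((xx i).2 && b2 (ξ q)) := by
      intro q
      rw [← h q]
      cases hq : l q with
      | none => simp [Pool.Agent.W762.RK2.lk, fg, b1, b2]
      | some i' => rfl
    have h2 : ∏ q : Pr z y, (if lk L9 (l q) (some i) = true then Jr (q : ℕ) p else 1) =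
        ((if (xx i).1 = true then sg (sgn p (D1 ξ)) else 1) *
      (if (xx i).2 = true then sg (sgn p (D2 ξ)) else 1)) := by
      have h3 : ∀ a : Bool, ∀ b : Pr z y → Bool, (if a = true then sg (sgn p (nb b : ℤ)) else 1) =
          ∏ q : Pr z y, if a = true then (if q ≠ p ∧ b q = true then Jr (q : ℕ) p else 1)
            else 1 := by
        intro a b
        cases a
        · simp
        · simp only [if_true]
          exact sgn_nb b p
      unfold D1 D2
      rw [h3, h3, ← Finset.prod_mul_distrib]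
      refine Finset.prod_congr rfl fun q _ => ?_
      rw [h1]
      refine bits_eq q p _ _ _ _ fun hqp => ?_
      rw [hqp, ← h p, hl]
      exact hAl
    rw [h2]
    simp only [Gf, Option.elim, Jr_one_left]
    ring

end final

theorem exp_id3 (c z y : ℕ) :
    ∑ s ∈ Tup (Fin 3) z y, GG s * ∏ j, gw 1 c (s j) =
      ∑ d ∈ Tup (Fin 3 × Fin 3) z y, (∏ i, gw (1 / 2) c (d i)) *
        Pool.Agent.W262.RK.Sym L9 (fun _ => 1) d := by
  classical
  rw [lhs_eq, sum_Tup, ← Finset.sum_fiberwise univ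
    (fun (l : Pr z y → Option (Fin 3 × Fin 3)) => fun p => fg (l p))]
  refine Finset.sum_congr rfl fun ξ _ => ?_
  have h1 : (univ.filter fun l : Pr z y → Option (Fin 3 × Fin 3) => (fun p => fg (l p)) = ξ) =
      Fintype.piFinset (fun p => univ.filter (fun x : Option (Fin 3 × Fin 3) => fg x = ξ p)) := by
    ext l
    simp only [Finset.mem_filter, Finset.mem_univ, true_and, Fintype.mem_piFinset, funext_iff]
  rw [h1, Finset.prod_congr rfl fun p _ => (sum_Gf c ξ p).symm, Finset.prod_univ_sum]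
  refine Finset.sum_congr rfl fun l hl => ?_
  rw [Fintype.mem_piFinset] at hl
  exact (rhs_term c ξ l fun p => (Finset.mem_filter.1 (hl p)).2).symm

lemma L9_irr : ∀ i, L9 i i = false := by decide

lemma L9_pair : ∀ j l : Fin 3, j ≠ l → L9 (j, 0) (l, 2) ≠ L9 (l, 2) (j, 0) := by decide

lemma comb9 (U : Finset (Fin 3 × Fin 3)) (hU : ∀ i ∈ U, ∀ j ∈ U, L9 i j = L9 j i) :
    U.card ≤ 6 := by
  classical
  have h : ∀ j l : Fin 3, j ≠ l → ¬ ((j, 0) ∈ U ∧ (l, 2) ∈ U) := fun j l hjl hh =>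
    L9_pair j l hjl (hU _ hh.1 _ hh.2)
  -- three disjoint pairs of which one member is missing
  obtain ⟨a, ha, ha'⟩ : ∃ a : Fin 3 × Fin 3, a ∉ U ∧ (a = (0, 0) ∨ a = (1, 2)) := by
    by_cases h1 : ((0 : Fin 3), (0 : Fin 3)) ∈ U
    · exact ⟨(1, 2), fun h2 => h 0 1 (by decide) ⟨h1, h2⟩, Or.inr rfl⟩
    · exact ⟨(0, 0), h1, Or.inl rfl⟩
  obtain ⟨b, hb, hb'⟩ : ∃ a : Fin 3 × Fin 3, a ∉ U ∧ (a = (1, 0) ∨ a = (2, 2)) := by
    by_cases h1 : ((1 : Fin 3), (0 : Fin 3)) ∈ U
    · exact ⟨(2, 2), fun h2 => h 1 2 (by decide) ⟨h1, h2⟩, Or.inr rfl⟩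
    · exact ⟨(1, 0), h1, Or.inl rfl⟩
  obtain ⟨e, he, he'⟩ : ∃ a : Fin 3 × Fin 3, a ∉ U ∧ (a = (2, 0) ∨ a = (0, 2)) := by
    by_cases h1 : ((2 : Fin 3), (0 : Fin 3)) ∈ U
    · exact ⟨(0, 2), fun h2 => h 2 0 (by decide) ⟨h1, h2⟩, Or.inr rfl⟩
    · exact ⟨(2, 0), h1, Or.inl rfl⟩
  have hsub : ({a, b, e} : Finset (Fin 3 × Fin 3)) ⊆ Uᶜ := by
    intro x hx
    rw [mem_insert, mem_insert, mem_singleton] at hx
    rw [mem_compl]
    rcases hx with rfl | rfl | rfl
    · exact ha
    · exact hb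
    · exact he
  have hcard : ({a, b, e} : Finset (Fin 3 × Fin 3)).card = 3 := by
    rcases ha' with rfl | rfl <;> rcases hb' with rfl | rfl <;> rcases he' with rfl | rfl <;> decide
  have h2 := card_le_card hsub
  rw [card_compl, hcard] at h2
  have h3 : Fintype.card (Fin 3 × Fin 3) = 9 := by simp
  omega

/-- **The average of the local count.** -/
theorem avgG (c : ℕ) : ∃ z0 : ℕ, ∀ z, z0 ≤ z → ∃ C : ℝ, ∀ y, z < y →
    ∑ s ∈ Tup (Fin 3) z y, GG s * ∏ j, gw 1 c (s j) ≤ C * (Real.log y) ^ 3 := by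
  obtain ⟨z0, hz0⟩ := at_thm (Fin 3 × Fin 3) (fun _ => 1 / 2) L9 (fun _ => 1) c 3
    (fun _ => by norm_num) L9_irr (fun _ => one_ne_zero) (fun U hU => by
      have h := comb9 U hU
      rw [sum_const, nsmul_eq_mul]
      have h2 : (U.card : ℝ) ≤ 6 := by exact_mod_cast h
      linarith)
  refine ⟨z0, fun z hz => ?_⟩
  obtain ⟨C, hC⟩ := hz0 z hz
  refine ⟨C, fun y hy => ?_⟩
  rw [exp_id3]
  refine (le_abs_self _).trans ((hC y hy).trans (le_of_eq ?_))
  norm_cast

end Pool.Agent.H82.FT
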