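import Pool.Agent.H82.FT.Pairs
import Pool.Agent.H82.RO.Inst
import Pool.Agent.Y679.Jl.Tb
import Pool.Agent.Y679.Fin2
import Pool.Agent.R417.PI.Low
import Pool.Agent.H39R3.Model
import Pool.Agent.W376.RTL.Pts
import Pool.Agent.W605.RT.PAR4
import Pool.Agent.W261.RT.Iso

/-!
# The curves with full rational two-torsion, and the pairs of positive integers
-/

set_option autoImplicit false

namespace Pool.Agent.H82.FT

open Finset Pool.Agent.W262.RK Pool.Agent.W307.RT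
open Pool.Agent.H82.RO (Fam Dsc Cond6 Hgt W Mn)
open Pool.Agent.H925R.Szpiro (D IsMin FullS condS)
open Pool.Agent.Y679.Par (Gd mo mid g6)
open Pool.Agent.TH498.AR (nn)

/-- two points of order two come from three rational roots -/
theorem hasT2_iff {A B : ℤ} (hD : 4 * A ^ 3 + 27 * B ^ 2 ≠ 0) :
    HasT 2 (Sh A B) ↔ FullS (-A) (-B) := by
  constructor
  · rintro ⟨P, Q, hP, hQ, hQP⟩
    obtain ⟨e1, h1, hP'⟩ := Pool.Agent.W605.RT.two_tors hP
    obtain ⟨e2, h2, hQ'⟩ := Pool.Agent.W605.RT.two_tors hQ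
    have hne : e1 ≠ e2 := by
      intro h
      subst h
      apply hQP
      rw [hQ', ← hP']
      exact AddSubgroup.mem_zmultiples P
    have r1 := Pool.Agent.W605.RT.sh_eq.mp h1.1
    have r2 := Pool.Agent.W605.RT.sh_eq.mp h2.1
    have r1' : e1 ^ 3 + A * e1 + B = 0 := by linarith
    have r2' : e2 ^ 3 + A * e2 + B = 0 := by linarith
    have hA : (A : ℚ) = -(e1 ^ 2 + e1 * e2 + e2 ^ 2) := by
      have h : (e1 - e2) * (e1 ^ 2 + e1 * e2 + e2 ^ 2 + A) = 0 := by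
        linear_combination r1' - r2'
      rcases mul_eq_zero.1 h with h | h
      · exact absurd (sub_eq_zero.1 h) hne
      · linarith
    have hB : (B : ℚ) = e1 * e2 * (e1 + e2) := by
      have : (B : ℚ) = -e1 ^ 3 - A * e1 := by linarith
      rw [this, hA]
      ring
    refine ⟨e1, e2, -(e1 + e2), fun x => ?_⟩
    push_cast
    rw [hA, hB]
    ring
  · rintro ⟨r1, r2, r3, hr⟩
    have h0 := hr 0
    have h1 := hr 1
    have h2 := hr (-1)
    push_cast at h0 h1 h2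
    have c0 : -(B : ℚ) = r1 * r2 * r3 := by linear_combination -h0
    have c2 : r1 + r2 + r3 = 0 := by linear_combination (h1 + h2) / 2 - h0
    have c1 : -(A : ℚ) = -(r1 * r2 + r1 * r3 + r2 * r3) := by
      linear_combination -(h1 - h2) / 2
    have hr3 : r3 = -(r1 + r2) := by linarith
    subst hr3
    have hA : (A : ℚ) = -(r1 ^ 2 + r1 * r2 + r2 ^ 2) := by linear_combination -c1
    have hB : (B : ℚ) = r1 * r2 * (r1 + r2) := by linear_combination -c0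
    have hdisc : ((4 * A ^ 3 + 27 * B ^ 2 : ℤ) : ℚ) =
        -((r1 - r2) * (2 * r1 + r2) * (r1 + 2 * r2)) ^ 2 := by
      push_cast
      rw [hA, hB]
      ring
    have hne : (r1 - r2) * (2 * r1 + r2) * (r1 + 2 * r2) ≠ 0 := by
      intro h
      apply hD
      rw [h] at hdisc
      have : ((4 * A ^ 3 + 27 * B ^ 2 : ℤ) : ℚ) = 0 := by rw [hdisc]; ring
      exact_mod_cast this
    have n1 : r1 - r2 ≠ 0 := fun h => hne (by rw [h]; ring)
    have n2 : 2 * r1 + r2 ≠ 0 := fun h => hne (by rw [h]; ring)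
    have n3 : r1 + 2 * r2 ≠ 0 := fun h => hne (by rw [h]; ring)
    have s1 : (Sh A B).toAffine.Nonsingular r1 0 := by
      rw [WeierstrassCurve.Affine.nonsingular_iff]
      refine ⟨Pool.Agent.W605.RT.sh_eq.2 (by rw [hA, hB]; ring), Or.inl ?_⟩
      simp only [Sh]
      rw [hA]
      intro h
      have : (r1 - r2) * (2 * r1 + r2) = 0 := by linear_combination -h
      exact (mul_ne_zero n1 n2) this
    have s2 : (Sh A B).toAffine.Nonsingular r2 0 := by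
      rw [WeierstrassCurve.Affine.nonsingular_iff]
      refine ⟨Pool.Agent.W605.RT.sh_eq.2 (by rw [hA, hB]; ring), Or.inl ?_⟩
      simp only [Sh]
      rw [hA]
      intro h
      have : (r1 - r2) * (r1 + 2 * r2) = 0 := by linear_combination h
      exact (mul_ne_zero n1 n3) this
    have o1 := Pool.Agent.W376.RTL.two_tors s1
    have o2 := Pool.Agent.W376.RTL.two_tors s2
    refine ⟨_, _, o1, o2, ?_⟩
    intro hmem
    obtain ⟨k, hk⟩ := AddSubgroup.mem_zmultiples_iff.1 hmem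
    obtain ⟨P, hP⟩ : ∃ P, P = WeierstrassCurve.Affine.Point.some r1 0 s1 := ⟨_, rfl⟩
    rw [← hP] at hk o1
    have hPP : P + P = 0 := by
      have := addOrderOf_nsmul_eq_zero P
      rw [o1, two_nsmul] at this
      exact this
    rcases Int.even_or_odd k with ⟨i, hi⟩ | ⟨i, hi⟩
    · have h3 : k • P = 0 := by
        rw [hi, ← two_mul, mul_comm, mul_zsmul, two_zsmul, hPP, zsmul_zero]
      rw [h3] at hk
      exact WeierstrassCurve.Affine.Point.some_ne_zero s2 hk.symm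
    · have h3 : k • P = P := by
        rw [hi, add_zsmul, one_zsmul, mul_comm, mul_zsmul, two_zsmul, hPP, zsmul_zero, zero_add]
      rw [h3, hP, WeierstrassCurve.Affine.Point.some.injEq] at hk
      exact n1 (sub_eq_zero.2 hk.1)

theorem D_neg (A B : ℤ) : D (-A) (-B) = -(4 * A ^ 3 + 27 * B ^ 2) := by
  unfold D
  ring

theorem min_iff (A B : ℤ) : (4 * A ^ 3 + 27 * B ^ 2 ≠ 0 ∧ Mn A B) ↔ IsMin (-A) (-B) := by
  constructor
  · rintro ⟨hD, hM⟩
    refine Pool.Agent.R417.PI.isMin_of (by rw [D_neg]; exact neg_ne_zero.2 hD) fun p hp h4 h6 => ?_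
    exact hM p hp ⟨(dvd_neg).1 h4, (dvd_neg).1 h6⟩
  · intro h
    refine ⟨fun h0 => h.1 (by rw [D_neg, h0, neg_zero]), fun p hp hc => ?_⟩
    exact Pool.Agent.H39R3.isMin_prime h p hp.two_le ((dvd_neg).2 hc.1) ((dvd_neg).2 hc.2)

theorem fam2_iff (c : ℤ × ℤ) : c ∈ Fam 2 ↔ IsMin (-c.1) (-c.2) ∧ FullS (-c.1) (-c.2) := by
  constructor
  · rintro ⟨h1, h2, h3⟩
    exact ⟨(min_iff _ _).1 ⟨h1, h2⟩, (hasT2_iff h1).1 h3⟩
  · rintro ⟨h1, h2⟩
    obtain ⟨h3, h4⟩ := (min_iff _ _).2 h1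
    exact ⟨h3, h4, (hasT2_iff h3).2 h2⟩

/-- the curve of a pair -/
def cv (p : ℕ × ℕ) : ℤ × ℤ := (-(mo p).1, -(mo p).2)

theorem cv_mem {p : ℕ × ℕ} (hp : Gd p) : cv p ∈ Fam 2 := by
  rw [fam2_iff]
  unfold cv
  simp only [neg_neg]
  exact ⟨Pool.Agent.Y679.Par.mo_min hp, Pool.Agent.Y679.Par.mo_full hp.2.2.1⟩

theorem cv_surj {c : ℤ × ℤ} (hc : c ∈ Fam 2) : ∃ p, Gd p ∧ cv p = c := by
  obtain ⟨h1, h2⟩ := (fam2_iff c).1 hc
  obtain ⟨p, hp, he⟩ := Pool.Agent.Y679.Par.mo_surj h1 h2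
  refine ⟨p, hp, ?_⟩
  unfold cv
  rw [he]
  simp

theorem cv_inj {p p' : ℕ × ℕ} (h : Gd p) (h' : Gd p') (he : cv p = cv p') : p = p' := by
  refine Pool.Agent.Y679.Par.mo_inj h h' ?_
  unfold cv at he
  simp only [Prod.mk.injEq, neg_inj] at he
  exact Prod.ext he.1 he.2

theorem dsc_cv {p : ℕ × ℕ} (hp : Gd p) : Dsc (cv p) = nn p ^ 2 := by
  have h := Pool.Agent.Y679.Par.mo_D hp.2.2.1
  unfold D at h
  unfold Dsc cv
  simp only
  have e : 4 * (-(mo p).1) ^ 3 + 27 * (-(mo p).2) ^ 2 = -((nn p : ℤ) ^ 2) := by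
    rw [← h]
    ring
  rw [e, Int.natAbs_neg, Int.natAbs_pow, Int.natAbs_natCast]

theorem cond_cv {p : ℕ × ℕ} (hp : Gd p) : Cond6 (cv p) = g6 p := by
  rw [← Pool.Agent.Y679.Par.mo_cond hp]
  unfold Cond6 condS
  have e : Dsc (cv p) = (D (mo p).1 (mo p).2).natAbs := by
    rw [dsc_cv hp, Pool.Agent.Y679.Par.mo_D hp.2.2.1, Int.natAbs_pow, Int.natAbs_natCast]
  rw [e]
  refine prod_congr rfl fun q _ => ?_
  unfold cv
  simp only [dvd_neg]

theorem hgt_cv {p : ℕ × ℕ} (hp : Gd p) :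
    27 * Hgt (cv p) = 4 * (p.1 ^ 2 + p.1 * p.2 + p.2 ^ 2) ^ 3 := by
  have h := Pool.Agent.Y679.Jl.mo_H hp
  have e : ((Hgt (cv p) : ℕ) : ℤ) = Pool.Agent.Y679.Jl.Hh (mo p) := by
    unfold Hgt Pool.Agent.Y679.Jl.Hh cv
    simp only [Int.natAbs_neg]
    rw [Nat.cast_max]
    congr 1
    · push_cast
      ring
    · push_cast
      rw [sq_abs]
  rw [← e] at h
  exact_mod_cast h

theorem rank_cv {p : ℕ × ℕ} (hp : Gd p) :
    Module.finrank ℤ (Sh (cv p).1 (cv p).2).toAffine.Point = rab p.swap := by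
  have hm := Pool.Agent.Y679.Par.mid_eq hp.2.2.1
  have hp1 : (p.1 : ℤ) = 3 * mid p + p.2 := by linarith
  obtain ⟨e⟩ := Pool.Agent.W261.RT.iso 0 ((cv p).1 : ℚ) ((cv p).2 : ℚ) (mid p : ℚ) 1 one_ne_zero
  have e1 : (⟨0, ((0 : ℚ) + 3 * (mid p : ℚ)) / 1 ^ 2, 0,
      (((cv p).1 : ℚ) + 2 * (mid p : ℚ) * 0 + 3 * (mid p : ℚ) ^ 2) / 1 ^ 4,
      (((cv p).2 : ℚ) + (mid p : ℚ) * ((cv p).1 : ℚ) + (mid p : ℚ) ^ 2 * 0 + (mid p : ℚ) ^ 3) / 1 ^ 6⟩ :
      WeierstrassCurve ℚ) = EAB (p.2 : ℤ) (-(p.1 : ℤ)) := by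
    unfold EAB
    have hq : (p.1 : ℚ) = 3 * (mid p : ℚ) + p.2 := by exact_mod_cast hp1
    congr 1
    · push_cast
      rw [hq]
      ring
    · unfold cv mo
      push_cast
      rw [hq]
      ring
    · unfold cv mo
      push_cast
      rw [hq]
      ring
  rw [e1] at e
  unfold rab
  exact LinearEquiv.finrank_eq e.toIntLinearEquiv

end Pool.Agent.H82.FT
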