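import Pool.Agent.H82.FT.Cnt
import Pool.Agent.W45.RT.ANT
import Pool.Agent.W405.RK2.RS
import Pool.Agent.W591.RK2.RVRU
import Pool.Agent.W358.RK2.GR

/-!
# The average of `2 ^ rank` over all curves `y² = x (x - a) (x + b)`: the main part
-/

set_option autoImplicit false

namespace Pool.Agent.H82.FT

open Finset Pool.Agent.W262.RK Pool.Agent.W307.RT
open Pool.Agent.W372.RK2 (mj)
open Pool.Agent.W29.RT (c0 G2)

lemma ex_prt (g : ℕ) : ∀ n : ℕ, n ≠ 0 → ∃ a : ℕ, a ≠ 0 ∧ a ≤ n ∧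
    (∀ p : ℕ, p.Prime → ¬ p ∣ g → ∀ k, p ^ k ∣ a ↔ p ^ k ∣ n) ∧
    ∀ p : ℕ, p.Prime → p ∣ g → ¬ p ∣ a := by
  intro n
  induction n using Nat.strong_induction_on with
  | _ n ih =>
    intro hn
    by_cases h : ∃ p : ℕ, p.Prime ∧ p ∣ g ∧ p ∣ n
    · obtain ⟨p, hp, hpg, m, hm⟩ := h
      have hm0 : m ≠ 0 := fun h => hn (by rw [hm, h, mul_zero])
      have hmn : m < n := by
        rw [hm]
        have := hp.two_le
        nlinarith [Nat.pos_of_ne_zero hm0]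
      obtain ⟨a, ha, han, h1, h2⟩ := ih m hmn hm0
      refine ⟨a, ha, by omega, fun q hq hqg k => ?_, h2⟩
      rw [h1 q hq hqg k, hm]
      have hc : (q ^ k).Coprime p := by
        apply Nat.Coprime.pow_left
        rw [Nat.coprime_primes hq hp]
        rintro rfl
        exact hqg hpg
      exact (hc.dvd_mul_left).symm
    · push Not at h
      exact ⟨n, hn, le_rfl, fun _ _ _ _ => Iff.rfl, fun p hp hpg => h p hp hpg⟩

/-- the part of `n` prime to `g` -/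
noncomputable def prt (g n : ℕ) : ℕ := if h : n ≠ 0 then (ex_prt g n h).choose else 1

lemma prt_spec (g : ℕ) {n : ℕ} (hn : n ≠ 0) : prt g n ≠ 0 ∧ prt g n ≤ n ∧
    (∀ p : ℕ, p.Prime → ¬ p ∣ g → ∀ k, p ^ k ∣ prt g n ↔ p ^ k ∣ n) ∧
    ∀ p : ℕ, p.Prime → p ∣ g → ¬ p ∣ prt g n := by
  unfold prt
  rw [dif_pos hn]
  exact (ex_prt g n hn).choose_spec

/-- the parts of the values prime to the twist -/
noncomputable def fF (ω : ℕ × (ℕ × ℕ)) (j : Fin 3) : ℤ :=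
  (prt ω.1 (fv α3 β3 (ω.2.1 : ℤ) (ω.2.2 : ℤ) j).natAbs : ℤ)

lemma fv_pos {u v : ℕ} (hu : 0 < u) (hv : 0 < v) (j : Fin 3) :
    0 < fv α3 β3 (u : ℤ) (v : ℤ) j := by
  rcases cases3 j with rfl | rfl | rfl
  · rw [fv30]; positivity
  · rw [fv31]; positivity
  · rw [fv32]; positivity

lemma fr_of (z : ℕ) {g u v : ℕ} (hu : 0 < u) (hv : 0 < v) :
    Fr z g (fv α3 β3 (u : ℤ) (v : ℤ)) (fF (g, (u, v))) := by
  have hne : ∀ j, (fv α3 β3 (u : ℤ) (v : ℤ) j).natAbs ≠ 0 := fun j =>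
    Int.natAbs_ne_zero.2 (fv_pos hu hv j).ne'
  refine ⟨fun j => ?_, fun j p hp hpg k => ?_, fun j p hp hpg h => ?_⟩
  · unfold fF
    exact_mod_cast (prt_spec g (hne j)).1
  · have h := (prt_spec g (hne j)).2.2.1 p hp hpg k
    have e1 : (p : ℤ) ^ k ∣ fF (g, (u, v)) j ↔
        p ^ k ∣ prt g (fv α3 β3 (u : ℤ) (v : ℤ) j).natAbs := by
      show (p : ℤ) ^ k ∣ (prt g (fv α3 β3 (u : ℤ) (v : ℤ) j).natAbs : ℤ) ↔ _
      rw [← Nat.cast_pow, Int.natCast_dvd_natCast]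
    rw [e1, h, ← Int.natCast_dvd, Nat.cast_pow]
  · refine (prt_spec g (hne j)).2.2.2 p hp hpg ?_
    have h' : (p : ℤ) ∣ (prt g (fv α3 β3 (u : ℤ) (v : ℤ) j).natAbs : ℤ) := h
    exact_mod_cast h'

/-- the points: twist, coprime pair -/
def TT (X : ℕ) : Finset (ℕ × (ℕ × ℕ)) :=
  ((Icc 1 X) ×ˢ ((Icc 1 (X ^ 2)) ×ˢ (Icc 1 (X ^ 2)))).filter
    (fun ω => ω.1 * ω.2.1 ≤ X ^ 2 ∧ ω.1 * ω.2.2 ≤ X ^ 2 ∧ ω.2.1.Coprime ω.2.2)

lemma mem_TT {X : ℕ} {ω : ℕ × (ℕ × ℕ)} : ω ∈ TT X ↔ (1 ≤ ω.1 ∧ ω.1 ≤ X) ∧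
    ((1 ≤ ω.2.1 ∧ ω.2.1 ≤ X ^ 2) ∧ (1 ≤ ω.2.2 ∧ ω.2.2 ≤ X ^ 2)) ∧
    (ω.1 * ω.2.1 ≤ X ^ 2 ∧ ω.1 * ω.2.2 ≤ X ^ 2 ∧ ω.2.1.Coprime ω.2.2) := by
  unfold TT
  rw [mem_filter, mem_product, mem_product, mem_Icc, mem_Icc, mem_Icc]
  tauto

/-- the rank at a point -/
noncomputable def rkp (ε : ℤ) (ω : ℕ × (ℕ × ℕ)) : ℕ :=
  Module.finrank ℤ (EAB (ε * ω.1 * ω.2.1) (-(ε * ω.1 * (ω.2.1 + ω.2.2)))).toAffine.Point

lemma gd_fF {z : ℕ} (hz : 8 ≤ z) {X : ℕ} {ω : ℕ × (ℕ × ℕ)} (hω : ω ∈ TT X) : Gd z (fF ω) := by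
  obtain ⟨g, u, v⟩ := ω
  obtain ⟨⟨hg, -⟩, ⟨⟨hu, -⟩, hv, -⟩, -, -, hc⟩ := mem_TT.1 hω
  have hf := fr_of z (g := g) (u := u) (v := v) (by exact hu) (by exact hv)
  refine ⟨hf.ne, fun p hp hzp j l hjl h => ?_⟩
  have hpg : ¬ p ∣ g := fun h' => hf.nd j p hp h' h.1
  have e1 : (p : ℤ) ∣ fv α3 β3 (u : ℤ) (v : ℤ) j := by
    simpa using (hf.iff j p hp hpg 1).1 (by simpa using h.1)
  have e2 : (p : ℤ) ∣ fv α3 β3 (u : ℤ) (v : ℤ) l := by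
    simpa using (hf.iff l p hp hpg 1).1 (by simpa using h.2)
  exact Pool.Agent.W571.RT.fv_not_dvd (bg3 hz) hp hzp (Nat.isCoprime_iff_coprime.2 hc) hjl e1 e2

/-- **The average of `2 ^ rank` over the points.** -/
theorem mom_pts {ε : ℤ} (hε : ε = 1 ∨ ε = -1) : ∃ C : ℝ, ∀ X : ℕ, 1 ≤ X →
    ∑ ω ∈ TT X, (2 : ℝ) ^ rkp ε ω ≤ C * (X : ℝ) ^ 4 := by
  classical
  obtain ⟨z0, hz0⟩ := avgG 3
  obtain ⟨z, hzd⟩ : ∃ z : ℕ, z = max z0 8 := ⟨_, rfl⟩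
  have hz : 8 ≤ z := by rw [hzd]; exact le_max_right _ _
  obtain ⟨C', hC'⟩ := hz0 z (by rw [hzd]; exact le_max_left _ _)
  obtain ⟨C1, K, y0, hC1, hK, hcnt⟩ := cnt_fix z hz
  obtain ⟨C2, hC2, hnl⟩ := avg_NL z hz
  obtain ⟨C3, hC3, hsg⟩ := sum_g z hz
  have hant := Pool.Agent.W45.RT.ant_of Pool.Agent.W405.RK2.rs Pool.Agent.W591.RK2.rv
    Pool.Agent.W591.RK2.ru Pool.Agent.W358.RK2.gr
  refine hant (Fin 3) (ℕ × (ℕ × ℕ)) TT fF (fun X => (X : ℝ) ^ 4) z GG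
    (fun ω => (2 : ℝ) ^ rkp ε ω) (4 ^ (z + 2) * (C1 * C2 * C3)) C' (4 ^ 12) K y0
    (by simpa using hz) ?_ ?_ (fun X ω hω => gd_fF hz hω) GG_nonneg (fun ω => by positivity)
    (by positivity) (by norm_num) hK (fun y _ s e hse => GG_sub z y s e hse) ?_ ?_
  · intro X Y hXY ω hω
    rw [mem_TT] at hω ⊢
    have h2 : X ^ 2 ≤ Y ^ 2 := Nat.pow_le_pow_left hXY 2
    obtain ⟨⟨a1, a2⟩, ⟨⟨a3, a4⟩, a5, a6⟩, a7, a8, a9⟩ := hω
    exact ⟨⟨a1, a2.trans hXY⟩, ⟨⟨a3, a4.trans h2⟩, a5, a6.trans h2⟩, a7.trans h2, a8.trans h2, a9⟩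
  · intro X hX
    have : (1 : ℝ) ≤ X := by exact_mod_cast hX
    exact one_le_pow₀ this
  · intro y hy
    rw [Fintype.card_fin]
    exact hC' y hy
  intro X y Y k hy0 hzy hyK hk s hs v hv u hu h8 T' hT' hT2
  have hzy' : 8 < y := lt_of_le_of_lt hz hzy
  have hyX : y ≤ X := le_trans (Nat.le_self_pow (by omega) y) hyK
  have hX8 : 8 < X := by omega
  have hlogy : 0 < Real.log y := Real.log_pos (by exact_mod_cast (by omega : 1 < y))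
  obtain ⟨L, hL⟩ : ∃ L : ℝ, L = (Real.log y) ^ 3 := ⟨_, rfl⟩
  have hL0 : 0 < L := by rw [hL]; positivity
  rw [Fintype.card_fin, ← hL]
  have hcz : 3 ≤ z := by omega
  have hgs : 0 ≤ ∏ j, gw 1 3 (s j) := prod_nonneg fun j _ => gw_nn hcz hs j
  have hgv : 0 ≤ ∏ j, (4 : ℝ) ^ (v j).primeFactors.card * (gw 1 3 (v j) / v j) :=
    prod_nonneg fun j _ => mul_nonneg (by positivity)
      (div_nonneg (gw_nn hcz hv j) (Nat.cast_nonneg _))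
  have hgu : 0 ≤ ∏ j, 1 / (u j : ℝ) := prod_nonneg fun j _ => by positivity
  have hG := GG_nonneg s
  rcases T'.eq_empty_or_nonempty with hTe | ⟨ω0, hω0⟩
  · rw [hTe, sum_empty]
    exact div_nonneg (mul_nonneg (mul_nonneg (mul_nonneg (by positivity)
      (mul_nonneg hG hgs)) hgv) hgu) hL0.le
  obtain ⟨ms, hms⟩ : ∃ ms, ms = ∏ j, s j := ⟨_, rfl⟩
  obtain ⟨m, hm⟩ : ∃ m, m = ∏ j, mj c0 s v u j := ⟨_, rfl⟩
  obtain ⟨hm1, -, hms2⟩ := mj_facts hs hv hu h8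
  rw [← hm] at hm1
  rw [← hms] at hms2
  have hm0 : (0 : ℝ) < m := by exact_mod_cast hm1
  -- facts at the points
  have hpt : ∀ ω ∈ T', Fr z ω.1 (fv α3 β3 (ω.2.1 : ℤ) (ω.2.2 : ℤ)) (fF ω) ∧
      (1 ≤ ω.1 ∧ ω.1 ≤ X) ∧ ((1 ≤ ω.2.1 ∧ ω.2.1 ≤ X ^ 2) ∧ (1 ≤ ω.2.2 ∧ ω.2.2 ≤ X ^ 2)) ∧
      (ω.1 * ω.2.1 ≤ X ^ 2 ∧ ω.1 * ω.2.2 ≤ X ^ 2 ∧ ω.2.1.Coprime ω.2.2) := by
    intro ω hω
    have h1 := mem_TT.1 (hT' hω)
    exact ⟨fr_of z h1.2.1.1.1 h1.2.1.2.1, h1⟩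
  have hgood : ∀ ω ∈ T', ∀ p ∈ ms.primeFactors, ¬ p ∣ ω.1 ∧ ¬ p ∣ ω.2.2 := by
    intro ω hω p hp
    have hpp := Nat.prime_of_mem_primeFactors hp
    have h1 := Nat.dvd_of_mem_primeFactors hp
    rw [hms] at h1
    obtain ⟨j, -, hj⟩ := (hpp.prime.dvd_finsetProd_iff _).1 h1
    obtain ⟨h2, -, -⟩ := hT2 ω hω
    rw [← h2] at hj
    obtain ⟨h3, h4, -⟩ := (Pool.Agent.W29.RT.dvd_S1 hpp).1 hj
    obtain ⟨hf, -, -, -, -, hc⟩ := hpt ω hω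
    have hpg : ¬ p ∣ ω.1 := fun h' => hf.nd j p hpp h' h4
    refine ⟨hpg, fun h' => ?_⟩
    have e1 : (p : ℤ) ∣ fv α3 β3 (ω.2.1 : ℤ) (ω.2.2 : ℤ) j := by
      simpa using (hf.iff j p hpp hpg 1).1 (by simpa using h4)
    exact Pool.Agent.W571.RT.v_not_dvd (bg3 hz) hpp (mem_PS.1 h3).1.1
      (Nat.isCoprime_iff_coprime.2 hc) e1 (by exact_mod_cast h')
  obtain ⟨V, hV⟩ : ∃ V : ℝ, V = 4 ^ (z + 2) * (4 ^ 12 : ℝ) ^ k *
    4 ^ (∑ j, (v j).primeFactors.card) := ⟨_, rfl⟩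
  have hV0 : 0 ≤ V := by rw [hV]; positivity
  have hrank : ∀ ω ∈ T', (2 : ℝ) ^ rkp ε ω ≤ V * ((4 : ℝ) ^ ω.1.primeFactors.card *
      (NL ms (LLe s (Es ε ω.1 ω.2.2 s)) : ℝ)) := by
    intro ω hω
    obtain ⟨hf, ⟨hg1, hg2⟩, ⟨⟨hu1, hu2⟩, hv1, hv2⟩, -, -, hc⟩ := hpt ω hω
    obtain ⟨h2, h3, -⟩ := hT2 ω hω
    have h := rank_pt (y := y) hz (by omega) hε (show 0 < ω.1 from hg1) (show 0 < ω.2.1 from hu1)
      (show 0 < ω.2.2 from hv1) hc hf (X := X) (K := k) (fun j => by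
        have e1 : (fF ω j).natAbs ≤ (fv α3 β3 (ω.2.1 : ℤ) (ω.2.2 : ℤ) j).natAbs := by
          have := (prt_spec ω.1 (Int.natAbs_ne_zero.2 (fv_pos (show 0 < ω.2.1 from hu1)
            (show 0 < ω.2.2 from hv1) j).ne')).2.1
          unfold fF
          simpa using this
        refine e1.trans ?_
        have e2 : (fv α3 β3 (ω.2.1 : ℤ) (ω.2.2 : ℤ) j).natAbs ≤ 2 * ω.2.1 + ω.2.2 := by
          rcases cases3 j with rfl | rfl | rfl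
          · rw [fv30]; omega
          · rw [fv31]; omega
          · rw [fv32]; omega
        refine e2.trans ?_
        have e3 : 3 ≤ X ^ 2 := by nlinarith
        calc 2 * ω.2.1 + ω.2.2 ≤ 3 * X ^ 2 := by omega
          _ ≤ X ^ 2 * X ^ 2 := Nat.mul_le_mul_right _ e3
          _ = X ^ 4 := by ring) hk
    rw [h2, h3, ← hms] at h
    have h' : (2 : ℝ) ^ rkp ε ω ≤ 4 ^ (z + 2) * 4 ^ ω.1.primeFactors.card * (4 ^ 12) ^ k *
        4 ^ (∑ j, (v j).primeFactors.card) * (NL ms (LLe s (Es ε ω.1 ω.2.2 s)) : ℝ) := by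
      unfold rkp
      exact_mod_cast h
    refine h'.trans (le_of_eq ?_)
    rw [hV]
    ring
  -- the sum over the fibres
  obtain ⟨φ, hφ⟩ : ∃ φ : ℕ → ℕ → ℝ, φ = fun g b => (4 : ℝ) ^ g.primeFactors.card *
      (NL ms (LLe s (Es ε g b s)) : ℝ) := ⟨_, rfl⟩
  have hφ0 : ∀ g b, 0 ≤ φ g b := fun g b => by rw [hφ]; positivity
  obtain ⟨Fi, hFi⟩ : ∃ Fi : ℕ → ℕ → Finset (ℕ × (ℕ × ℕ)), Fi = fun g b =>
    T'.filter (fun ω => (ω.1, ω.2.2) = (g, b)) := ⟨_, rfl⟩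
  have hsumF : ∑ ω ∈ T', φ ω.1 ω.2.2 = ∑ g ∈ Icc 1 X, ∑ b ∈ Icc 1 (X ^ 2),
      ((Fi g b).card : ℝ) * φ g b := by
    have h1 : ∀ ω ∈ T', (ω.1, ω.2.2) ∈ (Icc 1 X) ×ˢ (Icc 1 (X ^ 2)) := by
      intro ω hω
      obtain ⟨-, h1, ⟨-, h2⟩, -⟩ := hpt ω hω
      rw [mem_product, mem_Icc, mem_Icc]
      exact ⟨h1, h2⟩
    rw [← sum_fiberwise_of_maps_to h1, sum_product]
    refine sum_congr rfl fun g _ => sum_congr rfl fun b _ => ?_
    rw [hFi]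
    simp only
    rw [← nsmul_eq_mul, ← sum_const]
    refine sum_congr rfl fun ω hω => ?_
    have h2 := (mem_filter.1 hω).2
    rw [(Prod.mk.inj h2).1, (Prod.mk.inj h2).2]
  -- the bound for a twist
  have hfib : ∀ g ∈ Icc 1 X, ∑ b ∈ Icc 1 (X ^ 2), ((Fi g b).card : ℝ) * φ g b ≤
      (C1 * C2 * (Gm z y m / m) * GG s / L * (X : ℝ) ^ 4) *
        ((4 : ℝ) ^ g.primeFactors.card * hf z g / (g : ℝ) ^ 2) := by
    intro g hg
    rw [mem_Icc] at hg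
    have hg0 : 0 < g := hg.1
    have hgr : (0 : ℝ) < g := by exact_mod_cast hg0
    have hGm0 : 0 ≤ Gm z y m := Gm_nonneg hz m
    have hhf : 0 ≤ hf z g := zero_le_one.trans (hf_ge hz g)
    have hR0 : 0 ≤ (C1 * C2 * (Gm z y m / m) * GG s / L * (X : ℝ) ^ 4) *
        ((4 : ℝ) ^ g.primeFactors.card * hf z g / (g : ℝ) ^ 2) := by positivity
    by_cases hgg : ∃ p ∈ ms.primeFactors, p ∣ g
    · obtain ⟨p, hp, hpg⟩ := hgg
      refine le_trans (le_of_eq ?_) hR0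
      refine sum_eq_zero fun b _ => ?_
      have : Fi g b = ∅ := by
        rw [hFi]
        refine filter_false_of_mem fun ω hω h => ?_
        have h1 : ω.1 = g := (Prod.mk.inj h).1
        exact (hgood ω hω p hp).1 (by rw [h1]; exact hpg)
      rw [this, card_empty]
      simp
    push Not at hgg
    obtain ⟨B, hB⟩ : ∃ B : ℕ, B = X ^ 2 / g := ⟨_, rfl⟩
    have hXB : X ≤ B := by
      rw [hB, Nat.le_div_iff_mul_le hg0, pow_two]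
      exact Nat.mul_le_mul_left _ hg.2
    have hBr : (B : ℝ) ≤ (X : ℝ) ^ 2 / g := by
      rw [hB]
      refine Nat.cast_div_le.trans (le_of_eq ?_)
      push_cast
      rfl
    have hsub : (Icc 1 B).filter (fun b : ℕ => ∀ p ∈ ms.primeFactors, ¬ p ∣ b) ⊆ Icc 1 (X ^ 2) := by
      intro b hb
      have h1 := mem_Icc.1 (mem_filter.1 hb).1
      rw [mem_Icc]
      refine ⟨h1.1, h1.2.trans ?_⟩
      rw [hB]
      exact Nat.div_le_self _ _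
    have hmemB : ∀ (x b : ℕ), (∃ ω ∈ T', ω.1 = g ∧ (ω.2.1 = x ∨ ω.2.2 = x)) → 1 ≤ x ∧ x ≤ B := by
      rintro x b ⟨ω, hω, hω1, hω2⟩
      obtain ⟨-, -, ⟨⟨a1, -⟩, a2, -⟩, a3, a4, -⟩ := hpt ω hω
      rw [hB, Nat.le_div_iff_mul_le hg0, mul_comm, ← hω1]
      rcases hω2 with rfl | rfl
      · exact ⟨a1, a3⟩
      · exact ⟨a2, a4⟩
    rw [← sum_subset hsub (fun b _ hb => by
      have : Fi g b = ∅ := by
        rw [hFi]
        refine filter_false_of_mem fun ω hω h => hb ?_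
        obtain ⟨h1, h2⟩ := Prod.mk.inj h
        rw [mem_filter, mem_Icc]
        exact ⟨hmemB b 0 ⟨ω, hω, h1, Or.inr h2⟩, fun p hp => by
          rw [← h2]
          exact (hgood ω hω p hp).2⟩
      rw [this, card_empty]
      simp)]
    have hone : ∀ b ∈ (Icc 1 B).filter (fun b : ℕ => ∀ p ∈ ms.primeFactors, ¬ p ∣ b),
        ((Fi g b).card : ℝ) * φ g b ≤ (C1 * ((B : ℝ) / m) * Gm z y m * hf z g / L *
          (4 : ℝ) ^ g.primeFactors.card) * ((NL ms (LLe s (Es ε g b s)) : ℝ) * hf z b) := by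
      intro b hb
      have hb1 := (mem_Icc.1 (mem_filter.1 hb).1).1
      have h1 := hcnt B y Y hy0 hzy (hyK.trans hXB) s hs v hv u hu (h8.trans hXB) g b hg0 hb1
        ((Fi g b).image (fun ω => ω.2.1)) (fun a ha => by
          obtain ⟨ω, hω, rfl⟩ := mem_image.1 ha
          rw [hFi] at hω
          obtain ⟨hω1, hω2⟩ := mem_filter.1 hω
          rw [mem_Icc]
          exact hmemB _ 0 ⟨ω, hω1, (Prod.mk.inj hω2).1, Or.inl rfl⟩) (fun a ha => by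
          obtain ⟨ω, hω, rfl⟩ := mem_image.1 ha
          rw [hFi] at hω
          obtain ⟨hω1, hω2⟩ := mem_filter.1 hω
          obtain ⟨e1, e2⟩ := Prod.mk.inj hω2
          obtain ⟨hf, -, -, -, -, hc⟩ := hpt ω hω1
          obtain ⟨h2, h3, h4⟩ := hT2 ω hω1
          rw [e1, e2] at hf
          rw [e2] at hc
          exact ⟨hc, fF ω, hf, h2, h3, h4⟩)
      have h2 : ((Fi g b).image (fun ω => ω.2.1)).card = (Fi g b).card := by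
        refine card_image_of_injOn fun ω hω ω' hω' h => ?_
        rw [hFi] at hω hω'
        obtain ⟨e1, e2⟩ := Prod.mk.inj (mem_filter.1 (mem_coe.1 hω)).2
        obtain ⟨e3, e4⟩ := Prod.mk.inj (mem_filter.1 (mem_coe.1 hω')).2
        exact Prod.ext (e1.trans e3.symm) (Prod.ext h (e2.trans e4.symm))
      rw [h2, ← hm, ← hL] at h1
      have h3 := mul_le_mul_of_nonneg_right h1 (hφ0 g b)
      refine h3.trans (le_of_eq ?_)
      rw [hφ]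
      ring
    refine (sum_le_sum hone).trans ?_
    rw [← mul_sum]
    have h4 := hnl y B ms s hs hms (hms2.trans hXB) ε hε g hgg
    have h5 : 0 ≤ C1 * ((B : ℝ) / m) * Gm z y m * hf z g / L *
          (4 : ℝ) ^ g.primeFactors.card := by positivity
    refine (mul_le_mul_of_nonneg_left h4 h5).trans ?_
    have h6 : (B : ℝ) * B ≤ (X : ℝ) ^ 4 / (g : ℝ) ^ 2 := by
      calc (B : ℝ) * B ≤ ((X : ℝ) ^ 2 / g) * ((X : ℝ) ^ 2 / g) :=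
            mul_le_mul hBr hBr (Nat.cast_nonneg _) (by positivity)
        _ = _ := by
            field_simp
    have h7 : 0 ≤ C1 * C2 * (Gm z y m / m) * GG s / L *
        ((4 : ℝ) ^ g.primeFactors.card * hf z g) := by positivity
    calc C1 * ((B : ℝ) / m) * Gm z y m * hf z g / L * (4 : ℝ) ^ g.primeFactors.card *
          (C2 * B * GG s)
        = (C1 * C2 * (Gm z y m / m) * GG s / L *
        ((4 : ℝ) ^ g.primeFactors.card * hf z g)) * ((B : ℝ) * B) := by ring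
      _ ≤ (C1 * C2 * (Gm z y m / m) * GG s / L *
        ((4 : ℝ) ^ g.primeFactors.card * hf z g)) * ((X : ℝ) ^ 4 / (g : ℝ) ^ 2) :=
          mul_le_mul_of_nonneg_left h6 h7
      _ = _ := by ring
  have hbig : ∑ ω ∈ T', φ ω.1 ω.2.2 ≤
      (C1 * C2 * (Gm z y m / m) * GG s / L * (X : ℝ) ^ 4) * C3 := by
    rw [hsumF]
    refine (sum_le_sum hfib).trans ?_
    rw [← mul_sum]
    refine mul_le_mul_of_nonneg_left (hsg X) ?_
    have := Gm_nonneg hz (y := y) m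
    positivity
  have hfirst : ∑ ω ∈ T', (2 : ℝ) ^ rkp ε ω ≤ V * ∑ ω ∈ T', φ ω.1 ω.2.2 := by
    rw [mul_sum]
    refine sum_le_sum fun ω hω => ?_
    rw [hφ]
    exact hrank ω hω
  refine hfirst.trans ((mul_le_mul_of_nonneg_left hbig hV0).trans (le_of_eq ?_))
  -- the quotient
  have hG2 : G2 z y s v u (fF ω0) := by
    obtain ⟨h2, h3, h4⟩ := hT2 ω0 hω0
    refine ⟨h2, h3, h4, fun p hp hzp j l hj hl => ?_⟩
    by_contra hne
    exact (gd_fF hz (hT' hω0)).2 p hp hzp j l hne ⟨hj, hl⟩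
  have hquo := Gm_div hs hv hu hG2
  rw [← hm] at hquo
  rw [hquo]
  have e2 : (∏ j, (4 : ℝ) ^ (v j).primeFactors.card * (gw 1 3 (v j) / v j)) =
      4 ^ (∑ j, (v j).primeFactors.card) * ∏ j, (gw 1 3 (v j) / v j) := by
    rw [prod_mul_distrib, prod_pow_eq_pow_sum]
  rw [e2, hV]
  ring

end Pool.Agent.H82.FT
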