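import Pool.Agent.H82.FT.Mom

/-!
# The average of `2 ^ rank` over all curves `y² = x (x - a) (x + b)`
-/

set_option autoImplicit false

namespace Pool.Agent.H82.FT

open Finset Pool.Agent.W262.RK

lemma EAB_comm (A B : ℤ) : EAB A B = EAB B A := by
  unfold EAB
  congr 1
  · rw [add_comm]
  · rw [mul_comm]

/-- the rank of `y² = x (x - a) (x + b)` -/
noncomputable def rab (p : ℕ × ℕ) : ℕ :=
  Module.finrank ℤ (EAB (p.1 : ℤ) (-(p.2 : ℤ))).toAffine.Point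

/-- the pointwise bound -/
lemma rab_le : ∃ C : ℝ, 0 < C ∧ ∀ (N : ℕ) (p : ℕ × ℕ), 1 ≤ N → 1 ≤ p.1 → 1 ≤ p.2 → p.1 ≤ N →
    p.2 ≤ N → (2 : ℝ) ^ rab p ≤ C * Real.sqrt N := by
  obtain ⟨C, hC, h⟩ := four_pow_nat (1 / 6) (by norm_num)
  refine ⟨16 * (C * 2), by positivity, fun N p hN h1 h2 h3 h4 => ?_⟩
  have a1 : (p.1 : ℤ) ≠ 0 := by exact_mod_cast (by omega : p.1 ≠ 0)
  have a2 : -(p.2 : ℤ) ≠ 0 := neg_ne_zero.2 (by exact_mod_cast (by omega : p.2 ≠ 0))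
  have a3 : (p.1 : ℤ) ≠ -(p.2 : ℤ) := by omega
  have h5 := Pool.Agent.H82.RO.rank_le a1 a2 a3
  obtain ⟨n, hn⟩ : ∃ n : ℕ, n = (2 * (p.1 : ℤ) * -(p.2 : ℤ) * ((p.1 : ℤ) - -(p.2 : ℤ))).natAbs :=
    ⟨_, rfl⟩
  have hn2 : n = 2 * p.1 * p.2 * (p.1 + p.2) := by
    rw [hn]
    have e : 2 * (p.1 : ℤ) * -(p.2 : ℤ) * ((p.1 : ℤ) - -(p.2 : ℤ)) =
        -((2 * p.1 * p.2 * (p.1 + p.2) : ℕ) : ℤ) := by
      push_cast
      ring
    rw [e, Int.natAbs_neg, Int.natAbs_natCast]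
  rw [← hn] at h5
  have hn0 : 0 < n := by rw [hn2]; positivity
  have h6 := h n hn0
  have hNr : (1 : ℝ) ≤ N := by exact_mod_cast hN
  have hN0 : (0 : ℝ) < N := by linarith
  have hn3 : (n : ℝ) ≤ 4 * (N : ℝ) ^ 3 := by
    have : n ≤ 4 * N ^ 3 := by
      rw [hn2]
      calc 2 * p.1 * p.2 * (p.1 + p.2) ≤ 2 * N * N * (N + N) :=
            Nat.mul_le_mul (Nat.mul_le_mul (Nat.mul_le_mul_left _ h3) h4) (add_le_add h3 h4)
        _ = 4 * N ^ 3 := by ring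
    exact_mod_cast this
  have h7 : (n : ℝ) ^ (1 / 6 : ℝ) ≤ 2 * Real.sqrt N := by
    calc (n : ℝ) ^ (1 / 6 : ℝ) ≤ (4 * (N : ℝ) ^ 3) ^ (1 / 6 : ℝ) :=
          Real.rpow_le_rpow (Nat.cast_nonneg _) hn3 (by norm_num)
      _ = (4 : ℝ) ^ (1 / 6 : ℝ) * Real.sqrt N := by
          rw [Real.mul_rpow (by norm_num) (by positivity), Real.sqrt_eq_rpow, ← Real.rpow_natCast,
            ← Real.rpow_mul hN0.le]
          norm_num
      _ ≤ 2 * Real.sqrt N := by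
          refine mul_le_mul_of_nonneg_right ?_ (Real.sqrt_nonneg _)
          calc (4 : ℝ) ^ (1 / 6 : ℝ) ≤ 4 ^ (1 / 2 : ℝ) :=
                Real.rpow_le_rpow_of_exponent_le (by norm_num) (by norm_num)
            _ = 2 := by
                rw [← Real.sqrt_eq_rpow, show (4 : ℝ) = 2 ^ 2 by norm_num]
                exact Real.sqrt_sq (by norm_num)
  calc (2 : ℝ) ^ rab p ≤ 4 ^ (n.primeFactors.card + 2) := by
        unfold rab
        exact_mod_cast h5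
    _ = 16 * 4 ^ n.primeFactors.card := by rw [pow_add]; norm_num; ring
    _ ≤ 16 * (C * (n : ℝ) ^ (1 / 6 : ℝ)) := by linarith
    _ ≤ 16 * (C * (2 * Real.sqrt N)) := by
        have := mul_le_mul_of_nonneg_left h7 hC.le
        linarith
    _ = _ := by ring

/-- the pairs with a large common divisor -/
lemma card_gcd {N X : ℕ} (hX : 1 ≤ X) (hXN : X ≤ N) :
    ((((Icc 1 N) ×ˢ (Icc 1 N)).filter (fun p : ℕ × ℕ => X < Nat.gcd p.1 p.2)).card : ℝ) ≤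
      (N : ℝ) ^ 2 / X := by
  classical
  have hsub : ((Icc 1 N) ×ˢ (Icc 1 N)).filter (fun p : ℕ × ℕ => X < Nat.gcd p.1 p.2) ⊆
      (Ioc X N).biUnion (fun g => ((Icc 1 N).filter (fun v => g ∣ v)) ×ˢ
        ((Icc 1 N).filter (fun v => g ∣ v))) := by
    intro p hp
    rw [mem_filter, mem_product] at hp
    obtain ⟨⟨h1, h2⟩, h3⟩ := hp
    rw [mem_biUnion]
    refine ⟨Nat.gcd p.1 p.2, ?_, ?_⟩
    · rw [mem_Ioc]
      have := Nat.le_of_dvd (mem_Icc.1 h1).1 (Nat.gcd_dvd_left p.1 p.2)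
      exact ⟨h3, this.trans (mem_Icc.1 h1).2⟩
    · rw [mem_product, mem_filter, mem_filter]
      exact ⟨⟨h1, Nat.gcd_dvd_left _ _⟩, ⟨h2, Nat.gcd_dvd_right _ _⟩⟩
  have h1 : ((((Icc 1 N) ×ˢ (Icc 1 N)).filter
      (fun p : ℕ × ℕ => X < Nat.gcd p.1 p.2)).card : ℝ) ≤
      ∑ g ∈ Ioc X N, (N : ℝ) ^ 2 * (((g : ℝ) ^ 2)⁻¹) := by
    refine le_trans (Nat.cast_le.2 ((card_le_card hsub).trans card_biUnion_le)) ?_
    rw [Nat.cast_sum]
    refine sum_le_sum fun g hg => ?_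
    have hg0 : (0 : ℝ) < g := by
      have := (mem_Ioc.1 hg).1
      exact_mod_cast (by omega : 0 < g)
    have h2 := Pool.Agent.W216.RT.AVH.card_le N g
    rw [card_product, Nat.cast_mul]
    calc (((Icc 1 N).filter (fun v => g ∣ v)).card : ℝ) * (((Icc 1 N).filter (fun v => g ∣ v)).card : ℝ)
        ≤ ((N : ℝ) / g) * ((N : ℝ) / g) := mul_le_mul h2 h2 (Nat.cast_nonneg _) (by positivity)
      _ = _ := by
          field_simp
  refine h1.trans ?_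
  rw [← mul_sum, div_eq_mul_inv]
  refine mul_le_mul_of_nonneg_left ?_ (by positivity)
  have h3 := sum_Ioc_inv_sq_le_sub (α := ℝ) (by omega : X ≠ 0) hXN
  have h4 : (0 : ℝ) ≤ (N : ℝ)⁻¹ := by positivity
  linarith

/-- **The average of `2 ^ rank` over all pairs.** -/
theorem mom_pairs : ∃ C : ℝ, 0 ≤ C ∧ ∀ N : ℕ, 1 ≤ N →
    ∑ p ∈ (Icc 1 N) ×ˢ (Icc 1 N), (2 : ℝ) ^ rab p ≤ C * (N : ℝ) ^ 2 := by
  classical
  obtain ⟨Cp, hCp⟩ := mom_pts (ε := 1) (Or.inl rfl)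
  obtain ⟨Cm, hCm⟩ := mom_pts (ε := -1) (Or.inr rfl)
  obtain ⟨C0, hC0, hpt⟩ := rab_le
  refine ⟨|Cp| * 16 + |Cm| * 16 + 2 * C0, by positivity, fun N hN => ?_⟩
  have hNr : (1 : ℝ) ≤ N := by exact_mod_cast hN
  have hN0 : (0 : ℝ) < N := by linarith
  obtain ⟨X, hX⟩ : ∃ X : ℕ, X = Nat.sqrt N + 1 := ⟨_, rfl⟩
  have hX1 : 1 ≤ X := by omega
  have hNX : N ≤ X ^ 2 := by
    have := Nat.lt_succ_sqrt N
    rw [hX, pow_two]
    exact this.le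
  have hXN : X ^ 2 ≤ 4 * N := by
    have h1 := Nat.sqrt_le N
    have h2 : 1 ≤ Nat.sqrt N := Nat.le_sqrt.2 (by omega)
    rw [hX]
    nlinarith
  obtain ⟨S, hS⟩ : ∃ S, S = (Icc 1 N) ×ˢ (Icc 1 N) := ⟨_, rfl⟩
  rw [← hS]
  have hSm : ∀ p ∈ S, (1 ≤ p.1 ∧ p.1 ≤ N) ∧ (1 ≤ p.2 ∧ p.2 ≤ N) := by
    intro p hp
    rw [hS, mem_product, mem_Icc, mem_Icc] at hp
    exact hp
  -- four parts
  obtain ⟨S1, hS1⟩ : ∃ S1, S1 = S.filter (fun p => X < Nat.gcd p.1 p.2) := ⟨_, rfl⟩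
  obtain ⟨S2, hS2⟩ : ∃ S2, S2 = S.filter (fun p => p.1 = p.2) := ⟨_, rfl⟩
  obtain ⟨S3, hS3⟩ : ∃ S3, S3 = S.filter (fun p => Nat.gcd p.1 p.2 ≤ X ∧ p.1 < p.2) := ⟨_, rfl⟩
  obtain ⟨S4, hS4⟩ : ∃ S4, S4 = S.filter (fun p => Nat.gcd p.1 p.2 ≤ X ∧ p.2 < p.1) := ⟨_, rfl⟩
  have hcov : S ⊆ (S1 ∪ S2) ∪ (S3 ∪ S4) := by
    intro p hp
    rw [mem_union, mem_union, mem_union, hS1, hS2, hS3, hS4, mem_filter, mem_filter, mem_filter,
      mem_filter]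
    rcases Nat.lt_or_ge X (Nat.gcd p.1 p.2) with h | h
    · exact Or.inl (Or.inl ⟨hp, h⟩)
    rcases Nat.lt_trichotomy p.1 p.2 with h' | h' | h'
    · exact Or.inr (Or.inl ⟨hp, h, h'⟩)
    · exact Or.inl (Or.inr ⟨hp, h'⟩)
    · exact Or.inr (Or.inr ⟨hp, h, h'⟩)
  have hnn : ∀ p : ℕ × ℕ, 0 ≤ (2 : ℝ) ^ rab p := fun p => by positivity
  have hun : ∀ A B : Finset (ℕ × ℕ), ∑ p ∈ A ∪ B, (2 : ℝ) ^ rab p ≤
      ∑ p ∈ A, (2 : ℝ) ^ rab p + ∑ p ∈ B, (2 : ℝ) ^ rab p := by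
    intro A B
    rw [← sum_union_inter]
    exact le_add_of_nonneg_right (sum_nonneg fun p _ => hnn p)
  have hsq : Real.sqrt N * Real.sqrt N = N := Real.mul_self_sqrt hN0.le
  have hsq1 : 1 ≤ Real.sqrt N := by
    rw [show (1 : ℝ) = Real.sqrt 1 by rw [Real.sqrt_one]]
    exact Real.sqrt_le_sqrt hNr
  have hsqX : Real.sqrt N ≤ X := by
    rw [Real.sqrt_le_left (Nat.cast_nonneg _)]
    exact_mod_cast hNX
  -- large common divisor
  have b1 : ∑ p ∈ S1, (2 : ℝ) ^ rab p ≤ C0 * (N : ℝ) ^ 2 := by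
    have c1 : ∑ p ∈ S1, (2 : ℝ) ^ rab p ≤ (S1.card : ℝ) * (C0 * Real.sqrt N) := by
      rw [← nsmul_eq_mul, ← sum_const]
      refine sum_le_sum fun p hp => ?_
      rw [hS1] at hp
      obtain ⟨⟨h1, h2⟩, h3, h4⟩ := hSm p (mem_filter.1 hp).1
      exact hpt N p hN h1 h3 h2 h4
    rcases Nat.lt_or_ge N X with h | h
    · have : S1 = ∅ := by
        rw [hS1]
        refine filter_false_of_mem fun p hp h' => ?_
        obtain ⟨⟨h1, h2⟩, -⟩ := hSm p hp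
        have := Nat.le_of_dvd h1 (Nat.gcd_dvd_left p.1 p.2)
        omega
      rw [this, sum_empty]
      positivity
    · have c2 := card_gcd hX1 h
      rw [← hS, ← hS1] at c2
      have hXr : (0 : ℝ) < X := by exact_mod_cast hX1
      calc ∑ p ∈ S1, (2 : ℝ) ^ rab p ≤ (S1.card : ℝ) * (C0 * Real.sqrt N) := c1
        _ ≤ ((N : ℝ) ^ 2 / X) * (C0 * Real.sqrt N) :=
            mul_le_mul_of_nonneg_right c2 (by positivity)
        _ ≤ ((N : ℝ) ^ 2 / X) * (C0 * X) := by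
            refine mul_le_mul_of_nonneg_left ?_ (by positivity)
            exact mul_le_mul_of_nonneg_left hsqX hC0.le
        _ = C0 * (N : ℝ) ^ 2 := by
            field_simp
  have b2 : ∑ p ∈ S2, (2 : ℝ) ^ rab p ≤ C0 * (N : ℝ) ^ 2 := by
    have c1 : ∑ p ∈ S2, (2 : ℝ) ^ rab p ≤ (S2.card : ℝ) * (C0 * Real.sqrt N) := by
      rw [← nsmul_eq_mul, ← sum_const]
      refine sum_le_sum fun p hp => ?_
      rw [hS2] at hp
      obtain ⟨⟨h1, h2⟩, h3, h4⟩ := hSm p (mem_filter.1 hp).1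
      exact hpt N p hN h1 h3 h2 h4
    have c2 : S2.card ≤ N := by
      have : S2.card ≤ (Icc 1 N).card := by
        refine card_le_card_of_injOn (fun p => p.1) ?_ ?_
        · intro p hp
          rw [hS2, mem_coe] at hp
          exact mem_coe.2 (mem_Icc.2 (hSm p (mem_filter.1 hp).1).1)
        · intro p hp p' hp' h
          rw [hS2, mem_coe] at hp hp'
          have e1 := (mem_filter.1 hp).2
          have e2 := (mem_filter.1 hp').2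
          refine Prod.ext h ?_
          rw [← e1, ← e2]
          exact h
      simpa using this
    have c3 : (S2.card : ℝ) ≤ N := by exact_mod_cast c2
    have c4 : Real.sqrt N ≤ N := by nlinarith
    calc ∑ p ∈ S2, (2 : ℝ) ^ rab p ≤ (S2.card : ℝ) * (C0 * Real.sqrt N) := c1
      _ ≤ N * (C0 * N) := mul_le_mul c3 (mul_le_mul_of_nonneg_left c4 hC0.le) (by positivity)
          hN0.le
      _ = _ := by ring
  have hX4 : (X : ℝ) ^ 4 ≤ 16 * (N : ℝ) ^ 2 := by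
    have h1 : (X : ℝ) ^ 2 ≤ 4 * N := by exact_mod_cast hXN
    have h2 : (X : ℝ) ^ 2 * (X : ℝ) ^ 2 ≤ (4 * (N : ℝ)) * (4 * (N : ℝ)) :=
      mul_le_mul h1 h1 (by positivity) (by positivity)
    have h3 : (X : ℝ) ^ 4 = (X : ℝ) ^ 2 * (X : ℝ) ^ 2 := by ring
    rw [h3]
    linarith
  -- the decomposition
  have hdec : ∀ a b : ℕ, 1 ≤ a → a < b → b ≤ N → Nat.gcd a b ≤ X →
      (Nat.gcd a b, (a / Nat.gcd a b, b / Nat.gcd a b - a / Nat.gcd a b)) ∈ TT X ∧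
      Nat.gcd a b * (a / Nat.gcd a b) = a ∧ Nat.gcd a b * (b / Nat.gcd a b) = b ∧
      a / Nat.gcd a b + (b / Nat.gcd a b - a / Nat.gcd a b) = b / Nat.gcd a b := by
    intro a b ha hab hbN hgX
    obtain ⟨g, hg⟩ : ∃ g, g = Nat.gcd a b := ⟨_, rfl⟩
    rw [← hg] at hgX ⊢
    have hg0 : 0 < g := by rw [hg]; exact Nat.gcd_pos_of_pos_left _ ha
    have e1 : g * (a / g) = a := Nat.mul_div_cancel' (by rw [hg]; exact Nat.gcd_dvd_left _ _)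
    have e2 : g * (b / g) = b := Nat.mul_div_cancel' (by rw [hg]; exact Nat.gcd_dvd_right _ _)
    have hc : Nat.Coprime (a / g) (b / g) := by
      rw [hg]
      exact Nat.coprime_div_gcd_div_gcd (by rw [← hg]; exact hg0)
    have h1 : a / g < b / g := by
      by_contra h
      push Not at h
      have := Nat.mul_le_mul_left g h
      rw [e1, e2] at this
      omega
    have e3 : a / g + (b / g - a / g) = b / g := by omega
    refine ⟨?_, e1, e2, e3⟩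
    rw [mem_TT]
    simp only
    have hga : 1 ≤ a / g := by
      rcases Nat.eq_zero_or_pos (a / g) with h | h
      · rw [h, mul_zero] at e1; omega
      · exact h
    have hag : a / g ≤ a := Nat.div_le_self _ _
    have hbg : b / g ≤ b := Nat.div_le_self _ _
    refine ⟨⟨hg0, hgX⟩, ⟨⟨hga, by omega⟩, by omega, by omega⟩, by rw [e1]; omega, ?_, ?_⟩
    · have : g * (b / g - a / g) ≤ g * (b / g) := Nat.mul_le_mul_left _ (Nat.sub_le _ _)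
      rw [e2] at this
      omega
    · have h2 : Nat.Coprime (a / g) (a / g + (b / g - a / g)) := by rw [e3]; exact hc
      exact (Nat.coprime_self_add_right.1 h2)
  have b3 : ∑ p ∈ S3, (2 : ℝ) ^ rab p ≤ |Cp| * 16 * (N : ℝ) ^ 2 := by
    have hin : ∀ p ∈ S3, (Nat.gcd p.1 p.2, (p.1 / Nat.gcd p.1 p.2,
        p.2 / Nat.gcd p.1 p.2 - p.1 / Nat.gcd p.1 p.2)) ∈ TT X ∧
        Nat.gcd p.1 p.2 * (p.1 / Nat.gcd p.1 p.2) = p.1 ∧
        Nat.gcd p.1 p.2 * (p.2 / Nat.gcd p.1 p.2) = p.2 ∧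
        p.1 / Nat.gcd p.1 p.2 + (p.2 / Nat.gcd p.1 p.2 - p.1 / Nat.gcd p.1 p.2) =
          p.2 / Nat.gcd p.1 p.2 := by
      intro p hp
      rw [hS3] at hp
      obtain ⟨h1, h2, h3⟩ := mem_filter.1 hp
      obtain ⟨⟨h4, -⟩, -, h5⟩ := hSm p h1
      exact hdec p.1 p.2 h4 h3 h5 h2
    obtain ⟨Φ, hΦ⟩ : ∃ Φ : ℕ × ℕ → ℕ × (ℕ × ℕ), Φ = fun p => (Nat.gcd p.1 p.2,
      (p.1 / Nat.gcd p.1 p.2, p.2 / Nat.gcd p.1 p.2 - p.1 / Nat.gcd p.1 p.2)) := ⟨_, rfl⟩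
    have hrk : ∀ p ∈ S3, rab p = rkp 1 (Φ p) := by
      intro p hp
      obtain ⟨-, e1, e2, e3⟩ := hin p hp
      rw [hΦ]
      unfold rab rkp
      simp only
      have f1 : (1 : ℤ) * (Nat.gcd p.1 p.2 : ℤ) * ((p.1 / Nat.gcd p.1 p.2 : ℕ) : ℤ) = p.1 := by
        rw [one_mul]
        exact_mod_cast e1
      have f2 : (1 : ℤ) * (Nat.gcd p.1 p.2 : ℤ) * (((p.1 / Nat.gcd p.1 p.2 : ℕ) : ℤ) +
          ((p.2 / Nat.gcd p.1 p.2 - p.1 / Nat.gcd p.1 p.2 : ℕ) : ℤ)) = p.2 := by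
        rw [one_mul, ← Nat.cast_add, e3]
        exact_mod_cast e2
      rw [f1, f2]
    have hinj : Set.InjOn Φ (S3 : Set (ℕ × ℕ)) := by
      intro p hp p' hp' h
      obtain ⟨-, e1, e2, e3⟩ := hin p hp
      obtain ⟨-, e1', e2', e3'⟩ := hin p' hp'
      rw [hΦ] at h
      simp only [Prod.mk.injEq] at h
      obtain ⟨h1, h2, h3⟩ := h
      refine Prod.ext ?_ ?_
      · exact e1.symm.trans ((congrArg₂ (· * ·) h1 h2).trans e1')
      · refine e2.symm.trans ((congrArg₂ (· * ·) h1 ?_).trans e2')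
        exact e3.symm.trans ((congrArg₂ (· + ·) h2 h3).trans e3')
    have hsum : ∑ p ∈ S3, (2 : ℝ) ^ rab p ≤ ∑ ω ∈ TT X, (2 : ℝ) ^ rkp 1 ω := by
      rw [sum_congr rfl fun p hp => by rw [hrk p hp],
        ← sum_image (f := fun ω => (2 : ℝ) ^ rkp 1 ω) hinj]
      refine sum_le_sum_of_subset_of_nonneg ?_ fun _ _ _ => by positivity
      intro ω hω
      obtain ⟨p, hp, rfl⟩ := mem_image.1 hω
      rw [hΦ]
      exact (hin p hp).1
    refine hsum.trans ((hCp X hX1).trans ?_)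
    calc Cp * (X : ℝ) ^ 4 ≤ |Cp| * (X : ℝ) ^ 4 :=
          mul_le_mul_of_nonneg_right (le_abs_self _) (by positivity)
      _ ≤ |Cp| * (16 * (N : ℝ) ^ 2) := mul_le_mul_of_nonneg_left hX4 (abs_nonneg _)
      _ = _ := by ring
  have b4 : ∑ p ∈ S4, (2 : ℝ) ^ rab p ≤ |Cm| * 16 * (N : ℝ) ^ 2 := by
    have hin : ∀ p ∈ S4, (Nat.gcd p.2 p.1, (p.2 / Nat.gcd p.2 p.1,
        p.1 / Nat.gcd p.2 p.1 - p.2 / Nat.gcd p.2 p.1)) ∈ TT X ∧
        Nat.gcd p.2 p.1 * (p.2 / Nat.gcd p.2 p.1) = p.2 ∧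
        Nat.gcd p.2 p.1 * (p.1 / Nat.gcd p.2 p.1) = p.1 ∧
        p.2 / Nat.gcd p.2 p.1 + (p.1 / Nat.gcd p.2 p.1 - p.2 / Nat.gcd p.2 p.1) =
          p.1 / Nat.gcd p.2 p.1 := by
      intro p hp
      rw [hS4] at hp
      obtain ⟨h1, h2, h3⟩ := mem_filter.1 hp
      obtain ⟨⟨-, h5⟩, h4, -⟩ := hSm p h1
      exact hdec p.2 p.1 h4 h3 h5 (by rw [Nat.gcd_comm]; exact h2)
    obtain ⟨Φ, hΦ⟩ : ∃ Φ : ℕ × ℕ → ℕ × (ℕ × ℕ), Φ = fun p => (Nat.gcd p.2 p.1,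
      (p.2 / Nat.gcd p.2 p.1, p.1 / Nat.gcd p.2 p.1 - p.2 / Nat.gcd p.2 p.1)) := ⟨_, rfl⟩
    have hrk : ∀ p ∈ S4, rab p = rkp (-1) (Φ p) := by
      intro p hp
      obtain ⟨-, e1, e2, e3⟩ := hin p hp
      rw [hΦ]
      unfold rab rkp
      simp only
      have f1 : (-1 : ℤ) * (Nat.gcd p.2 p.1 : ℤ) * ((p.2 / Nat.gcd p.2 p.1 : ℕ) : ℤ) =
          -(p.2 : ℤ) := by
        have : (Nat.gcd p.2 p.1 : ℤ) * ((p.2 / Nat.gcd p.2 p.1 : ℕ) : ℤ) = p.2 := by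
          exact_mod_cast e1
        linear_combination -this
      have f2 : -((-1 : ℤ) * (Nat.gcd p.2 p.1 : ℤ) * (((p.2 / Nat.gcd p.2 p.1 : ℕ) : ℤ) +
          ((p.1 / Nat.gcd p.2 p.1 - p.2 / Nat.gcd p.2 p.1 : ℕ) : ℤ))) = p.1 := by
        rw [← Nat.cast_add, e3]
        have : (Nat.gcd p.2 p.1 : ℤ) * ((p.1 / Nat.gcd p.2 p.1 : ℕ) : ℤ) = p.1 := by
          exact_mod_cast e2
        linear_combination this
      rw [f1, f2, EAB_comm]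
    have hinj : Set.InjOn Φ (S4 : Set (ℕ × ℕ)) := by
      intro p hp p' hp' h
      obtain ⟨-, e1, e2, e3⟩ := hin p hp
      obtain ⟨-, e1', e2', e3'⟩ := hin p' hp'
      rw [hΦ] at h
      simp only [Prod.mk.injEq] at h
      obtain ⟨h1, h2, h3⟩ := h
      refine Prod.ext ?_ ?_
      · refine e2.symm.trans ((congrArg₂ (· * ·) h1 ?_).trans e2')
        exact e3.symm.trans ((congrArg₂ (· + ·) h2 h3).trans e3')
      · exact e1.symm.trans ((congrArg₂ (· * ·) h1 h2).trans e1')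
    have hsum : ∑ p ∈ S4, (2 : ℝ) ^ rab p ≤ ∑ ω ∈ TT X, (2 : ℝ) ^ rkp (-1) ω := by
      rw [sum_congr rfl fun p hp => by rw [hrk p hp],
        ← sum_image (f := fun ω => (2 : ℝ) ^ rkp (-1) ω) hinj]
      refine sum_le_sum_of_subset_of_nonneg ?_ fun _ _ _ => by positivity
      intro ω hω
      obtain ⟨p, hp, rfl⟩ := mem_image.1 hω
      rw [hΦ]
      exact (hin p hp).1
    refine hsum.trans ((hCm X hX1).trans ?_)
    calc Cm * (X : ℝ) ^ 4 ≤ |Cm| * (X : ℝ) ^ 4 :=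
          mul_le_mul_of_nonneg_right (le_abs_self _) (by positivity)
      _ ≤ |Cm| * (16 * (N : ℝ) ^ 2) := mul_le_mul_of_nonneg_left hX4 (abs_nonneg _)
      _ = _ := by ring
  calc ∑ p ∈ S, (2 : ℝ) ^ rab p ≤ ∑ p ∈ (S1 ∪ S2) ∪ (S3 ∪ S4), (2 : ℝ) ^ rab p :=
        sum_le_sum_of_subset_of_nonneg hcov fun p _ _ => hnn p
    _ ≤ ∑ p ∈ S1 ∪ S2, (2 : ℝ) ^ rab p + ∑ p ∈ S3 ∪ S4, (2 : ℝ) ^ rab p := hun _ _
    _ ≤ (∑ p ∈ S1, (2 : ℝ) ^ rab p + ∑ p ∈ S2, (2 : ℝ) ^ rab p) +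
        (∑ p ∈ S3, (2 : ℝ) ^ rab p + ∑ p ∈ S4, (2 : ℝ) ^ rab p) :=
        add_le_add (hun _ _) (hun _ _)
    _ ≤ (C0 * (N : ℝ) ^ 2 + C0 * (N : ℝ) ^ 2) +
        (|Cp| * 16 * (N : ℝ) ^ 2 + |Cm| * 16 * (N : ℝ) ^ 2) :=
        add_le_add (add_le_add b1 b2) (add_le_add b3 b4)
    _ = _ := by ring

end Pool.Agent.H82.FT
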