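import Pool.Agent.H82.FT.Sub
import Pool.Agent.W571.RT.Rank2
import Pool.Agent.W571.RT.LocM

/-!
# The rank at a point
-/

set_option autoImplicit false

namespace Pool.Agent.H82.FT

open Finset Pool.Agent.W262.RK Pool.Agent.W307.RT

/-- the three forms `u`, `u + v`, `2 u + v` -/
def α3 : Fin 3 → ℤ := ![1, 1, 2]
/-- the three forms -/
def β3 : Fin 3 → ℤ := ![0, 1, 1]

lemma fv30 (u v : ℤ) : fv α3 β3 u v 0 = u := by
  show (1 : ℤ) * u + 0 * v = u
  ring
lemma fv31 (u v : ℤ) : fv α3 β3 u v 1 = u + v := by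
  show (1 : ℤ) * u + 1 * v = u + v
  ring
lemma fv32 (u v : ℤ) : fv α3 β3 u v 2 = 2 * u + v := by
  show (2 : ℤ) * u + 1 * v = 2 * u + v
  ring

lemma α3_bd : ∀ j : Fin 3, (α3 j).natAbs ≠ 0 ∧ (α3 j).natAbs ≤ 2 := by decide
lemma cases3 : ∀ j : Fin 3, j = 0 ∨ j = 1 ∨ j = 2 := by decide
lemma cs_ne : ∀ j : Fin 3, j.castSucc ≠ 3 := by decide

lemma bg3 {z : ℕ} (hz : 8 ≤ z) : Bg α3 β3 z := by
  refine ⟨by simpa using hz, fun p hp hzp => ⟨fun j h => ?_, fun j l hjl h => ?_⟩⟩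
  · have h1 := α3_bd j
    have h2 := Nat.le_of_dvd (Nat.pos_of_ne_zero h1.1) (Int.natCast_dvd.1 h)
    omega
  · have h1 : ∀ j l : Fin 3, j ≠ l → (Res α3 β3 j l).natAbs ≠ 0 ∧ (Res α3 β3 j l).natAbs ≤ 2 := by
      decide
    obtain ⟨h3, h4⟩ := h1 j l hjl
    have h2 := Nat.le_of_dvd (Nat.pos_of_ne_zero h3) (Int.natCast_dvd.1 h)
    omega

/-- the constants in the symbols -/
def c3 : Fin 3 → ℤ := ![1, 1, -2]

/-- the constants at a point -/
def kap (ε : ℤ) (g v : ℕ) (j : Fin 3) : ℤ := ε * g * v * c3 j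

/-- the primes with a negative sign -/
def Es (ε : ℤ) (g v : ℕ) (s : Fin 3 → ℕ) : Finset ℕ :=
  (∏ j, s j).primeFactors.filter (fun p => ∃ j, p ∣ s j ∧ sg0 p (kap ε g v j) = true)

/-- `f` is the part of the values prime to `g` -/
structure Fr (z g : ℕ) (F f : Fin 3 → ℤ) : Prop where
  ne : ∀ j, f j ≠ 0
  iff : ∀ j (p : ℕ), p.Prime → ¬ p ∣ g → ∀ k, (p : ℤ) ^ k ∣ f j ↔ (p : ℤ) ^ k ∣ F j
  nd : ∀ j (p : ℕ), p.Prime → p ∣ g → ¬ (p : ℤ) ∣ f j

lemma LE_of_LL (j : Fin 3) (κ : ℤ) (p : ℕ) (v w h g : Bool)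
    (hL : LL j.castSucc (fun _ => κ) false p v w h g) : LE j (sg0 p κ) v w h g := by
  revert hL
  unfold LL LE
  fin_cases j <;> simp

lemma padic_one {p : ℕ} (hp : p.Prime) {a : ℤ} (ha : a ≠ 0) (h1 : (p : ℤ) ∣ a)
    (h2 : ¬ (p : ℤ) ^ 2 ∣ a) : padicValInt p a = 1 := by
  have : Fact p.Prime := ⟨hp⟩
  apply le_antisymm
  · by_contra h
    push Not at h
    exact h2 ((padicValInt_dvd_iff 2 _).2 (Or.inr (by omega)))
  · rcases (padicValInt_dvd_iff (p := p) 1 a).1 (by simpa using h1) with h | h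
    · exact absurd h ha
    · exact h

lemma prime_mul_sq {p : ℕ} (hp : p.Prime) {a b : ℤ} (ha : ¬ (p : ℤ) ∣ a)
    (hb : ¬ (p : ℤ) ^ 2 ∣ b) : ¬ (p : ℤ) ^ 2 ∣ a * b := by
  intro h
  have hc : IsCoprime ((p : ℤ) ^ 2) a :=
    ((Prime.coprime_iff_not_dvd (Nat.prime_iff_prime_int.1 hp)).2 ha).pow_left
  exact hb (hc.dvd_of_dvd_mul_left h)

/-- **The rank at a point.** -/
theorem rank_pt {z y : ℕ} (hz : 8 ≤ z) (hy : 1 ≤ y) {ε : ℤ} (hε : ε = 1 ∨ ε = -1) {g u v : ℕ}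
    (hg : 0 < g) (hu : 0 < u) (hv : 0 < v) (huv : u.Coprime v) {f : Fin 3 → ℤ}
    (hf : Fr z g (fv α3 β3 (u : ℤ) (v : ℤ)) f) {X K : ℕ} (hb : ∀ j, (f j).natAbs ≤ X ^ 4)
    (hK : X < (y + 1) ^ K) :
    2 ^ Module.finrank ℤ (EAB (ε * g * u) (-(ε * g * (u + v)))).toAffine.Point ≤
      4 ^ (z + 2) * 4 ^ g.primeFactors.card * (4 ^ 12) ^ K *
        4 ^ (∑ j, (S2 z y f j).primeFactors.card) *
        NL (∏ j, S1 z y f j) (LLe (S1 z y f) (Es ε g v (S1 z y f))) := by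
  have hB := bg3 hz
  obtain ⟨s, hs⟩ : ∃ s, s = S1 z y f := ⟨_, rfl⟩
  rw [← hs]
  have hgd : ∀ p : ℕ, p.Prime → z < p → ∀ j l, j ≠ l → ¬ ((p : ℤ) ∣ f j ∧ (p : ℤ) ∣ f l) := by
    intro p hp hzp j l hjl h
    have hpg : ¬ p ∣ g := fun h' => hf.nd j p hp h' h.1
    have e1 : (p : ℤ) ∣ fv α3 β3 (u : ℤ) (v : ℤ) j := by
      simpa using (hf.iff j p hp hpg 1).1 (by simpa using h.1)
    have e2 : (p : ℤ) ∣ fv α3 β3 (u : ℤ) (v : ℤ) l := by
      simpa using (hf.iff l p hp hpg 1).1 (by simpa using h.2)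
    exact Pool.Agent.W571.RT.fv_not_dvd hB hp hzp (Nat.isCoprime_iff_coprime.2 huv) hjl e1 e2
  have hmem : s ∈ Tup (Fin 3) z y := by
    rw [hs]
    exact Pool.Agent.W571.RT.S1_mem hgd
  have hmd : ∏ j, s j ∣ PP z y := Tup_prod_dvd hmem
  have hPSof : ∀ p : ℕ, p.Prime → p ∣ ∏ j, s j → p ∈ PS z y := fun p hp h =>
    (prime_dvd_PP hp).1 (h.trans hmd)
  have hodd2 : ∀ p : ℕ, p.Prime → p ∣ ∏ j, s j → z < p := fun p hp h =>
    (mem_PS.1 (hPSof p hp h)).1.1
  have hgi : (g : ℤ) ≠ 0 := by exact_mod_cast hg.ne'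
  have hui : (u : ℤ) ≠ 0 := by exact_mod_cast hu.ne'
  have hvi : (v : ℤ) ≠ 0 := by exact_mod_cast hv.ne'
  have hε0 : ε ≠ 0 := by rcases hε with h | h <;> rw [h] <;> norm_num
  have hε2 : ε * ε = 1 := by rcases hε with h | h <;> rw [h] <;> norm_num
  have huv0 : (u : ℤ) + v ≠ 0 := by positivity
  have huv2 : 2 * (u : ℤ) + v ≠ 0 := by positivity
  obtain ⟨A, hA⟩ : ∃ A : ℤ, A = ε * g * u := ⟨_, rfl⟩
  obtain ⟨B, hB'⟩ : ∃ B : ℤ, B = -(ε * g * (u + v)) := ⟨_, rfl⟩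
  have hAB : A - B = ε * g * (2 * u + v) := by rw [hA, hB']; ring
  have hA0 : A ≠ 0 := by rw [hA]; exact mul_ne_zero (mul_ne_zero hε0 hgi) hui
  have hB0 : B ≠ 0 := by rw [hB']; exact neg_ne_zero.2 (mul_ne_zero (mul_ne_zero hε0 hgi) huv0)
  have hAB0 : A - B ≠ 0 := by rw [hAB]; exact mul_ne_zero (mul_ne_zero hε0 hgi) huv2
  rw [← hA, ← hB']
  -- facts at a prime of `s`
  have hfact : ∀ (p : ℕ), p.Prime → ∀ j, p ∣ s j → z < p ∧ ¬ (p : ℤ) ∣ g ∧ ¬ (p : ℤ) ∣ ε * g ∧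
      (p : ℤ) ∣ fv α3 β3 (u : ℤ) (v : ℤ) j ∧ ¬ (p : ℤ) ^ 2 ∣ fv α3 β3 (u : ℤ) (v : ℤ) j ∧
      ¬ (p : ℤ) ∣ v := by
    intro p hp j hj
    rw [hs] at hj
    have h1 := (Pool.Agent.W571.RT.S1_dvd_iff hp).1 hj
    have hzp := (mem_PS.1 h1.1).1.1
    have hpg : ¬ p ∣ g := fun h' => hf.nd j p hp h' h1.2.1
    have hpgi : ¬ (p : ℤ) ∣ g := by exact_mod_cast hpg
    have e1 : (p : ℤ) ∣ fv α3 β3 (u : ℤ) (v : ℤ) j := by
      simpa using (hf.iff j p hp hpg 1).1 (by simpa using h1.2.1)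
    have e2 : ¬ (p : ℤ) ^ 2 ∣ fv α3 β3 (u : ℤ) (v : ℤ) j := fun h =>
      h1.2.2 ((hf.iff j p hp hpg 2).2 h)
    refine ⟨hzp, hpgi, ?_, e1, e2,
      Pool.Agent.W571.RT.v_not_dvd hB hp hzp (Nat.isCoprime_iff_coprime.2 huv) e1⟩
    rcases hε with h | h <;> rw [h]
    · simpa using hpgi
    · simpa using hpgi
  have hE : ∀ (p : ℕ), p.Prime → ∀ j, p ∣ s j →
      decide (p ∈ Es ε g v s) = sg0 p (kap ε g v j) := by
    intro p hp j hj
    have huniq : ∀ l, p ∣ s l → l = j := by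
      intro l hl
      by_contra hne
      have h1 := (Pool.Agent.W571.RT.S1_dvd_iff hp).1 (hs ▸ hj)
      have h2 := (Pool.Agent.W571.RT.S1_dvd_iff hp).1 (hs ▸ hl)
      exact hgd p hp (mem_PS.1 h1.1).1.1 l j hne ⟨h2.2.1, h1.2.1⟩
    have hpm : p ∣ ∏ j, s j := hj.trans (dvd_prod_of_mem _ (mem_univ j))
    have hpf : p ∈ (∏ j, s j).primeFactors :=
      Nat.mem_primeFactors.2 ⟨hp, hpm, ne_zero_of_dvd_ne_zero (PP_ne_zero z y) hmd⟩
    rw [Bool.eq_iff_iff, decide_eq_true_iff]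
    unfold Es
    rw [mem_filter]
    constructor
    · rintro ⟨-, l, hl, hl2⟩
      rwa [huniq l hl] at hl2
    · intro h
      exact ⟨hpf, j, hj, h⟩
  have hsquare : ∀ (p : ℕ), p.Prime → ∀ x : ℤ, ¬ (p : ℤ) ∣ x → jacobiSym (x ^ 2) p = 1 :=
    fun p hp x hx => Pool.Agent.W571.RT.jac_sq hp hx
  have hloc : ∀ (p : ℕ), p.Prime → ∀ j, p ∣ s j →
      ¬ (p : ℤ) ∣ kap ε g v j ∧ LocM j.castSucc (kap ε g v j) p A B := by
    intro p hp j hj
    have hpi : Prime (p : ℤ) := Nat.prime_iff_prime_int.1 hp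
    obtain ⟨hzp, hpg, hpεg, e1, e2, hpv⟩ := hfact p hp j hj
    have hk1 : ¬ (p : ℤ) ∣ ε * g * v := fun h => (hpi.dvd_or_dvd h).elim hpεg hpv
    have hp2 : ¬ (p : ℤ) ∣ 2 := by
      intro h
      have h4 : p ∣ 2 := by exact_mod_cast h
      have h5 := Nat.le_of_dvd (by norm_num) h4
      omega
    have hgv : ¬ (p : ℤ) ∣ (g : ℤ) * v := fun h => (hpi.dvd_or_dvd h).elim hpg hpv
    have hj3 := cases3 j
    rcases hj3 with rfl | rfl | rfl
    · rw [fv30] at e1 e2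
      have hpuv : ¬ (p : ℤ) ∣ (u : ℤ) + v := fun h => hpv ((dvd_add_right e1).1 h)
      have hkap : kap ε g v 0 = ε * g * v := by
        show ε * g * v * 1 = _
        ring
      rw [hkap]
      refine ⟨hk1, ?_⟩
      show (p : ℤ) ∣ A ∧ ¬ (p : ℤ) ∣ B ∧ jacobiSym (ε * g * v * (-B)) p = 1 ∧
        (Odd (padicValInt p A) ∨ jacobiSym (ε * g * v) p = 1)
      refine ⟨by rw [hA]; exact e1.mul_left _, ?_, ?_, Or.inl ?_⟩
      · rw [hB', dvd_neg]
        exact fun h => (hpi.dvd_or_dvd h).elim hpεg hpuv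
      · have : ε * g * v * (-B) ≡ ((g : ℤ) * v) ^ 2 [ZMOD p] := by
          rw [Int.modEq_iff_dvd]
          have e : ((g : ℤ) * v) ^ 2 - ε * g * v * (-B) = u * (-(g ^ 2 * v)) := by
            rw [hB']
            linear_combination (-(g : ℤ) ^ 2 * v * (u + v)) * hε2
          rw [e]
          exact e1.mul_right _
        rw [jacobiSym.mod_left' this]
        exact hsquare p hp _ hgv
      · have : padicValInt p A = 1 := padic_one hp hA0 (by rw [hA]; exact e1.mul_left _)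
          (by rw [hA]; exact prime_mul_sq hp hpεg e2)
        rw [this]
        exact odd_one
    · rw [fv31] at e1 e2
      have hpu : ¬ (p : ℤ) ∣ (u : ℤ) := fun h => hpv ((dvd_add_right h).1 e1)
      have hkap : kap ε g v 1 = ε * g * v := by
        show ε * g * v * 1 = _
        ring
      rw [hkap]
      refine ⟨hk1, ?_⟩
      show (p : ℤ) ∣ B ∧ ¬ (p : ℤ) ∣ A ∧ jacobiSym (ε * g * v * (-A)) p = 1 ∧
        (Odd (padicValInt p B) ∨ jacobiSym (ε * g * v) p = 1)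
      refine ⟨by rw [hB', dvd_neg]; exact e1.mul_left _, ?_, ?_, Or.inl ?_⟩
      · rw [hA]
        exact fun h => (hpi.dvd_or_dvd h).elim hpεg hpu
      · have : ε * g * v * (-A) ≡ ((g : ℤ) * v) ^ 2 [ZMOD p] := by
          rw [Int.modEq_iff_dvd]
          have e : ((g : ℤ) * v) ^ 2 - ε * g * v * (-A) = ((u : ℤ) + v) * (g ^ 2 * v) := by
            rw [hA]
            linear_combination ((g : ℤ) ^ 2 * v * u) * hε2
          rw [e]
          exact e1.mul_right _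
        rw [jacobiSym.mod_left' this]
        exact hsquare p hp _ hgv
      · have : padicValInt p B = 1 := padic_one hp hB0
          (by rw [hB', dvd_neg]; exact e1.mul_left _)
          (by rw [hB', dvd_neg]; exact prime_mul_sq hp hpεg e2)
        rw [this]
        exact odd_one
    · rw [fv32] at e1 e2
      have hpu : ¬ (p : ℤ) ∣ (u : ℤ) := fun h => hpv ((dvd_add_right (h.mul_left 2)).1 e1)
      have hkap : kap ε g v 2 = ε * g * v * (-2) := rfl
      rw [hkap]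
      refine ⟨fun h => (hpi.dvd_or_dvd h).elim hk1 (fun h' => hp2 (by rwa [dvd_neg] at h')), ?_⟩
      show (p : ℤ) ∣ A - B ∧ ¬ (p : ℤ) ∣ A ∧ jacobiSym (ε * g * v * (-2) * A) p = 1 ∧
        (Odd (padicValInt p (A - B)) ∨ jacobiSym (ε * g * v * (-2)) p = 1)
      refine ⟨by rw [hAB]; exact e1.mul_left _, ?_, ?_, Or.inl ?_⟩
      · rw [hA]
        exact fun h => (hpi.dvd_or_dvd h).elim hpεg hpu
      · have : ε * g * v * (-2) * A ≡ ((g : ℤ) * v) ^ 2 [ZMOD p] := by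
          rw [Int.modEq_iff_dvd]
          have e : ((g : ℤ) * v) ^ 2 - ε * g * v * (-2) * A = (2 * (u : ℤ) + v) * (g ^ 2 * v) := by
            rw [hA]
            linear_combination (2 * (g : ℤ) ^ 2 * v * u) * hε2
          rw [e]
          exact e1.mul_right _
        rw [jacobiSym.mod_left' this]
        exact hsquare p hp _ hgv
      · have : padicValInt p (A - B) = 1 := padic_one hp hAB0
          (by rw [hAB]; exact e1.mul_left _)
          (by rw [hAB]; exact prime_mul_sq hp hpεg e2)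
        rw [this]
        exact odd_one
  have hd := Pool.Agent.W214.RK2.desc4 (∏ j, s j) (LLe s (Es ε g v s)) A B hA0 hB0
    (sub_ne_zero.1 hAB0)
    (by
      rw [← Nat.not_even_iff_odd, even_iff_two_dvd]
      intro h
      have := hodd2 2 Nat.prime_two h
      omega)
    ((PP_squarefree z y).squarefree_of_dvd hmd)
    (fun p hp hpd => ⟨fun j hj => (xc_LE j _).1,
      fun a1 b1 c1 d1 a2 b2 c2 d2 e1 e2 j hj =>
        (xc_LE j _).2 a1 b1 c1 d1 a2 b2 c2 d2 (e1 j hj) (e2 j hj)⟩)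
    (fun p hp hpd x x' hx' hcurve e1 e2 he1 he2 hsq1 hsq2 j hj => by
      have hpp : p.Prime := Fact.out
      obtain ⟨h1, h2⟩ := hloc p hpp j hj
      have hzp := hodd2 p hpp hpd
      have hfin := Pool.Agent.W571.RT.locm j.castSucc (kap ε g v j) p A B
        (cs_ne j) (by omega) h1 hA0 hB0 (sub_ne_zero.1 hAB0) h2 x x' hx' hcurve
        e1 e2 he1 he2 hsq1 hsq2
      rw [hE p hpp j hj]
      exact LE_of_LL j _ p _ _ _ _ hfin)
  refine hd.trans (Nat.mul_le_mul_right _ ?_)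
  have hsub : ((2 * A * B * (A - B)).natAbs.primeFactors.filter (fun q => ¬ q ∣ ∏ j, s j)) ⊆
      (((Icc 1 z) ∪ g.primeFactors) ∪
        univ.biUnion (fun j => (f j).natAbs.primeFactors.filter (y < ·))) ∪
        univ.biUnion (fun j => (S2 z y f j).primeFactors) := by
    intro q hq
    rw [mem_filter] at hq
    have hp := Nat.prime_of_mem_primeFactors hq.1
    have hdv := Nat.dvd_of_mem_primeFactors hq.1
    rw [mem_union, mem_union, mem_union, mem_Icc]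
    rcases Nat.lt_or_ge z q with h | h
    swap
    · exact Or.inl (Or.inl (Or.inl ⟨hp.one_lt.le, h⟩))
    by_cases hqg : q ∣ g
    · exact Or.inl (Or.inl (Or.inr (Nat.mem_primeFactors.2 ⟨hp, hqg, hg.ne'⟩)))
    have hqi : Prime (q : ℤ) := Nat.prime_iff_prime_int.1 hp
    have hqgi : ¬ (q : ℤ) ∣ g := by exact_mod_cast hqg
    have hdv2 : (q : ℤ) ∣ 2 * A * B * (A - B) := Int.natCast_dvd.2 hdv
    have hqε : ¬ (q : ℤ) ∣ ε * g := by
      rcases hε with h | h <;> rw [h]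
      · simpa using hqgi
      · simpa using hqgi
    have hk : ∃ l, (q : ℤ) ∣ fv α3 β3 (u : ℤ) (v : ℤ) l := by
      rcases hqi.dvd_or_dvd hdv2 with h1 | h1
      · rcases hqi.dvd_or_dvd h1 with h2 | h2
        · rcases hqi.dvd_or_dvd h2 with h3 | h3
          · exfalso
            have h4 : q ∣ 2 := by exact_mod_cast h3
            have h5 := Nat.le_of_dvd (by norm_num) h4
            omega
          · rw [hA] at h3
            exact ⟨0, by rw [fv30]; exact (hqi.dvd_or_dvd h3).resolve_left hqε⟩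
        · rw [hB', dvd_neg] at h2
          exact ⟨1, by rw [fv31]; exact (hqi.dvd_or_dvd h2).resolve_left hqε⟩
      · rw [hAB] at h1
        exact ⟨2, by rw [fv32]; exact (hqi.dvd_or_dvd h1).resolve_left hqε⟩
    obtain ⟨l, hl0⟩ := hk
    have hl : (q : ℤ) ∣ f l := by
      simpa using (hf.iff l q hp hqg 1).2 (by simpa using hl0)
    rcases Nat.lt_or_ge y q with hyq | hyq
    · left; right
      rw [mem_biUnion]
      refine ⟨l, mem_univ _, ?_⟩
      rw [mem_filter, Nat.mem_primeFactors]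
      exact ⟨⟨hp, Int.natCast_dvd.1 hl, Int.natAbs_ne_zero.2 (hf.ne l)⟩, hyq⟩
    · right
      have hPS : q ∈ PS z y := mem_PS.2 ⟨⟨h, hyq⟩, hp⟩
      rw [mem_biUnion]
      refine ⟨l, mem_univ _, ?_⟩
      have hsq : (q : ℤ) ^ 2 ∣ f l := by
        by_contra hcon
        apply hq.2
        refine dvd_trans ?_ (dvd_prod_of_mem _ (mem_univ l))
        rw [hs]
        exact dvd_prod_of_mem _ (mem_filter.2 ⟨hPS, hl, hcon⟩)
      rw [Nat.mem_primeFactors]
      refine ⟨hp, dvd_prod_of_mem _ (mem_filter.2 ⟨hPS, hsq⟩), ?_⟩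
      exact prod_ne_zero_iff.2 fun p hp => (mem_PS.1 (mem_filter.1 hp).1).2.ne_zero
  have hone : ∀ j, ((f j).natAbs.primeFactors.filter (y < ·)).card ≤ 4 * K := by
    intro j
    set S := (f j).natAbs.primeFactors.filter (y < ·) with hS
    have h1 : (y + 1) ^ S.card ≤ ∏ q ∈ S, q :=
      Finset.pow_card_le_prod _ _ _ (fun q hq => by
        have := (mem_filter.1 hq).2
        omega)
    have h2 : ∏ q ∈ S, q ∣ (f j).natAbs :=
      (prod_dvd_prod_of_subset _ _ _ (filter_subset _ _)).trans (Nat.prod_primeFactors_dvd _)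
    have h3 : ∏ q ∈ S, q ≤ (f j).natAbs :=
      Nat.le_of_dvd (Nat.pos_of_ne_zero (Int.natAbs_ne_zero.2 (hf.ne j))) h2
    have h4 : (y + 1) ^ S.card < (y + 1) ^ (4 * K) := by
      calc (y + 1) ^ S.card ≤ X ^ 4 := h1.trans (h3.trans (hb j))
        _ < ((y + 1) ^ K) ^ 4 := Nat.pow_lt_pow_left hK (by norm_num)
        _ = (y + 1) ^ (4 * K) := by rw [← pow_mul, mul_comm]
    exact ((Nat.pow_lt_pow_iff_right (by omega)).1 h4).le
  have hc : ((2 * A * B * (A - B)).natAbs.primeFactors.filter (fun q => ¬ q ∣ ∏ j, s j)).card ≤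
      z + g.primeFactors.card + 12 * K + ∑ j, (S2 z y f j).primeFactors.card := by
    refine (card_le_card hsub).trans ((card_union_le _ _).trans (add_le_add
      ((card_union_le _ _).trans (add_le_add ((card_union_le _ _).trans ?_) ?_)) card_biUnion_le))
    · simp
    · refine card_biUnion_le.trans ?_
      refine (sum_le_sum fun j _ => hone j).trans ?_
      rw [sum_const, card_univ, smul_eq_mul, Fintype.card_fin]
      omega
  calc 4 ^ (((2 * A * B * (A - B)).natAbs.primeFactors.filter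
        (fun q => ¬ q ∣ ∏ j, s j)).card + 2)
      ≤ 4 ^ ((z + 2) + g.primeFactors.card + 12 * K + ∑ j, (S2 z y f j).primeFactors.card) :=
        Nat.pow_le_pow_right (by norm_num) (by omega)
    _ = _ := by
        rw [pow_add, pow_add, pow_add, pow_mul]

end Pool.Agent.H82.FT
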