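import Pool.Agent.H82.FT.Up
import Pool.Agent.H82.RO.Main
import Pool.Agent.TH867.SR.LB

/-!
# All curves with full rational two-torsion in the three orderings
-/

set_option autoImplicit false

namespace Pool.Agent.H82.FT

open Finset Pool.Agent.W262.RK Pool.Agent.W307.RT
open Pool.Agent.H82.RO (Fam Dsc Cond6 Hgt W Mn dsc_le_hgt Comparable Concl finish one_le_W)
open Pool.Agent.Y679.Par (Gd mo mid g6 g6_pos g6_dvd nn_pos')
open Pool.Agent.TH498.AR (nn)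

/-- the pair of a curve -/
theorem exists_pr : ∃ F0 : ℤ × ℤ → ℕ × ℕ, ∀ c ∈ Fam 2, Gd (F0 c) ∧ cv (F0 c) = c := by
  classical
  refine ⟨fun c => if h : c ∈ Fam 2 then (cv_surj h).choose else (0, 0), fun c hc => ?_⟩
  simp only [dif_pos hc]
  exact (cv_surj hc).choose_spec

theorem sum_transfer : ∃ F0 : ℤ × ℤ → ℕ × ℕ, (∀ c ∈ Fam 2, Gd (F0 c) ∧ cv (F0 c) = c) ∧
    ∀ S : Finset (ℤ × ℤ), (∀ c ∈ S, c ∈ Fam 2) → ∑ c ∈ S, W c = ∑ p ∈ S.image F0, fw p := by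
  classical
  obtain ⟨F0, hF0⟩ := exists_pr
  refine ⟨F0, hF0, fun S hS => ?_⟩
  rw [sum_image fun c hc c' hc' h => by
    rw [← (hF0 c (hS c hc)).2, ← (hF0 c' (hS c' hc')).2, h]]
  refine sum_congr rfl fun c hc => ?_
  obtain ⟨h1, h2⟩ := hF0 c (hS c hc)
  have h3 := rank_cv h1
  rw [h2] at h3
  unfold W fw
  rw [h3]

theorem upper_cond : ∃ C : ℝ, ∀ X : ℝ, 1 ≤ X → ∀ S : Finset (ℤ × ℤ),
    (∀ c ∈ S, c ∈ Fam 2 ∧ (Cond6 c : ℝ) ≤ X) → ∑ c ∈ S, W c ≤ C * X ^ (2 / ((3 : ℕ) : ℝ)) := by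
  classical
  obtain ⟨F0, hF0, htr⟩ := sum_transfer
  obtain ⟨C, hC⟩ := up_cond
  refine ⟨C, fun X hX S hS => ?_⟩
  rw [htr S fun c hc => (hS c hc).1]
  push_cast
  refine hC X hX _ fun p hp => ?_
  obtain ⟨c, hc, rfl⟩ := mem_image.1 hp
  obtain ⟨h1, h2⟩ := hF0 c (hS c hc).1
  refine ⟨h1, ?_⟩
  rw [← cond_cv h1, h2]
  exact (hS c hc).2

theorem upper_disc : ∃ C : ℝ, ∀ X : ℝ, 1 ≤ X → ∀ S : Finset (ℤ × ℤ),
    (∀ c ∈ S, c ∈ Fam 2 ∧ (Dsc c : ℝ) ≤ X) → ∑ c ∈ S, W c ≤ C * X ^ (2 / ((6 : ℕ) : ℝ)) := by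
  classical
  obtain ⟨F0, hF0, htr⟩ := sum_transfer
  obtain ⟨C, hC⟩ := up_disc
  refine ⟨C, fun X hX S hS => ?_⟩
  rw [htr S fun c hc => (hS c hc).1]
  have e : (2 / ((6 : ℕ) : ℝ)) = 1 / 3 := by norm_num
  rw [e]
  refine hC X hX _ fun p hp => ?_
  obtain ⟨c, hc, rfl⟩ := mem_image.1 hp
  obtain ⟨h1, h2⟩ := hF0 c (hS c hc).1
  refine ⟨⟨h1.1, h1.2.1⟩, ?_⟩
  have h3 := dsc_cv h1
  rw [h2] at h3
  have h4 := (hS c hc).2
  rw [h3] at h4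
  exact_mod_cast h4

theorem upper_hgt : ∃ C : ℝ, ∀ X : ℝ, 1 ≤ X → ∀ S : Finset (ℤ × ℤ),
    (∀ c ∈ S, c ∈ Fam 2 ∧ (Hgt c : ℝ) ≤ X) → ∑ c ∈ S, W c ≤ C * X ^ (2 / ((6 : ℕ) : ℝ)) := by
  obtain ⟨C, hC⟩ := upper_disc
  refine ⟨C * 2 ^ (2 / ((6 : ℕ) : ℝ)), fun X hX S hS => ?_⟩
  have h1 := hC (2 * X) (by linarith) S (fun c hc => by
    refine ⟨(hS c hc).1, ?_⟩
    have h2 : (Dsc c : ℝ) ≤ 2 * Hgt c := by exact_mod_cast dsc_le_hgt c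
    linarith [(hS c hc).2])
  rw [Real.mul_rpow (by norm_num) (by linarith)] at h1
  linarith

/-- **Many curves.** -/
theorem lower : ∃ (c : ℝ) (K T0 : ℕ), 0 < c ∧ ∀ T : ℕ, T0 ≤ T →
    ∃ F : Finset (ℤ × ℤ), (∀ x ∈ F, x ∈ Fam 2 ∧ Hgt x ≤ K * T ^ 6 ∧
      Dsc x ≤ K * T ^ 6 ∧ Cond6 x ≤ K * T ^ 3) ∧ c * (T : ℝ) ^ 2 ≤ F.card := by
  classical
  refine ⟨1 / 8, 5832, 1, by norm_num, fun T hT => ?_⟩
  obtain ⟨Q, hQ⟩ : ∃ Q, Q = Pool.Agent.TH867.SR.cpp T := ⟨_, rfl⟩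
  have hQm : ∀ p ∈ Q, (0 < p.1 ∧ p.1 ≤ T) ∧ (0 < p.2 ∧ p.2 ≤ T) ∧ Nat.Coprime p.1 p.2 := by
    intro p hp
    rw [hQ, Pool.Agent.TH867.SR.cpp, mem_filter, mem_product, mem_Ioc, mem_Ioc] at hp
    exact ⟨hp.1.1, hp.1.2, hp.2.2⟩
  have hG : ∀ p ∈ Q, Gd (3 * p.1, 3 * p.2) := by
    intro p hp
    obtain ⟨⟨a1, -⟩, ⟨a2, -⟩, a3⟩ := hQm p hp
    refine ⟨by simp only; omega, by simp only; omega, ?_, ?_, ?_⟩
    · simp only
      push_cast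
      exact ⟨(p.1 : ℤ) - p.2, by ring⟩
    · rintro q hq hq3 ⟨c1, c2⟩
      simp only at c1 c2
      have h3 : Nat.Coprime (q ^ 2) 3 :=
        Nat.Coprime.pow_left _ ((Nat.coprime_primes hq Nat.prime_three).mpr hq3)
      have d1 := (dvd_pow_self q two_ne_zero).trans (h3.dvd_of_dvd_mul_left c1)
      have d2 := (dvd_pow_self q two_ne_zero).trans (h3.dvd_of_dvd_mul_left c2)
      exact Nat.not_coprime_of_dvd_of_dvd hq.one_lt d1 d2 a3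
    · rintro ⟨c1, c2⟩
      simp only at c1 c2
      have d1 : 3 ∣ p.1 := by omega
      have d2 : (9 : ℤ) ∣ (p.1 : ℤ) - p.2 := by
        obtain ⟨k, hk⟩ := c2
        push_cast at hk
        exact ⟨k, by linarith⟩
      have d3 : (3 : ℤ) ∣ (p.2 : ℤ) := by
        have e1 : (3 : ℤ) ∣ (p.1 : ℤ) := by exact_mod_cast d1
        have e2 : (3 : ℤ) ∣ (p.1 : ℤ) - p.2 := (by norm_num : (3 : ℤ) ∣ 9).trans d2
        have e3 := dvd_sub e1 e2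
        rwa [sub_sub_cancel] at e3
      have d4 : 3 ∣ p.2 := by exact_mod_cast d3
      exact Nat.not_coprime_of_dvd_of_dvd (by norm_num) d1 d4 a3
  refine ⟨Q.image (fun p => cv (3 * p.1, 3 * p.2)), ?_, ?_⟩
  · intro x hx
    obtain ⟨p, hp, rfl⟩ := mem_image.1 hx
    obtain ⟨⟨a1, b1⟩, ⟨a2, b2⟩, -⟩ := hQm p hp
    have hg := hG p hp
    have hh := hgt_cv hg
    simp only at hh
    have hH : Hgt (cv (3 * p.1, 3 * p.2)) ≤ 2916 * T ^ 6 := by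
      have h1 : (3 * p.1) ^ 2 + (3 * p.1) * (3 * p.2) + (3 * p.2) ^ 2 ≤ 27 * T ^ 2 := by
        have h2 : p.1 ^ 2 ≤ T ^ 2 := Nat.pow_le_pow_left b1 2
        have h3 : p.2 ^ 2 ≤ T ^ 2 := Nat.pow_le_pow_left b2 2
        have h4 : p.1 * p.2 ≤ T ^ 2 := by rw [pow_two]; exact Nat.mul_le_mul b1 b2
        have e : (3 * p.1) ^ 2 + (3 * p.1) * (3 * p.2) + (3 * p.2) ^ 2 =
            9 * (p.1 ^ 2 + p.1 * p.2 + p.2 ^ 2) := by ring
        rw [e]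
        omega
      have h2 := Nat.pow_le_pow_left h1 3
      have e : (27 * T ^ 2) ^ 3 = 27 * (729 * T ^ 6) := by ring
      rw [e] at h2
      omega
    refine ⟨cv_mem hg, hH.trans (Nat.mul_le_mul_right _ (by norm_num)), ?_, ?_⟩
    · have := dsc_le_hgt (cv (3 * p.1, 3 * p.2))
      omega
    · rw [cond_cv hg]
      refine (Nat.le_of_dvd (nn_pos' hg) (g6_dvd hg.1 hg.2.1)).trans ?_
      unfold nn
      simp only
      have h1 : 3 * p.1 ≤ 3 * T := Nat.mul_le_mul_left _ b1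
      have h2 : 3 * p.2 ≤ 3 * T := Nat.mul_le_mul_left _ b2
      calc 3 * p.1 * (3 * p.2) * (3 * p.1 + 3 * p.2) ≤ 3 * T * (3 * T) * (3 * T + 3 * T) :=
            Nat.mul_le_mul (Nat.mul_le_mul h1 h2) (add_le_add h1 h2)
        _ = 54 * T ^ 3 := by ring
        _ ≤ _ := Nat.mul_le_mul_right _ (by norm_num)
  · rw [card_image_of_injOn]
    · have := Pool.Agent.TH867.SR.coprime_count T hT
      rw [← hQ] at this
      linarith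
    · intro p hp p' hp' h
      have := cv_inj (hG p hp) (hG p' hp') h
      simp only [Prod.mk.injEq] at this
      exact Prod.ext (by omega) (by omega)

/-- **By conductor.** -/
theorem main_cond (I : ℤ × ℤ → ℝ) (hI : Comparable 2 (fun c => (Cond6 c : ℝ)) I) :
    Concl 2 I (2 / ((3 : ℕ) : ℝ)) := by
  classical
  obtain ⟨c, K, T0, hc, hl⟩ := lower
  refine finish (Fam 2) W one_le_W (fun c => (Cond6 c : ℝ)) I (fun _ => Nat.cast_nonneg _)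
    3 (by omega) upper_cond ⟨c, K, T0, hc, fun T hT => ?_⟩ hI
  obtain ⟨F, hF, hF2⟩ := hl T hT
  exact ⟨F, fun x hx => ⟨(hF x hx).1, by exact_mod_cast (hF x hx).2.2.2⟩, hF2⟩

/-- **By discriminant and by height.** -/
theorem main_disc (I : ℤ × ℤ → ℝ)
    (hI : Comparable 2 (fun c => (Dsc c : ℝ)) I ∨ Comparable 2 (fun c => (Hgt c : ℝ)) I) :
    Concl 2 I (2 / ((6 : ℕ) : ℝ)) := by
  classical
  obtain ⟨c, K, T0, hc, hl⟩ := lower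
  rcases hI with hI | hI
  · refine finish (Fam 2) W one_le_W (fun c => (Dsc c : ℝ)) I (fun _ => Nat.cast_nonneg _)
      6 (by omega) upper_disc ⟨c, K, T0, hc, fun T hT => ?_⟩ hI
    obtain ⟨F, hF, hF2⟩ := hl T hT
    exact ⟨F, fun x hx => ⟨(hF x hx).1, by exact_mod_cast (hF x hx).2.2.1⟩, hF2⟩
  · refine finish (Fam 2) W one_le_W (fun c => (Hgt c : ℝ)) I (fun _ => Nat.cast_nonneg _)
      6 (by omega) upper_hgt ⟨c, K, T0, hc, fun T hT => ?_⟩ hI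
    obtain ⟨F, hF, hF2⟩ := hl T hT
    exact ⟨F, fun x hx => ⟨(hF x hx).1, by exact_mod_cast (hF x hx).2.1⟩, hF2⟩

end Pool.Agent.H82.FT
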