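import Pool.Agent.H82.FT.Fam2
import Pool.Agent.H82.RO.Mom
import Pool.Agent.H82.RO.Core

/-!
# Upper bounds for the weighted sums over the pairs
-/

set_option autoImplicit false

namespace Pool.Agent.H82.FT

open Finset Pool.Agent.W262.RK Pool.Agent.W307.RT
open Pool.Agent.H925R.Szpiro (D IsMin FullS condS)
open Pool.Agent.Y679.Par (Gd mo mid g6 g6_pos g6_dvd nn_pos' mo_cond mo_min mo_full mo_inj Md Md_fin)
open Pool.Agent.Y679.Jl (H_le Hh mo_H)
open Pool.Agent.TH498.AR (nn)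

/-- the weight of a pair -/
noncomputable def fw (p : ℕ × ℕ) : ℝ := (5 / 4 : ℝ) ^ rab p.swap

theorem fw_nonneg (p : ℕ × ℕ) : 0 ≤ fw p := by unfold fw; positivity

theorem fw_le (p : ℕ × ℕ) : fw p ≤ (2 : ℝ) ^ rab p.swap :=
  pow_le_pow_left₀ (by norm_num) (by norm_num) _

theorem fw_pow_le (p : ℕ × ℕ) : fw p ^ ((31 : ℝ) / 10) ≤ (2 : ℝ) ^ rab p.swap := by
  unfold fw
  rw [← Real.rpow_natCast, ← Real.rpow_mul (by norm_num), mul_comm, Real.rpow_mul (by norm_num),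
    Real.rpow_natCast]
  refine pow_le_pow_left₀ (by positivity) ?_ _
  have h : ((5 / 4 : ℝ) ^ ((31 : ℝ) / 10)) ^ (10 : ℕ) ≤ 2 ^ (10 : ℕ) := by
    rw [← Real.rpow_natCast, ← Real.rpow_mul (by norm_num)]
    have : ((31 : ℝ) / 10 * ((10 : ℕ) : ℝ)) = ((31 : ℕ) : ℝ) := by norm_num
    rw [this, Real.rpow_natCast]
    norm_num
  exact le_of_pow_le_pow_left₀ (by norm_num) (by norm_num) h

/-- the larger coordinate -/
def ht (p : ℕ × ℕ) : ℕ := max p.1 p.2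

theorem fw_mom : ∃ G : ℝ, 1 ≤ G ∧ ∀ T : ℝ, 1 ≤ T → ∀ F : Finset (ℕ × ℕ),
    (∀ p ∈ F, (0 < p.1 ∧ 0 < p.2) ∧ (ht p : ℝ) ≤ T) →
      ∑ p ∈ F, fw p ^ ((31 : ℝ) / 10) ≤ G * T ^ 2 ∧ ∑ p ∈ F, fw p ≤ G * T ^ 2 := by
  classical
  obtain ⟨C, hC, hb⟩ := mom_pairs
  refine ⟨C + 1, by linarith, fun T hT F hF => ?_⟩
  have hT0 : 0 ≤ T := by linarith
  have hn1 : 1 ≤ ⌊T⌋₊ := Nat.le_floor (by simpa using hT)
  have hnT : (⌊T⌋₊ : ℝ) ≤ T := Nat.floor_le hT0
  have h1 := hb ⌊T⌋₊ hn1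
  have h2 : ∑ p ∈ F, (2 : ℝ) ^ rab p.swap ≤ ∑ p ∈ (Icc 1 ⌊T⌋₊) ×ˢ (Icc 1 ⌊T⌋₊), (2 : ℝ) ^ rab p := by
    rw [← sum_image (s := F) (g := Prod.swap) (f := fun p => (2 : ℝ) ^ rab p)
      (fun p _ p' _ h => Prod.swap_injective h)]
    refine sum_le_sum_of_subset_of_nonneg ?_ fun _ _ _ => by positivity
    intro q hq
    obtain ⟨p, hp, rfl⟩ := mem_image.1 hq
    obtain ⟨⟨a1, a2⟩, a3⟩ := hF p hp
    have a4 : ht p ≤ ⌊T⌋₊ := Nat.le_floor a3
    unfold ht at a4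
    have a5 : p.1 ≤ ⌊T⌋₊ := (le_max_left _ _).trans a4
    have a6 : p.2 ≤ ⌊T⌋₊ := (le_max_right _ _).trans a4
    rw [mem_product, mem_Icc, mem_Icc]
    exact ⟨⟨a2, a6⟩, ⟨a1, a5⟩⟩
  have h3 : C * (⌊T⌋₊ : ℝ) ^ 2 ≤ (C + 1) * T ^ 2 :=
    mul_le_mul (by linarith) (pow_le_pow_left₀ (Nat.cast_nonneg _) hnT 2) (by positivity)
      (by linarith)
  constructor
  · exact ((sum_le_sum fun p _ => fw_pow_le p).trans h2).trans (h1.trans h3)
  · exact ((sum_le_sum fun p _ => fw_le p).trans h2).trans (h1.trans h3)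

theorem fw_pt (ε : ℝ) (hε : 0 < ε) : ∃ C : ℝ, 0 < C ∧ ∀ p : ℕ × ℕ, 0 < p.1 → 0 < p.2 →
    fw p ≤ C * (g6 p : ℝ) ^ ε := by
  classical
  obtain ⟨C, hC, h⟩ := four_pow_nat ε hε
  refine ⟨256 * C, by positivity, fun p h1 h2 => ?_⟩
  have hnn : 0 < nn p := by unfold nn; positivity
  have a1 : (p.2 : ℤ) ≠ 0 := by exact_mod_cast h2.ne'
  have a2 : -(p.1 : ℤ) ≠ 0 := neg_ne_zero.2 (by exact_mod_cast h1.ne')
  have a3 : (p.2 : ℤ) ≠ -(p.1 : ℤ) := by omega
  have h5 := Pool.Agent.H82.RO.rank_le a1 a2 a3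
  have hn2 : (2 * (p.2 : ℤ) * -(p.1 : ℤ) * ((p.2 : ℤ) - -(p.1 : ℤ))).natAbs = 2 * nn p := by
    have e : 2 * (p.2 : ℤ) * -(p.1 : ℤ) * ((p.2 : ℤ) - -(p.1 : ℤ)) = -((2 * nn p : ℕ) : ℤ) := by
      unfold nn
      push_cast
      ring
    rw [e, Int.natAbs_neg, Int.natAbs_natCast]
  rw [hn2] at h5
  have hcard : (2 * nn p).primeFactors.card ≤ 2 + (g6 p).primeFactors.card := by
    have hsub : (2 * nn p).primeFactors ⊆ {2, 3} ∪ (g6 p).primeFactors := by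
      intro q hq
      have hqp := Nat.prime_of_mem_primeFactors hq
      have hqd := Nat.dvd_of_mem_primeFactors hq
      rw [mem_union, mem_insert, mem_singleton]
      have hq2 := hqp.two_le
      rcases Nat.lt_or_ge q 5 with hlt | hge
      · left
        interval_cases q
        · left; rfl
        · right; rfl
        · exact absurd hqp (by decide)
      · right
        have hqn : q ∣ nn p := by
          rcases (Nat.Prime.dvd_mul hqp).1 hqd with h | h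
          · exact absurd (Nat.le_of_dvd (by norm_num) h) (by omega)
          · exact h
        rw [Nat.mem_primeFactors]
        refine ⟨hqp, ?_, (g6_pos p).ne'⟩
        unfold g6
        refine dvd_trans ?_ (dvd_prod_of_mem _ (mem_filter.2
          ⟨Nat.mem_primeFactors.2 ⟨hqp, hqn, hnn.ne'⟩, hge⟩))
        split_ifs
        · exact dvd_pow_self q two_ne_zero
        · exact dvd_rfl
    exact (card_le_card hsub).trans ((card_union_le _ _).trans (Nat.add_le_add_right card_le_two _))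
  calc fw p ≤ (2 : ℝ) ^ rab p.swap := fw_le p
    _ ≤ 4 ^ ((2 * nn p).primeFactors.card + 2) := by
        unfold rab
        exact_mod_cast h5
    _ ≤ 4 ^ ((2 + (g6 p).primeFactors.card) + 2) :=
        pow_le_pow_right₀ (by norm_num) (Nat.add_le_add_right hcard _)
    _ = 256 * 4 ^ (g6 p).primeFactors.card := by
        rw [show (2 + (g6 p).primeFactors.card) + 2 = 4 + (g6 p).primeFactors.card by ring, pow_add]
        norm_num
    _ ≤ 256 * (C * (g6 p : ℝ) ^ ε) := by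
        have := h (g6 p) (g6_pos p)
        linarith
    _ = _ := by ring

/-- **By discriminant.** -/
theorem up_disc : ∃ C : ℝ, ∀ X : ℝ, 1 ≤ X → ∀ F : Finset (ℕ × ℕ),
    (∀ p ∈ F, (0 < p.1 ∧ 0 < p.2) ∧ ((nn p : ℕ) : ℝ) ^ 2 ≤ X) →
    ∑ p ∈ F, fw p ≤ C * X ^ ((1 : ℝ) / 3) := by
  classical
  obtain ⟨G, hG1, hG⟩ := fw_mom
  obtain ⟨C, hC, hsh⟩ := Pool.Agent.H82.RO.shells (31 / 10) 1 (by norm_num) (by norm_num)
  refine ⟨C * (G + 4), fun X hX F hF => ?_⟩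
  have hX0 : 0 < X := by linarith
  obtain ⟨y, hy⟩ : ∃ y : ℝ, y = X ^ ((1 : ℝ) / 6) := ⟨_, rfl⟩
  have hy0 : 0 < y := by rw [hy]; positivity
  have hy1 : 1 ≤ y := by rw [hy]; exact Real.one_le_rpow hX (by norm_num)
  have hy2 : y ^ 2 = X ^ ((1 : ℝ) / 3) := by
    rw [hy, ← Real.rpow_natCast, ← Real.rpow_mul hX0.le]
    norm_num
  have hy6 : y ^ 6 = X := by
    rw [hy, ← Real.rpow_natCast, ← Real.rpow_mul hX0.le]
    norm_num
  have hnn : ∀ p ∈ F, (nn p : ℝ) ≤ y ^ 3 := by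
    intro p hp
    have h := (hF p hp).2
    rw [← hy6] at h
    have e : y ^ 6 = (y ^ 3) ^ 2 := by ring
    rw [e] at h
    exact le_of_sq_le_sq h (by positivity)
  have h := hsh (ℕ × ℕ) F (fun p => (ht p : ℝ)) fw y (G + 4) hy1 (by linarith)
    (fun p _ => fw_nonneg p) ?_ ?_ ?_
  · rw [hy2] at h
    exact h
  · intro T hT
    have h1 := (hG T hT (F.filter (fun p => (ht p : ℝ) ≤ T)) fun p hp =>
      ⟨(hF p (mem_filter.1 hp).1).1, (mem_filter.1 hp).2⟩).1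
    refine h1.trans ?_
    exact mul_le_mul_of_nonneg_right (by linarith) (by positivity)
  · have h1 := (hG y hy1 (F.filter (fun p => (ht p : ℝ) ≤ y)) fun p hp =>
      ⟨(hF p (mem_filter.1 hp).1).1, (mem_filter.1 hp).2⟩).2
    refine h1.trans ?_
    exact mul_le_mul_of_nonneg_right (by linarith) (by positivity)
  · intro k
    obtain ⟨A, hA⟩ : ∃ A : ℕ, A = ⌊y * 2 ^ (k + 1)⌋₊ := ⟨_, rfl⟩
    obtain ⟨B, hB⟩ : ∃ B : ℕ, B = ⌊y * (1 / 4) ^ k⌋₊ := ⟨_, rfl⟩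
    have hsub : F.filter (fun p => y * 2 ^ k < (ht p : ℝ) ∧ (ht p : ℝ) ≤ y * 2 ^ (k + 1)) ⊆
        ((Ioc 0 A) ×ˢ (Ioc 0 B)) ∪ ((Ioc 0 B) ×ˢ (Ioc 0 A)) := by
      intro p hp
      obtain ⟨hp1, hp2, hp3⟩ := mem_filter.1 hp
      obtain ⟨⟨p1, p2⟩, -⟩ := hF p hp1
      have hn := hnn p hp1
      have hyk : (0 : ℝ) < y * 2 ^ k := by positivity
      -- the smaller coordinate is small
      have key : ∀ s t : ℕ, 0 < s → 0 < t → y * 2 ^ k < (t : ℝ) → (t : ℝ) ≤ y * 2 ^ (k + 1) →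
          ((s * t * (s + t) : ℕ) : ℝ) ≤ y ^ 3 → s ≤ B ∧ t ≤ A := by
        intro s t hs ht' h1 h2 h3
        refine ⟨?_, by rw [hA]; exact Nat.le_floor h2⟩
        rw [hB]
        refine Nat.le_floor ?_
        have hs0 : (0 : ℝ) < s := by exact_mod_cast hs
        have ht0 : (0 : ℝ) < t := by exact_mod_cast ht'
        have h4 : (s : ℝ) * (y * 2 ^ k) ^ 2 ≤ y ^ 3 := by
          calc (s : ℝ) * (y * 2 ^ k) ^ 2 ≤ s * (t : ℝ) ^ 2 :=
                mul_le_mul_of_nonneg_left (pow_le_pow_left₀ hyk.le h1.le 2) hs0.le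
            _ ≤ s * t * (s + t) := by
                have h9 : (0 : ℝ) < s * s * t := by positivity
                have h10 : (s : ℝ) * t * (s + t) = s * t ^ 2 + s * s * t := by ring
                rw [h10]
                linarith
            _ = ((s * t * (s + t) : ℕ) : ℝ) := by push_cast; ring
            _ ≤ _ := h3
        have h5 : (y * 2 ^ k) ^ 2 * (y * (1 / 4) ^ k) = y ^ 3 := by
          have e : ((2 : ℝ) ^ k) ^ 2 * (1 / 4) ^ k = 1 := by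
            rw [← pow_mul, mul_comm k 2, pow_mul, ← mul_pow]
            norm_num
          calc (y * 2 ^ k) ^ 2 * (y * (1 / 4) ^ k) = y ^ 3 * (((2 : ℝ) ^ k) ^ 2 * (1 / 4) ^ k) := by ring
            _ = _ := by rw [e, mul_one]
        have h6 : (s : ℝ) * (y * 2 ^ k) ^ 2 ≤ (y * (1 / 4) ^ k) * (y * 2 ^ k) ^ 2 := by
          rw [mul_comm (y * (1 / 4) ^ k)]
          rw [h5]
          exact h4
        exact le_of_mul_le_mul_right h6 (by positivity)
      rw [mem_union, mem_product, mem_product, mem_Ioc, mem_Ioc, mem_Ioc, mem_Ioc]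
      unfold ht at hp2 hp3
      rcases le_total p.1 p.2 with hle | hle
      · rw [max_eq_right hle] at hp2 hp3
        obtain ⟨b1, b2⟩ := key p.1 p.2 p1 p2 hp2 hp3 (by
          have : p.1 * p.2 * (p.1 + p.2) = nn p := rfl
          rw [this]; exact hn)
        exact Or.inr ⟨⟨p1, b1⟩, ⟨p2, b2⟩⟩
      · rw [max_eq_left hle] at hp2 hp3
        obtain ⟨b1, b2⟩ := key p.2 p.1 p2 p1 hp2 hp3 (by
          have : p.2 * p.1 * (p.2 + p.1) = nn p := by unfold nn; ring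
          rw [this]; exact hn)
        exact Or.inl ⟨⟨p1, b2⟩, ⟨p2, b1⟩⟩
    have h1 : ((F.filter (fun p => y * 2 ^ k < (ht p : ℝ) ∧ (ht p : ℝ) ≤ y * 2 ^ (k + 1))).card : ℝ) ≤
        2 * ((A : ℝ) * B) := by
      have h2 := (card_le_card hsub).trans (card_union_le _ _)
      rw [card_product, card_product, Nat.card_Ioc, Nat.card_Ioc, Nat.sub_zero, Nat.sub_zero] at h2
      have h3 : ((F.filter (fun p => y * 2 ^ k < (ht p : ℝ) ∧ (ht p : ℝ) ≤ y * 2 ^ (k + 1))).card : ℝ) ≤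
          ((A * B + B * A : ℕ) : ℝ) := by exact_mod_cast h2
      refine h3.trans (le_of_eq ?_)
      push_cast
      ring
    refine h1.trans ?_
    have hAr : (A : ℝ) ≤ y * 2 ^ (k + 1) := by rw [hA]; exact Nat.floor_le (by positivity)
    have hBr : (B : ℝ) ≤ y * (1 / 4) ^ k := by rw [hB]; exact Nat.floor_le (by positivity)
    have e1 : ((2 : ℝ) ^ (-1 : ℝ)) ^ k = (1 / 2) ^ k := by
      rw [Real.rpow_neg_one]
      norm_num
    rw [e1]
    have e2 : (2 : ℝ) ^ (k + 1) * (1 / 4) ^ k = 2 * (1 / 2) ^ k := by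
      rw [pow_succ, mul_comm ((2 : ℝ) ^ k) 2, mul_assoc, ← mul_pow]
      norm_num
    have h2k : (0 : ℝ) ≤ y ^ 2 * (1 / 2) ^ k := by positivity
    calc 2 * ((A : ℝ) * B) ≤ 2 * ((y * 2 ^ (k + 1)) * (y * (1 / 4) ^ k)) := by
          have := mul_le_mul hAr hBr (Nat.cast_nonneg _) (by positivity)
          linarith
      _ = 2 * (y ^ 2 * (2 ^ (k + 1) * (1 / 4) ^ k)) := by ring
      _ = 4 * (y ^ 2 * (1 / 2) ^ k) := by rw [e2]; ring
      _ ≤ (G + 4) * (y ^ 2 * (1 / 2) ^ k) := mul_le_mul_of_nonneg_right (by linarith) h2k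
      _ = _ := by ring

/-- the number of the pairs with a large height -/
theorem cnt_H : ∃ η C : ℝ, 0 < η ∧ 0 < C ∧ ∀ X K : ℝ, 1 ≤ X → 1 ≤ K → ∀ F : Finset (ℕ × ℕ),
    (∀ p ∈ F, Gd p ∧ (g6 p : ℝ) ≤ X ∧ 27 * (K * X ^ 2) < 4 * (ht p : ℝ) ^ 6) →
    (F.card : ℝ) ≤ C * (K ^ (-(4 / 25) : ℝ) * X ^ ((2 : ℝ) / 3) + X ^ (2 / 3 - η)) := by
  classical
  obtain ⟨η, C, hη, hC, h⟩ := H_le (σ := 4 / 25) (by norm_num) (by norm_num)
  refine ⟨η, C, hη, hC, fun X K hX hK F hF => ?_⟩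
  have h1 := h (fun _ => 1) (fun _ _ _ => le_rfl) X K hX hK
  refine le_trans ?_ h1
  have hfin : {q : ℤ × ℤ | q ∈ Md (fun _ => 1) X ∧
      K * (condS q.1 q.2 : ℝ) ^ 2 < ((Hh q : ℤ) : ℝ)}.Finite :=
    (Md_fin (fun _ _ _ => le_rfl) hX).subset fun q hq => hq.1
  have hsub : ((F.image mo : Finset (ℤ × ℤ)) : Set (ℤ × ℤ)) ⊆ {q : ℤ × ℤ | q ∈ Md (fun _ => 1) X ∧
      K * (condS q.1 q.2 : ℝ) ^ 2 < ((Hh q : ℤ) : ℝ)} := by
    intro q hq
    rw [mem_coe, mem_image] at hq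
    obtain ⟨p, hp, rfl⟩ := hq
    obtain ⟨hG, hg, hM⟩ := hF p hp
    refine ⟨⟨mo_min hG, mo_full hG.2.2.1, ?_⟩, ?_⟩
    · rw [one_mul, mo_cond hG]
      exact hg
    · rw [mo_cond hG]
      have hH : 27 * ((Hh (mo p) : ℤ) : ℝ) =
          4 * ((p.1 : ℝ) ^ 2 + p.1 * p.2 + (p.2 : ℝ) ^ 2) ^ 3 := by
        exact_mod_cast mo_H hG
      have hp1 : (0 : ℝ) < p.1 := by exact_mod_cast hG.1
      have hp2 : (0 : ℝ) < p.2 := by exact_mod_cast hG.2.1
      have h6 : (ht p : ℝ) ^ 6 ≤ ((p.1 : ℝ) ^ 2 + p.1 * p.2 + (p.2 : ℝ) ^ 2) ^ 3 := by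
        have : (ht p : ℝ) ^ 2 ≤ (p.1 : ℝ) ^ 2 + p.1 * p.2 + (p.2 : ℝ) ^ 2 := by
          unfold ht
          rcases le_total p.1 p.2 with hle | hle
          · rw [max_eq_right hle]
            nlinarith [mul_pos hp1 hp2]
          · rw [max_eq_left hle]
            nlinarith [mul_pos hp1 hp2]
        calc (ht p : ℝ) ^ 6 = ((ht p : ℝ) ^ 2) ^ 3 := by ring
          _ ≤ _ := pow_le_pow_left₀ (by positivity) this 3
      have hg2 : (g6 p : ℝ) ^ 2 ≤ X ^ 2 := pow_le_pow_left₀ (Nat.cast_nonneg _) hg 2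
      have h7 : K * (g6 p : ℝ) ^ 2 ≤ K * X ^ 2 := mul_le_mul_of_nonneg_left hg2 (by linarith)
      linarith
  have hinj : Set.InjOn mo (F : Set (ℕ × ℕ)) := fun p hp p' hp' he =>
    mo_inj (hF p hp).1 (hF p' hp').1 he
  have h2 := Set.ncard_le_ncard hsub hfin
  rw [Set.ncard_coe_finset, card_image_of_injOn hinj] at h2
  exact_mod_cast h2

/-- **By conductor.** -/
theorem up_cond : ∃ C : ℝ, ∀ X : ℝ, 1 ≤ X → ∀ F : Finset (ℕ × ℕ),
    (∀ p ∈ F, Gd p ∧ (g6 p : ℝ) ≤ X) → ∑ p ∈ F, fw p ≤ C * X ^ ((2 : ℝ) / 3) := by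
  classical
  obtain ⟨G, hG1, hG⟩ := fw_mom
  obtain ⟨C, hC, hsh⟩ := Pool.Agent.H82.RO.shells (31 / 10) (24 / 25) (by norm_num) (by norm_num)
  obtain ⟨η, CH, hη, hCH, hcnt⟩ := cnt_H
  obtain ⟨ε, hε⟩ : ∃ ε : ℝ, ε = 24 / 25 * η := ⟨_, rfl⟩
  have hε0 : 0 < ε := by rw [hε]; positivity
  obtain ⟨Cp, hCp, hpt⟩ := fw_pt ε hε0
  refine ⟨C * (G + 16 + 10 * CH) + 2 * CH * Cp, fun X hX F hF => ?_⟩
  have hX0 : 0 < X := by linarith
  obtain ⟨y, hy⟩ : ∃ y : ℝ, y = X ^ ((1 : ℝ) / 3) := ⟨_, rfl⟩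
  have hy0 : 0 < y := by rw [hy]; positivity
  have hy1 : 1 ≤ y := by rw [hy]; exact Real.one_le_rpow hX (by norm_num)
  have hy2 : y ^ 2 = X ^ ((2 : ℝ) / 3) := by
    rw [hy, ← Real.rpow_natCast, ← Real.rpow_mul hX0.le]
    norm_num
  have hy6 : y ^ 6 = X ^ 2 := by
    rw [hy, ← Real.rpow_natCast, ← Real.rpow_mul hX0.le]
    norm_num
  obtain ⟨Z, hZ⟩ : ∃ Z : ℝ, Z = X ^ η := ⟨_, rfl⟩
  have hZ0 : 0 < Z := by rw [hZ]; positivity
  have hZ1 : 1 ≤ Z := by rw [hZ]; exact Real.one_le_rpow hX hη.le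
  obtain ⟨F1, hF1⟩ : ∃ F1, F1 = F.filter (fun p => (ht p : ℝ) ≤ 2 * y * Z) := ⟨_, rfl⟩
  obtain ⟨F2, hF2⟩ : ∃ F2, F2 = F.filter (fun p => ¬ (ht p : ℝ) ≤ 2 * y * Z) := ⟨_, rfl⟩
  have hpos : ∀ p ∈ F, 0 < p.1 ∧ 0 < p.2 := fun p hp => ⟨(hF p hp).1.1, (hF p hp).1.2.1⟩
  have hbig : ∑ p ∈ F2, fw p ≤ 2 * CH * Cp * X ^ ((2 : ℝ) / 3) := by
    have h1 := hcnt X (Z ^ 6) hX (one_le_pow₀ hZ1) F2 (by
      intro p hp
      rw [hF2] at hp
      obtain ⟨hp1, hp2⟩ := mem_filter.1 hp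
      refine ⟨(hF p hp1).1, (hF p hp1).2, ?_⟩
      push Not at hp2
      have h2 : (2 * y * Z) ^ 6 < (ht p : ℝ) ^ 6 := pow_lt_pow_left₀ hp2 (by positivity) (by norm_num)
      have h3 : (2 * y * Z) ^ 6 = 64 * (Z ^ 6 * X ^ 2) := by rw [← hy6]; ring
      rw [h3] at h2
      have h4 : 0 < Z ^ 6 * X ^ 2 := by positivity
      linarith)
    have e1 : (Z ^ 6) ^ (-(4 / 25) : ℝ) = X ^ (-ε) := by
      rw [hZ, ← Real.rpow_natCast (X ^ η) 6, ← Real.rpow_mul hX0.le, ← Real.rpow_mul hX0.le, hε]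
      congr 1
      push_cast
      ring
    rw [e1, ← Real.rpow_add hX0] at h1
    have h5 : X ^ (2 / 3 - η) ≤ X ^ (-ε + 2 / 3) :=
      Real.rpow_le_rpow_of_exponent_le hX (by rw [hε]; linarith)
    have h6 : (F2.card : ℝ) ≤ 2 * CH * X ^ (-ε + 2 / 3) := by
      refine h1.trans ?_
      have := mul_le_mul_of_nonneg_left h5 hCH.le
      linarith
    have h7 : ∑ p ∈ F2, fw p ≤ (F2.card : ℝ) * (Cp * X ^ ε) := by
      rw [← nsmul_eq_mul, ← sum_const]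
      refine sum_le_sum fun p hp => ?_
      rw [hF2] at hp
      have hp1 := (mem_filter.1 hp).1
      refine (hpt p (hpos p hp1).1 (hpos p hp1).2).trans ?_
      refine mul_le_mul_of_nonneg_left ?_ hCp.le
      exact Real.rpow_le_rpow (Nat.cast_nonneg _) (hF p hp1).2 hε0.le
    refine h7.trans ?_
    calc (F2.card : ℝ) * (Cp * X ^ ε) ≤ (2 * CH * X ^ (-ε + 2 / 3)) * (Cp * X ^ ε) :=
          mul_le_mul_of_nonneg_right h6 (by positivity)
      _ = 2 * CH * Cp * (X ^ (-ε + 2 / 3) * X ^ ε) := by ring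
      _ = _ := by
          rw [← Real.rpow_add hX0]
          congr 2
          ring
  have hsmall : ∑ p ∈ F1, fw p ≤ C * (G + 16 + 10 * CH) * y ^ 2 := by
    have hF1m : ∀ p ∈ F1, p ∈ F ∧ (ht p : ℝ) ≤ 2 * y * Z := by
      intro p hp
      rw [hF1] at hp
      exact mem_filter.1 hp
    refine hsh (ℕ × ℕ) F1 (fun p => (ht p : ℝ)) fw y (G + 16 + 10 * CH) hy1 (by linarith)
      (fun p _ => fw_nonneg p) ?_ ?_ ?_
    · intro T hT
      have h1 := (hG T hT (F1.filter (fun p => (ht p : ℝ) ≤ T)) fun p hp =>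
        ⟨hpos p (hF1m p (mem_filter.1 hp).1).1, (mem_filter.1 hp).2⟩).1
      refine h1.trans ?_
      exact mul_le_mul_of_nonneg_right (by linarith) (by positivity)
    · have h1 := (hG y hy1 (F1.filter (fun p => (ht p : ℝ) ≤ y)) fun p hp =>
        ⟨hpos p (hF1m p (mem_filter.1 hp).1).1, (mem_filter.1 hp).2⟩).2
      refine h1.trans ?_
      exact mul_le_mul_of_nonneg_right (by linarith) (by positivity)
    · intro k
      obtain ⟨E, hE⟩ : ∃ E, E = F1.filter (fun p => y * 2 ^ k < (ht p : ℝ) ∧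
        (ht p : ℝ) ≤ y * 2 ^ (k + 1)) := ⟨_, rfl⟩
      rw [← hE]
      have hEm : ∀ p ∈ E, (p ∈ F ∧ (ht p : ℝ) ≤ 2 * y * Z) ∧ y * 2 ^ k < (ht p : ℝ) ∧
          (ht p : ℝ) ≤ y * 2 ^ (k + 1) := by
        intro p hp
        rw [hE] at hp
        obtain ⟨h1, h2⟩ := mem_filter.1 hp
        exact ⟨hF1m p h1, h2⟩
      obtain ⟨R, hR⟩ : ∃ R : ℝ, R = ((2 : ℝ) ^ (-(24 / 25) : ℝ)) ^ k := ⟨_, rfl⟩
      rw [← hR]
      have hR0 : 0 < R := by rw [hR]; positivity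
      rcases E.eq_empty_or_nonempty with he | ⟨p0, hp0⟩
      · rw [he, card_empty, Nat.cast_zero]
        positivity
      rcases Nat.eq_zero_or_pos k with hk | hk
      · -- the first shell
        subst hk
        have hR1 : R = 1 := by rw [hR, pow_zero]
        rw [hR1, mul_one]
        have hsub : E ⊆ (Icc 1 ⌊y * 2⌋₊) ×ˢ (Icc 1 ⌊y * 2⌋₊) := by
          intro p hp
          obtain ⟨⟨h1, -⟩, -, h2⟩ := hEm p hp
          have h3 := hpos p h1
          have h4 : ht p ≤ ⌊y * 2⌋₊ := Nat.le_floor (by simpa using h2)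
          unfold ht at h4
          rw [mem_product, mem_Icc, mem_Icc]
          exact ⟨⟨h3.1, (le_max_left _ _).trans h4⟩, ⟨h3.2, (le_max_right _ _).trans h4⟩⟩
        have h1 := card_le_card hsub
        rw [card_product, Nat.card_Icc, Nat.add_sub_cancel] at h1
        have h2 : (E.card : ℝ) ≤ (⌊y * 2⌋₊ : ℝ) * (⌊y * 2⌋₊ : ℝ) := by exact_mod_cast h1
        have h3 : (⌊y * 2⌋₊ : ℝ) ≤ y * 2 := Nat.floor_le (by positivity)
        have h4 : (⌊y * 2⌋₊ : ℝ) * (⌊y * 2⌋₊ : ℝ) ≤ (y * 2) * (y * 2) :=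
          mul_le_mul h3 h3 (Nat.cast_nonneg _) (by positivity)
        have h5 : (0 : ℝ) ≤ y ^ 2 := by positivity
        nlinarith
      · -- the other shells
        have hk2 : (2 : ℝ) ^ k < 2 * Z := by
          obtain ⟨⟨-, h1⟩, h2, -⟩ := hEm p0 hp0
          have h3 : y * 2 ^ k < y * (2 * Z) := by linarith
          exact lt_of_mul_lt_mul_left h3 hy0.le
        have hK1 : (1 : ℝ) ≤ 4 / 27 * 64 ^ k := by
          have : (64 : ℝ) ^ 1 ≤ 64 ^ k := pow_le_pow_right₀ (by norm_num) hk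
          linarith
        have h1 := hcnt X (4 / 27 * 64 ^ k) hX hK1 E (by
          intro p hp
          obtain ⟨⟨h1, -⟩, h2, -⟩ := hEm p hp
          refine ⟨(hF p h1).1, (hF p h1).2, ?_⟩
          have h3 : (y * 2 ^ k) ^ 6 < (ht p : ℝ) ^ 6 :=
            pow_lt_pow_left₀ h2 (by positivity) (by norm_num)
          have h4 : (y * 2 ^ k) ^ 6 = X ^ 2 * 64 ^ k := by
            rw [mul_pow, hy6, ← pow_mul, mul_comm k 6, pow_mul]
            norm_num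
          rw [h4] at h3
          linarith)
        have e1 : (4 / 27 * 64 ^ k : ℝ) ^ (-(4 / 25) : ℝ) ≤ 7 * R := by
          rw [Real.mul_rpow (by norm_num) (by positivity)]
          refine mul_le_mul ?_ (le_of_eq ?_) (by positivity) (by norm_num)
          · rw [Real.rpow_neg (by norm_num), ← Real.inv_rpow (by norm_num)]
            calc ((4 / 27 : ℝ)⁻¹) ^ (4 / 25 : ℝ) ≤ ((4 / 27 : ℝ)⁻¹) ^ (1 : ℝ) :=
                  Real.rpow_le_rpow_of_exponent_le (by norm_num) (by norm_num)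
              _ ≤ 7 := by rw [Real.rpow_one]; norm_num
          · rw [hR, ← Real.rpow_natCast, ← Real.rpow_natCast, ← Real.rpow_mul (by norm_num),
              ← Real.rpow_mul (by norm_num)]
            have : (64 : ℝ) = 2 ^ (6 : ℝ) := by
              rw [show (6 : ℝ) = ((6 : ℕ) : ℝ) by norm_num, Real.rpow_natCast]
              norm_num
            rw [this, ← Real.rpow_mul (by norm_num)]
            congr 1
            ring
        have e2 : X ^ (2 / 3 - η) ≤ 2 * R * X ^ ((2 : ℝ) / 3) := by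
          rw [Real.rpow_sub hX0, ← hZ, div_eq_mul_inv, mul_comm]
          refine mul_le_mul_of_nonneg_right ?_ (by positivity)
          have h2 : Z⁻¹ ≤ 2 * ((2 : ℝ) ^ k)⁻¹ := by
            rw [inv_le_comm₀ hZ0 (by positivity), mul_inv, inv_inv]
            linarith
          refine h2.trans ?_
          refine mul_le_mul_of_nonneg_left ?_ (by norm_num)
          rw [hR, ← inv_pow]
          refine pow_le_pow_left₀ (by norm_num) ?_ k
          rw [← Real.rpow_neg_one]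
          exact Real.rpow_le_rpow_of_exponent_le (by norm_num) (by norm_num)
        have hX23 : 0 < X ^ ((2 : ℝ) / 3) := by positivity
        have h2 : (E.card : ℝ) ≤ CH * (9 * R * X ^ ((2 : ℝ) / 3)) := by
          refine h1.trans (mul_le_mul_of_nonneg_left ?_ hCH.le)
          have := mul_le_mul_of_nonneg_right e1 hX23.le
          linarith
        refine h2.trans ?_
        rw [← hy2]
        have h3 : 0 < R * y ^ 2 := by positivity
        have h4 : CH * (9 * R * y ^ 2) = 9 * CH * (R * y ^ 2) := by ring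
        have h5 : (G + 16 + 10 * CH) * y ^ 2 * R = (G + 16 + 10 * CH) * (R * y ^ 2) := by ring
        rw [h4, h5]
        exact mul_le_mul_of_nonneg_right (by linarith) h3.le
  have hsplit : ∑ p ∈ F, fw p = ∑ p ∈ F1, fw p + ∑ p ∈ F2, fw p := by
    rw [hF1, hF2]
    exact (sum_filter_add_sum_filter_not F _ _).symm
  rw [hsplit, add_mul, ← hy2]
  rw [← hy2] at hbig
  exact add_le_add hsmall hbig

end Pool.Agent.H82.FT
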